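import Mathlib

/-!
# Base certificate for the flat example (machine generated elimination)
-/

set_option linter.all false

namespace Pool.Agent.H85.KT

def btth0 (z : ℤ → ℤ → ℤ → ℂ) (a b c : ℤ) : ℂ :=
  1 * (((a + 1 : ℤ) : ℂ) * z (a + 1) b c) +
  (-2) * (((a + 1 : ℤ) : ℂ) * z (a + 1) (b - 1) c) +
  1 * (((b + 1 : ℤ) : ℂ) * z (a - 1) (b + 1) c) +
  (-1) * (((b + 1 : ℤ) : ℂ) * z a (b + 1) (c - 1)) +
  1 * (((c + 1 : ℤ) : ℂ) * z a (b - 1) (c + 1))

def btth1 (z : ℤ → ℤ → ℤ → ℂ) (a b c : ℤ) : ℂ :=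
  1 * (((a : ℤ) : ℂ) * z a b c) +
  (-1) * (((a + 1 : ℤ) : ℂ) * z (a + 1) b (c - 1)) +
  (-1) * (((b + 1 : ℤ) : ℂ) * z a (b + 1) c)

def btth2 (z : ℤ → ℤ → ℤ → ℂ) (a b c : ℤ) : ℂ :=
  1 * (((a + 1 : ℤ) : ℂ) * z (a + 1) (b - 1) c)

theorem bt_abs (z : ℤ → ℤ → ℤ → ℂ)
    (h0 : ∀ a b c : ℤ, a < 0 → z a b c = 0)
    (h1 : ∀ a b c : ℤ, b < 0 → z a b c = 0)
    (h2 : ∀ a b c : ℤ, c < 0 → z a b c = 0)
    (E01 : ∀ a b c : ℤ, a + b + c < 5 →
      ((a + 1 : ℤ) : ℂ) * btth1 z (a + 1) b c - ((b + 1 : ℤ) : ℂ) * btth0 z a (b + 1) c = 0)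
    (E02 : ∀ a b c : ℤ, a + b + c < 5 →
      ((a + 1 : ℤ) : ℂ) * btth2 z (a + 1) b c - ((c + 1 : ℤ) : ℂ) * btth0 z a b (c + 1) = 0)
    (E12 : ∀ a b c : ℤ, a + b + c < 5 →
      ((b + 1 : ℤ) : ℂ) * btth2 z a (b + 1) c - ((c + 1 : ℤ) : ℂ) * btth1 z a b (c + 1) = 0) :
    z 1 0 0 = 0 ∧ z 0 1 0 = 0 ∧ z 0 0 1 = 0 ∧ z 2 0 0 = 0 ∧ z 0 2 0 = 0 ∧ z 0 0 2 = 0 ∧ z 3 0 0 = 0 ∧ z 0 3 0 = 0 ∧ z 0 0 3 = 0 ∧ z 4 0 0 = 0 ∧ z 0 4 0 = 0 ∧ z 0 0 4 = 0 ∧ z 5 0 0 = 0 ∧ z 0 5 0 = 0 ∧ z 0 0 5 = 0 := by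
  have k0 : ∀ b c : ℤ, z (-1) b c = 0 := fun b c => h0 (-1) b c (by norm_num)
  have k1 : ∀ a c : ℤ, z a (-1) c = 0 := fun a c => h1 a (-1) c (by norm_num)
  have k2 : ∀ a b : ℤ, z a b (-1) = 0 := fun a b => h2 a b (-1) (by norm_num)
  have g0_1_1 : z 0 1 1 = (-2) * z 1 0 0 := by
    have e := E12 0 0 0 (by norm_num)
    simp only [k0, k1, k2, btth0, btth1, btth2,
    Int.reduceAdd, Int.reduceSub, Int.reduceNeg, Int.cast_ofNat, Int.cast_one, Int.cast_zero] at e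
    linear_combination 1 * e
  have g1_0_1 : z 1 0 1 = 1 * z 0 1 0 := by
    have e := E02 0 0 0 (by norm_num)
    simp only [k0, k1, k2, btth0, btth1, btth2,
    Int.reduceAdd, Int.reduceSub, Int.reduceNeg, Int.cast_ofNat, Int.cast_one, Int.cast_zero] at e
    linear_combination (-1) * e
  have g1_1_0 : z 1 1 0 = (-1/2) * z 0 0 1 + (3/2) * z 1 0 0 := by
    have e := E01 0 0 0 (by norm_num)
    simp only [k0, k1, k2, btth0, btth1, btth2,
    Int.reduceAdd, Int.reduceSub, Int.reduceNeg, Int.cast_ofNat, Int.cast_one, Int.cast_zero] at e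
    linear_combination (-1/2) * e
  have g0_1_2 : z 0 1 2 = (-3/2) * z 0 1 0 := by
    have e := E12 0 0 1 (by norm_num)
    simp only [k0, k1, k2, btth0, btth1, btth2,
    Int.reduceAdd, Int.reduceSub, Int.reduceNeg, Int.cast_ofNat, Int.cast_one, Int.cast_zero] at e
    linear_combination (1/2) * e + (-3/2) * g1_0_1
  have g0_2_1 : z 0 2 1 = (3/4) * z 0 0 1 + (-9/4) * z 1 0 0 := by
    have e := E12 0 1 0 (by norm_num)
    simp only [k0, k1, k2, btth0, btth1, btth2,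
    Int.reduceAdd, Int.reduceSub, Int.reduceNeg, Int.cast_ofNat, Int.cast_one, Int.cast_zero] at e
    linear_combination (1/2) * e + (-3/2) * g1_1_0
  have g1_0_2 : z 1 0 2 = (-2) * z 1 0 0 := by
    have e := E02 0 0 1 (by norm_num)
    simp only [k0, k1, k2, btth0, btth1, btth2,
    Int.reduceAdd, Int.reduceSub, Int.reduceNeg, Int.cast_ofNat, Int.cast_one, Int.cast_zero] at e
    linear_combination (-1/2) * e + 1 * g0_1_1
  have g1_1_1 : z 1 1 1 = 1 * z 0 1 0 + (-4) * z 2 0 0 := by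
    have e := E12 1 0 0 (by norm_num)
    simp only [k0, k1, k2, btth0, btth1, btth2,
    Int.reduceAdd, Int.reduceSub, Int.reduceNeg, Int.cast_ofNat, Int.cast_one, Int.cast_zero] at e
    linear_combination 1 * e + 1 * g1_0_1
  have g1_2_0 : z 1 2 0 = (-5/8) * z 0 0 1 + (23/8) * z 1 0 0 := by
    have e := E01 0 1 0 (by norm_num)
    simp only [k0, k1, k2, btth0, btth1, btth2,
    Int.reduceAdd, Int.reduceSub, Int.reduceNeg, Int.cast_ofNat, Int.cast_one, Int.cast_zero] at e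
    linear_combination (-1/4) * e + (5/4) * g1_1_0 + (-1/2) * g0_1_1
  have g2_0_1 : z 2 0 1 = (-1/4) * z 0 0 1 + (7/4) * z 1 0 0 := by
    have e := E02 1 0 0 (by norm_num)
    simp only [k0, k1, k2, btth0, btth1, btth2,
    Int.reduceAdd, Int.reduceSub, Int.reduceNeg, Int.cast_ofNat, Int.cast_one, Int.cast_zero] at e
    linear_combination (-1/2) * e + (-1/2) * g0_1_1 + (1/2) * g1_1_0
  have g2_1_0 : z 2 1 0 = (-1/4) * z 0 1 0 + (-1/2) * z 0 2 0 + 2 * z 2 0 0 := by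
    have e := E01 1 0 0 (by norm_num)
    simp only [k0, k1, k2, btth0, btth1, btth2,
    Int.reduceAdd, Int.reduceSub, Int.reduceNeg, Int.cast_ofNat, Int.cast_one, Int.cast_zero] at e
    linear_combination (-1/4) * e + (-1/4) * g1_0_1
  have g0_1_3 : z 0 1 3 = (8/3) * z 1 0 0 := by
    have e := E12 0 0 2 (by norm_num)
    simp only [k0, k1, k2, btth0, btth1, btth2,
    Int.reduceAdd, Int.reduceSub, Int.reduceNeg, Int.cast_ofNat, Int.cast_one, Int.cast_zero] at e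
    linear_combination (1/3) * e + (-4/3) * g1_0_2
  have g0_2_2 : z 0 2 2 = (-1) * z 0 1 0 + 4 * z 2 0 0 := by
    have e := E12 0 1 1 (by norm_num)
    simp only [k0, k1, k2, btth0, btth1, btth2,
    Int.reduceAdd, Int.reduceSub, Int.reduceNeg, Int.cast_ofNat, Int.cast_one, Int.cast_zero] at e
    linear_combination (1/4) * e + (-1) * g1_1_1
  have g0_3_1 : z 0 3 1 = (5/6) * z 0 0 1 + (-23/6) * z 1 0 0 := by
    have e := E12 0 2 0 (by norm_num)
    simp only [k0, k1, k2, btth0, btth1, btth2,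
    Int.reduceAdd, Int.reduceSub, Int.reduceNeg, Int.cast_ofNat, Int.cast_one, Int.cast_zero] at e
    linear_combination (1/3) * e + (-4/3) * g1_2_0
  have g1_0_3 : z 1 0 3 = (-3/2) * z 0 1 0 := by
    have e := E02 0 0 2 (by norm_num)
    simp only [k0, k1, k2, btth0, btth1, btth2,
    Int.reduceAdd, Int.reduceSub, Int.reduceNeg, Int.cast_ofNat, Int.cast_one, Int.cast_zero] at e
    linear_combination (-1/3) * e + 1 * g0_1_2
  have g1_1_2 : z 1 1 2 = (3/4) * z 0 0 1 + (-29/4) * z 1 0 0 := by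
    have e := E12 1 0 1 (by norm_num)
    simp only [k0, k1, k2, btth0, btth1, btth2,
    Int.reduceAdd, Int.reduceSub, Int.reduceNeg, Int.cast_ofNat, Int.cast_one, Int.cast_zero] at e
    linear_combination (1/2) * e + (-3) * g2_0_1 + 1 * g1_0_2
  have g1_2_1 : z 1 2 1 = (5/4) * z 0 1 0 + (3/2) * z 0 2 0 + (-8) * z 2 0 0 := by
    have e := E12 1 1 0 (by norm_num)
    simp only [k0, k1, k2, btth0, btth1, btth2,
    Int.reduceAdd, Int.reduceSub, Int.reduceNeg, Int.cast_ofNat, Int.cast_one, Int.cast_zero] at e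
    linear_combination (1/2) * e + (-3) * g2_1_0 + (1/2) * g1_1_1
  have g1_3_0 : z 1 3 0 = (-53/48) * z 0 0 1 + (215/48) * z 1 0 0 := by
    have e := E01 0 2 0 (by norm_num)
    simp only [k0, k1, k2, btth0, btth1, btth2,
    Int.reduceAdd, Int.reduceSub, Int.reduceNeg, Int.cast_ofNat, Int.cast_one, Int.cast_zero] at e
    linear_combination (-1/6) * e + (7/6) * g1_2_0 + (-1/2) * g0_2_1
  have g2_0_2 : z 2 0 2 = (5/4) * z 0 1 0 + (-2) * z 2 0 0 := by
    have e := E02 1 0 1 (by norm_num)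
    simp only [k0, k1, k2, btth0, btth1, btth2,
    Int.reduceAdd, Int.reduceSub, Int.reduceNeg, Int.cast_ofNat, Int.cast_one, Int.cast_zero] at e
    linear_combination (-1/4) * e + (-1/2) * g0_1_2 + (1/2) * g1_1_1
  have g2_1_1 : z 2 1 1 = (-1/2) * z 0 0 1 + (7/2) * z 1 0 0 + (-6) * z 3 0 0 := by
    have e := E12 2 0 0 (by norm_num)
    simp only [k0, k1, k2, btth0, btth1, btth2,
    Int.reduceAdd, Int.reduceSub, Int.reduceNeg, Int.cast_ofNat, Int.cast_one, Int.cast_zero] at e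
    linear_combination 1 * e + 2 * g2_0_1
  have g2_2_0 : z 2 2 0 = (-5/8) * z 0 1 0 + (-3/4) * z 0 2 0 + 4 * z 2 0 0 + (-3/4) * z 0 3 0 := by
    have e := E01 1 1 0 (by norm_num)
    simp only [k0, k1, k2, btth0, btth1, btth2,
    Int.reduceAdd, Int.reduceSub, Int.reduceNeg, Int.cast_ofNat, Int.cast_one, Int.cast_zero] at e
    linear_combination (-1/8) * e + (3/2) * g2_1_0 + (-1/4) * g1_1_1
  have g3_0_1 : z 3 0 1 = (-5/12) * z 0 1 0 + (-1/6) * z 0 2 0 + 2 * z 2 0 0 := by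
    have e := E02 2 0 0 (by norm_num)
    simp only [k0, k1, k2, btth0, btth1, btth2,
    Int.reduceAdd, Int.reduceSub, Int.reduceNeg, Int.cast_ofNat, Int.cast_one, Int.cast_zero] at e
    linear_combination (-1/3) * e + (-1/3) * g1_1_1 + (1/3) * g2_1_0
  have g3_1_0 : z 3 1 0 = (1/4) * z 0 0 1 + (-5/4) * z 1 0 0 + (5/2) * z 3 0 0 := by
    have e := E01 2 0 0 (by norm_num)
    simp only [k0, k1, k2, btth0, btth1, btth2,
    Int.reduceAdd, Int.reduceSub, Int.reduceNeg, Int.cast_ofNat, Int.cast_one, Int.cast_zero] at e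
    linear_combination (-1/6) * e + (-1/3) * g1_2_0 + (-1/6) * g2_0_1
  have g0_1_4 : z 0 1 4 = (15/8) * z 0 1 0 := by
    have e := E12 0 0 3 (by norm_num)
    simp only [k0, k1, k2, btth0, btth1, btth2,
    Int.reduceAdd, Int.reduceSub, Int.reduceNeg, Int.cast_ofNat, Int.cast_one, Int.cast_zero] at e
    linear_combination (1/4) * e + (-5/4) * g1_0_3
  have g0_2_3 : z 0 2 3 = (-5/8) * z 0 0 1 + (145/24) * z 1 0 0 := by
    have e := E12 0 1 2 (by norm_num)
    simp only [k0, k1, k2, btth0, btth1, btth2,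
    Int.reduceAdd, Int.reduceSub, Int.reduceNeg, Int.cast_ofNat, Int.cast_one, Int.cast_zero] at e
    linear_combination (1/6) * e + (-5/6) * g1_1_2
  have g0_3_2 : z 0 3 2 = (-25/24) * z 0 1 0 + (-5/4) * z 0 2 0 + (20/3) * z 2 0 0 := by
    have e := E12 0 2 1 (by norm_num)
    simp only [k0, k1, k2, btth0, btth1, btth2,
    Int.reduceAdd, Int.reduceSub, Int.reduceNeg, Int.cast_ofNat, Int.cast_one, Int.cast_zero] at e
    linear_combination (1/6) * e + (-5/6) * g1_2_1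
  have g1_0_4 : z 1 0 4 = (8/3) * z 1 0 0 := by
    have e := E02 0 0 3 (by norm_num)
    simp only [k0, k1, k2, btth0, btth1, btth2,
    Int.reduceAdd, Int.reduceSub, Int.reduceNeg, Int.cast_ofNat, Int.cast_one, Int.cast_zero] at e
    linear_combination (-1/4) * e + 1 * g0_1_3
  have g1_1_3 : z 1 1 3 = (-29/6) * z 0 1 0 + (16/3) * z 2 0 0 := by
    have e := E12 1 0 2 (by norm_num)
    simp only [k0, k1, k2, btth0, btth1, btth2,
    Int.reduceAdd, Int.reduceSub, Int.reduceNeg, Int.cast_ofNat, Int.cast_one, Int.cast_zero] at e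
    linear_combination (1/3) * e + (-8/3) * g2_0_2 + 1 * g1_0_3
  have g1_2_2 : z 1 2 2 = (7/2) * z 0 0 1 + (-61/2) * z 1 0 0 + (-6) * z 3 0 0 := by
    have e := E02 0 2 1 (by norm_num)
    simp only [k0, k1, k2, btth0, btth1, btth2,
    Int.reduceAdd, Int.reduceSub, Int.reduceNeg, Int.cast_ofNat, Int.cast_one, Int.cast_zero] at e
    linear_combination (-1/2) * e + 1 * g2_1_1 + 2 * g1_1_2 + 3 * g0_3_1 + (-3) * g0_1_3
  have g1_3_1 : z 1 3 1 = (25/12) * z 0 1 0 + (5/2) * z 0 2 0 + (-40/3) * z 2 0 0 + 2 * z 0 3 0 := by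
    have e := E12 1 2 0 (by norm_num)
    simp only [k0, k1, k2, btth0, btth1, btth2,
    Int.reduceAdd, Int.reduceSub, Int.reduceNeg, Int.cast_ofNat, Int.cast_one, Int.cast_zero] at e
    linear_combination (1/3) * e + (-8/3) * g2_2_0 + (1/3) * g1_2_1
  have g2_0_3 : z 2 0 3 = (3/8) * z 0 0 1 + (-119/24) * z 1 0 0 := by
    have e := E02 1 0 2 (by norm_num)
    simp only [k0, k1, k2, btth0, btth1, btth2,
    Int.reduceAdd, Int.reduceSub, Int.reduceNeg, Int.cast_ofNat, Int.cast_one, Int.cast_zero] at e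
    linear_combination (-1/6) * e + (-1/2) * g0_1_3 + (1/2) * g1_1_2
  have g2_1_2 : z 2 1 2 = (43/8) * z 0 1 0 + 1 * z 0 2 0 + (-13) * z 2 0 0 := by
    have e := E01 1 0 2 (by norm_num)
    simp only [k0, k1, k2, btth0, btth1, btth2,
    Int.reduceAdd, Int.reduceSub, Int.reduceNeg, Int.cast_ofNat, Int.cast_one, Int.cast_zero] at e
    linear_combination (-1/4) * e + 2 * g2_0_2 + (-3/2) * g3_0_1 + (-1/2) * g0_2_2 + (1/2) * g1_2_1 + (-3/4) * g1_0_3
  have g2_2_1 : z 2 2 1 = (-13/8) * z 0 0 1 + (73/8) * z 1 0 0 + (-69/4) * z 3 0 0 := by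
    have e := E12 2 1 0 (by norm_num)
    simp only [k0, k1, k2, btth0, btth1, btth2,
    Int.reduceAdd, Int.reduceSub, Int.reduceNeg, Int.cast_ofNat, Int.cast_one, Int.cast_zero] at e
    linear_combination (1/2) * e + (-9/2) * g3_1_0 + 1 * g2_1_1
  have g2_3_0 : z 2 3 0 = (-55/48) * z 0 1 0 + (-11/8) * z 0 2 0 + (22/3) * z 2 0 0 + (-1) * z 0 3 0 + (-1) * z 0 4 0 := by
    have e := E01 1 2 0 (by norm_num)
    simp only [k0, k1, k2, btth0, btth1, btth2,
    Int.reduceAdd, Int.reduceSub, Int.reduceNeg, Int.cast_ofNat, Int.cast_one, Int.cast_zero] at e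
    linear_combination (-1/12) * e + (4/3) * g2_2_0 + (-1/4) * g1_2_1
  have g3_0_2 : z 3 0 2 = (-5/12) * z 0 0 1 + (43/12) * z 1 0 0 + (-2) * z 3 0 0 := by
    have e := E02 2 0 1 (by norm_num)
    simp only [k0, k1, k2, btth0, btth1, btth2,
    Int.reduceAdd, Int.reduceSub, Int.reduceNeg, Int.cast_ofNat, Int.cast_one, Int.cast_zero] at e
    linear_combination (-1/6) * e + (-1/3) * g1_1_2 + (1/3) * g2_1_1
  have g3_1_1 : z 3 1 1 = (-5/4) * z 0 1 0 + (-1/2) * z 0 2 0 + 6 * z 2 0 0 + (-8) * z 4 0 0 := by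
    have e := E12 3 0 0 (by norm_num)
    simp only [k0, k1, k2, btth0, btth1, btth2,
    Int.reduceAdd, Int.reduceSub, Int.reduceNeg, Int.cast_ofNat, Int.cast_one, Int.cast_zero] at e
    linear_combination 1 * e + 3 * g3_0_1
  have g3_2_0 : z 3 2 0 = (103/96) * z 0 0 1 + (-481/96) * z 1 0 0 + (43/8) * z 3 0 0 := by
    have e := E01 2 1 0 (by norm_num)
    simp only [k0, k1, k2, btth0, btth1, btth2,
    Int.reduceAdd, Int.reduceSub, Int.reduceNeg, Int.cast_ofNat, Int.cast_one, Int.cast_zero] at e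
    linear_combination (-1/12) * e + (7/4) * g3_1_0 + (-1/2) * g1_3_0 + (-1/6) * g2_1_1
  have g4_0_1 : z 4 0 1 = (3/16) * z 0 0 1 + (-19/16) * z 1 0 0 + (17/8) * z 3 0 0 := by
    have e := E02 3 0 0 (by norm_num)
    simp only [k0, k1, k2, btth0, btth1, btth2,
    Int.reduceAdd, Int.reduceSub, Int.reduceNeg, Int.cast_ofNat, Int.cast_one, Int.cast_zero] at e
    linear_combination (-1/4) * e + (-1/4) * g2_1_1 + (1/4) * g3_1_0
  have g1_1_4 : z 1 1 4 = (-15/16) * z 0 0 1 + (241/16) * z 1 0 0 := by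
    have e := E12 1 0 3 (by norm_num)
    simp only [k0, k1, k2, btth0, btth1, btth2,
    Int.reduceAdd, Int.reduceSub, Int.reduceNeg, Int.cast_ofNat, Int.cast_one, Int.cast_zero] at e
    linear_combination (1/4) * e + (-5/2) * g2_0_3 + 1 * g1_0_4
  have g1_2_3 : z 1 2 3 = (-91/8) * z 0 1 0 + (-5/3) * z 0 2 0 + (73/3) * z 2 0 0 := by
    have e := E12 1 1 2 (by norm_num)
    simp only [k0, k1, k2, btth0, btth1, btth2,
    Int.reduceAdd, Int.reduceSub, Int.reduceNeg, Int.cast_ofNat, Int.cast_one, Int.cast_zero] at e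
    linear_combination (1/6) * e + (-5/3) * g2_1_2 + (1/2) * g1_1_3
  have g1_4_1 : z 1 4 1 = (325/96) * z 0 1 0 + (65/16) * z 0 2 0 + (-65/3) * z 2 0 0 + 3 * z 0 3 0 + (5/2) * z 0 4 0 := by
    have e := E12 1 3 0 (by norm_num)
    simp only [k0, k1, k2, btth0, btth1, btth2,
    Int.reduceAdd, Int.reduceSub, Int.reduceNeg, Int.cast_ofNat, Int.cast_one, Int.cast_zero] at e
    linear_combination (1/4) * e + (-5/2) * g2_3_0 + (1/4) * g1_3_1
  have g2_2_2 : z 2 2 2 = (73/8) * z 0 1 0 + (5/2) * z 0 2 0 + (-31) * z 2 0 0 + 24 * z 4 0 0 := by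
    have e := E12 2 1 1 (by norm_num)
    simp only [k0, k1, k2, btth0, btth1, btth2,
    Int.reduceAdd, Int.reduceSub, Int.reduceNeg, Int.cast_ofNat, Int.cast_one, Int.cast_zero] at e
    linear_combination (1/4) * e + (-3) * g3_1_1 + 1 * g2_1_2
  have g4_1_1 : z 4 1 1 = (3/4) * z 0 0 1 + (-19/4) * z 1 0 0 + (17/2) * z 3 0 0 + (-10) * z 5 0 0 := by
    have e := E12 4 0 0 (by norm_num)
    simp only [k0, k1, k2, btth0, btth1, btth2,
    Int.reduceAdd, Int.reduceSub, Int.reduceNeg, Int.cast_ofNat, Int.cast_one, Int.cast_zero] at e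
    linear_combination 1 * e + 4 * g4_0_1
  have c0 : 1 * z 0 1 0 + (-2) * z 0 0 2 + 2 * z 0 2 0 + 6 * z 2 0 0 = 0 := by
    have e := E01 0 0 1 (by norm_num)
    simp only [k0, k1, k2, btth0, btth1, btth2,
    Int.reduceAdd, Int.reduceSub, Int.reduceNeg, Int.cast_ofNat, Int.cast_one, Int.cast_zero] at e
    linear_combination e + (-3) * g1_0_1 + 2 * g1_1_1
  have c1 : 1 * z 0 0 1 + 1 * z 1 0 0 + (-6) * z 0 0 3 = 0 := by
    have e := E02 0 1 1 (by norm_num)
    simp only [k0, k1, k2, btth0, btth1, btth2,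
    Int.reduceAdd, Int.reduceSub, Int.reduceNeg, Int.cast_ofNat, Int.cast_one, Int.cast_zero] at e
    linear_combination e + (-2) * g2_0_1 + 2 * g1_1_2 + (-4) * g1_0_2 + (-4) * g0_2_1
  have c2 : (-11/4) * z 0 0 1 + (57/4) * z 1 0 0 + 18 * z 3 0 0 = 0 := by
    have e := E01 1 0 1 (by norm_num)
    simp only [k0, k1, k2, btth0, btth1, btth2,
    Int.reduceAdd, Int.reduceSub, Int.reduceNeg, Int.cast_ofNat, Int.cast_one, Int.cast_zero] at e
    linear_combination e + (-8) * g2_0_1 + 4 * g2_1_1 + 2 * g0_2_1 + (-2) * g1_2_0 + 2 * g1_0_2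
  have c3 : (13/2) * z 0 1 0 + (-5) * z 0 2 0 + 8 * z 2 0 0 + 6 * z 0 3 0 = 0 := by
    have e := E01 0 1 1 (by norm_num)
    simp only [k0, k1, k2, btth0, btth1, btth2,
    Int.reduceAdd, Int.reduceSub, Int.reduceNeg, Int.cast_ofNat, Int.cast_one, Int.cast_zero] at e
    linear_combination e + (-5) * g1_1_1 + 2 * g2_1_0 + 4 * g1_2_1 + 4 * g0_1_2
  have c4 : 4 * z 0 1 0 + 1 * z 0 2 0 = 0 := by
    have e := E02 1 1 1 (by norm_num)
    simp only [k0, k1, k2, btth0, btth1, btth2,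
    Int.reduceAdd, Int.reduceSub, Int.reduceNeg, Int.cast_ofNat, Int.cast_one, Int.cast_zero] at e
    linear_combination e + (-6) * g3_0_1 + 4 * g2_1_2 + (-8) * g2_0_2 + 4 * g0_2_2 + (-4) * g1_2_1 + 6 * g1_0_3
  have c5 : 2 * z 0 1 0 + 4 * z 2 0 0 + (-12) * z 0 0 4 = 0 := by
    have e := E02 0 1 2 (by norm_num)
    simp only [k0, k1, k2, btth0, btth1, btth2,
    Int.reduceAdd, Int.reduceSub, Int.reduceNeg, Int.cast_ofNat, Int.cast_one, Int.cast_zero] at e
    linear_combination e + (-2) * g2_0_2 + 3 * g1_1_3 + (-6) * g1_0_3 + (-6) * g0_2_2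
  have c6 : (-73/8) * z 0 0 1 + (443/8) * z 1 0 0 + 51 * z 3 0 0 = 0 := by
    have e := E01 1 1 1 (by norm_num)
    simp only [k0, k1, k2, btth0, btth1, btth2,
    Int.reduceAdd, Int.reduceSub, Int.reduceNeg, Int.cast_ofNat, Int.cast_one, Int.cast_zero] at e
    linear_combination e + (-12) * g2_1_1 + 6 * g3_1_0 + 8 * g2_2_1 + 6 * g0_3_1 + (-6) * g1_3_0 + 4 * g1_1_2
  have c7 : (-17/4) * z 0 0 1 + (159/4) * z 1 0 0 + 36 * z 3 0 0 = 0 := by
    have e := E01 0 1 2 (by norm_num)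
    simp only [k0, k1, k2, btth0, btth1, btth2,
    Int.reduceAdd, Int.reduceSub, Int.reduceNeg, Int.cast_ofNat, Int.cast_one, Int.cast_zero] at e
    linear_combination e + (-5) * g1_1_2 + 2 * g2_1_1 + 4 * g1_2_2 + (-6) * g0_3_1 + 6 * g0_1_3
  have c8 : (-5) * z 0 1 0 + (-4) * z 0 2 0 + 22 * z 2 0 0 + (-3/2) * z 0 3 0 + 36 * z 4 0 0 = 0 := by
    have e := E01 2 0 1 (by norm_num)
    simp only [k0, k1, k2, btth0, btth1, btth2,
    Int.reduceAdd, Int.reduceSub, Int.reduceNeg, Int.cast_ofNat, Int.cast_one, Int.cast_zero] at e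
    linear_combination e + (-15) * g3_0_1 + 6 * g3_1_1 + 2 * g1_2_1 + (-2) * g2_2_0 + 2 * g2_0_2
  have c9 : (7/2) * z 0 1 0 + (-3) * z 0 2 0 + (-8) * z 2 0 0 + (-21/2) * z 0 3 0 + 12 * z 0 4 0 = 0 := by
    have e := E01 0 2 1 (by norm_num)
    simp only [k0, k1, k2, btth0, btth1, btth2,
    Int.reduceAdd, Int.reduceSub, Int.reduceNeg, Int.cast_ofNat, Int.cast_one, Int.cast_zero] at e
    linear_combination e + (-7) * g1_2_1 + 2 * g2_2_0 + 6 * g1_3_1 + 6 * g0_2_2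
  have c10 : (-16) * z 0 1 0 + (-17/4) * z 0 2 0 + (-7) * z 2 0 0 = 0 := by
    have e := E02 0 2 2 (by norm_num)
    simp only [k0, k1, k2, btth0, btth1, btth2,
    Int.reduceAdd, Int.reduceSub, Int.reduceNeg, Int.cast_ofNat, Int.cast_one, Int.cast_zero] at e
    linear_combination e + (-2) * g2_1_2 + 3 * g1_2_3 + (-6) * g1_1_3 + (-9) * g0_3_2 + 12 * g0_1_4
  have c11 : (-1/8) * z 0 0 1 + (-1/8) * z 1 0 0 + (-5) * z 0 0 5 = 0 := by
    have e := E01 0 0 4 (by norm_num)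
    simp only [k0, k1, k2, btth0, btth1, btth2,
    Int.reduceAdd, Int.reduceSub, Int.reduceNeg, Int.cast_ofNat, Int.cast_one, Int.cast_zero] at e
    linear_combination e + (-3) * g1_0_4 + 2 * g2_0_3 + 2 * g1_1_4 + (-2) * g0_2_3
  have c12 : (227/48) * z 0 0 1 + (-415/16) * z 1 0 0 + (129/4) * z 3 0 0 + 60 * z 5 0 0 = 0 := by
    have e := E01 3 0 1 (by norm_num)
    simp only [k0, k1, k2, btth0, btth1, btth2,
    Int.reduceAdd, Int.reduceSub, Int.reduceNeg, Int.cast_ofNat, Int.cast_one, Int.cast_zero] at e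
    linear_combination e + (-24) * g4_0_1 + 8 * g4_1_1 + 2 * g2_2_1 + (-2) * g3_2_0 + 2 * g3_0_2
  have c13 : (187/4) * z 0 1 0 + (35/2) * z 0 2 0 + (-96) * z 2 0 0 + 12 * z 0 3 0 + (-144) * z 4 0 0 = 0 := by
    have e := E01 1 1 2 (by norm_num)
    simp only [k0, k1, k2, btth0, btth1, btth2,
    Int.reduceAdd, Int.reduceSub, Int.reduceNeg, Int.cast_ofNat, Int.cast_one, Int.cast_zero] at e
    linear_combination e + (-12) * g2_1_2 + 6 * g3_1_1 + 8 * g2_2_2 + 6 * g0_3_2 + (-6) * g1_3_1 + 6 * g1_1_3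
  have c14 : (55/24) * z 0 1 0 + (11/4) * z 0 2 0 + (-44/3) * z 2 0 0 + (-4) * z 0 3 0 + (-18) * z 0 4 0 + 20 * z 0 5 0 = 0 := by
    have e := E01 0 3 1 (by norm_num)
    simp only [k0, k1, k2, btth0, btth1, btth2,
    Int.reduceAdd, Int.reduceSub, Int.reduceNeg, Int.cast_ofNat, Int.cast_one, Int.cast_zero] at e
    linear_combination e + (-9) * g1_3_1 + 2 * g2_3_0 + 8 * g1_4_1 + 8 * g0_3_2
  exact ⟨by linear_combination (-149/810) * c2 + (1/27) * c6 + (16/405) * c7,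
    by linear_combination (28/225) * c3 + (454/225) * c4 + (-112/225) * c8 + (64/225) * c10 + (-28/225) * c13,
    by linear_combination (1/18) * c2 + (-1/3) * c6 + (4/9) * c7,
    by linear_combination (4/225) * c3 + (-287/900) * c4 + (-16/225) * c8 + (-23/225) * c10 + (-4/225) * c13,
    by linear_combination (-112/225) * c3 + (-1591/225) * c4 + (448/225) * c8 + (-256/225) * c10 + (112/225) * c13,
    by linear_combination (-1/2) * c0 + (-86/225) * c3 + (-6317/900) * c4 + (344/225) * c8 + (-293/225) * c10 + (86/225) * c13,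
    by linear_combination (1019/4860) * c2 + (-13/162) * c6 + (89/2430) * c7,
    by linear_combination (-61/150) * c3 + (-574/75) * c4 + (172/75) * c8 + (-28/25) * c10 + (43/75) * c13,
    by linear_combination (-1/6) * c1 + (-26/1215) * c2 + (-4/81) * c6 + (98/1215) * c7,
    by linear_combination (-79/1200) * c3 + (-1133/1800) * c4 + (287/900) * c8 + (-16/225) * c10 + (131/1800) * c13,
    by linear_combination (-1817/3600) * c3 + (-8339/900) * c4 + (1171/450) * c8 + (1/12) * c9 + (-637/450) * c10 + (1171/1800) * c13,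
    by linear_combination (2/75) * c3 + (23/100) * c4 + (-1/12) * c5 + (-8/75) * c8 + (1/75) * c10 + (-2/75) * c13,
    by linear_combination (-2831/14400) * c2 + (41/480) * c6 + (-271/7200) * c7 + (1/60) * c12,
    by linear_combination (-16861/36000) * c3 + (-42131/4500) * c4 + (11393/4500) * c8 + (3/40) * c9 + (-6521/4500) * c10 + (11393/18000) * c13 + (1/20) * c14,
    by linear_combination (13/4050) * c2 + (1/135) * c6 + (-49/4050) * c7 + (-1/5) * c11⟩

end Pool.Agent.H85.KT
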