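import Mathlib

/-!
# Base certificate for the flat example (machine generated elimination)
-/

set_option linter.all false

namespace Pool.Agent.H85.KT

def bfth0 (z : ℤ → ℤ → ℤ → ℤ → ℂ) (a b c d : ℤ) : ℂ :=
  1 * (((a + 1 : ℤ) : ℂ) * z (a + 1) b c d) +
  (-2) * (((a + 1 : ℤ) : ℂ) * z (a + 1) (b - 1) c d) +
  1 * (((b + 1 : ℤ) : ℂ) * z (a - 1) (b + 1) c d) +
  (-1) * (((b + 1 : ℤ) : ℂ) * z a (b + 1) (c - 1) d) +
  1 * (((c + 1 : ℤ) : ℂ) * z a (b - 1) (c + 1) d)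

def bfth1 (z : ℤ → ℤ → ℤ → ℤ → ℂ) (a b c d : ℤ) : ℂ :=
  1 * (((a : ℤ) : ℂ) * z a b c d) +
  (-1) * (((a + 1 : ℤ) : ℂ) * z (a + 1) b (c - 1) d) +
  (-1) * (((b + 1 : ℤ) : ℂ) * z a (b + 1) c d) +
  (-1) * (((d + 1 : ℤ) : ℂ) * z a b (c - 1) (d + 1))

def bfth2 (z : ℤ → ℤ → ℤ → ℤ → ℂ) (a b c d : ℤ) : ℂ :=
  1 * (((a + 1 : ℤ) : ℂ) * z (a + 1) (b - 1) c d) +
  1 * (((d + 1 : ℤ) : ℂ) * z a (b - 1) c (d + 1))

def bfth3 (z : ℤ → ℤ → ℤ → ℤ → ℂ) (a b c d : ℤ) : ℂ :=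
  (-1) * (((b + 1 : ℤ) : ℂ) * z a (b + 1) (c - 1) d) +
  1 * (((c + 1 : ℤ) : ℂ) * z a (b - 1) (c + 1) d) +
  2 * (((d + 1 : ℤ) : ℂ) * z a b c (d + 1))

theorem bf_abs (z : ℤ → ℤ → ℤ → ℤ → ℂ)
    (h0 : ∀ a b c d : ℤ, a < 0 → z a b c d = 0)
    (h1 : ∀ a b c d : ℤ, b < 0 → z a b c d = 0)
    (h2 : ∀ a b c d : ℤ, c < 0 → z a b c d = 0)
    (h3 : ∀ a b c d : ℤ, d < 0 → z a b c d = 0)
    (E01 : ∀ a b c d : ℤ, a + b + c + d < 3 →
      ((a + 1 : ℤ) : ℂ) * bfth1 z (a + 1) b c d - ((b + 1 : ℤ) : ℂ) * bfth0 z a (b + 1) c d = 0)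
    (E02 : ∀ a b c d : ℤ, a + b + c + d < 3 →
      ((a + 1 : ℤ) : ℂ) * bfth2 z (a + 1) b c d - ((c + 1 : ℤ) : ℂ) * bfth0 z a b (c + 1) d = 0)
    (E03 : ∀ a b c d : ℤ, a + b + c + d < 3 →
      ((a + 1 : ℤ) : ℂ) * bfth3 z (a + 1) b c d - ((d + 1 : ℤ) : ℂ) * bfth0 z a b c (d + 1) = 0)
    (E12 : ∀ a b c d : ℤ, a + b + c + d < 3 →
      ((b + 1 : ℤ) : ℂ) * bfth2 z a (b + 1) c d - ((c + 1 : ℤ) : ℂ) * bfth1 z a b (c + 1) d = 0)
    (E13 : ∀ a b c d : ℤ, a + b + c + d < 3 →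
      ((b + 1 : ℤ) : ℂ) * bfth3 z a (b + 1) c d - ((d + 1 : ℤ) : ℂ) * bfth1 z a b c (d + 1) = 0)
    (E23 : ∀ a b c d : ℤ, a + b + c + d < 3 →
      ((c + 1 : ℤ) : ℂ) * bfth3 z a b (c + 1) d - ((d + 1 : ℤ) : ℂ) * bfth2 z a b c (d + 1) = 0) :
    z 1 0 0 0 = 0 ∧ z 0 1 0 0 = 0 ∧ z 0 0 1 0 = 0 ∧ z 0 0 0 1 = 0 ∧ z 2 0 0 0 = 0 ∧ z 0 2 0 0 = 0 ∧ z 0 0 2 0 = 0 ∧ z 0 0 0 2 = 0 ∧ z 3 0 0 0 = 0 ∧ z 0 3 0 0 = 0 ∧ z 0 0 3 0 = 0 ∧ z 0 0 0 3 = 0 := by
  have k0 : ∀ b c d : ℤ, z (-1) b c d = 0 := fun b c d => h0 (-1) b c d (by norm_num)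
  have k1 : ∀ a c d : ℤ, z a (-1) c d = 0 := fun a c d => h1 a (-1) c d (by norm_num)
  have k2 : ∀ a b d : ℤ, z a b (-1) d = 0 := fun a b d => h2 a b (-1) d (by norm_num)
  have k3 : ∀ a b c : ℤ, z a b c (-1) = 0 := fun a b c => h3 a b c (-1) (by norm_num)
  have g0_0_1_1 : z 0 0 1 1 = (1/2) * z 0 1 0 0 := by
    have e := E23 0 0 0 0 (by norm_num)
    simp only [k0, k1, k2, k3, bfth0, bfth1, bfth2, bfth3,
    Int.reduceAdd, Int.reduceSub, Int.reduceNeg, Int.cast_ofNat, Int.cast_one, Int.cast_zero] at e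
    linear_combination (1/2) * e
  have g0_1_0_1 : z 0 1 0 1 = (-1/3) * z 0 0 1 0 := by
    have e := E13 0 0 0 0 (by norm_num)
    simp only [k0, k1, k2, k3, bfth0, bfth1, bfth2, bfth3,
    Int.reduceAdd, Int.reduceSub, Int.reduceNeg, Int.cast_ofNat, Int.cast_one, Int.cast_zero] at e
    linear_combination (1/3) * e
  have g0_1_1_0 : z 0 1 1 0 = (-2) * z 0 0 0 1 + (-2) * z 1 0 0 0 := by
    have e := E12 0 0 0 0 (by norm_num)
    simp only [k0, k1, k2, k3, bfth0, bfth1, bfth2, bfth3,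
    Int.reduceAdd, Int.reduceSub, Int.reduceNeg, Int.cast_ofNat, Int.cast_one, Int.cast_zero] at e
    linear_combination 1 * e
  have g1_0_0_1 : z 1 0 0 1 = 0 := by
    have e := E03 0 0 0 0 (by norm_num)
    simp only [k0, k1, k2, k3, bfth0, bfth1, bfth2, bfth3,
    Int.reduceAdd, Int.reduceSub, Int.reduceNeg, Int.cast_ofNat, Int.cast_one, Int.cast_zero] at e
    linear_combination 1 * e
  have g1_0_1_0 : z 1 0 1 0 = 1 * z 0 1 0 0 := by
    have e := E02 0 0 0 0 (by norm_num)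
    simp only [k0, k1, k2, k3, bfth0, bfth1, bfth2, bfth3,
    Int.reduceAdd, Int.reduceSub, Int.reduceNeg, Int.cast_ofNat, Int.cast_one, Int.cast_zero] at e
    linear_combination (-1) * e
  have g1_1_0_0 : z 1 1 0 0 = (-1/2) * z 0 0 1 0 + (3/2) * z 1 0 0 0 := by
    have e := E01 0 0 0 0 (by norm_num)
    simp only [k0, k1, k2, k3, bfth0, bfth1, bfth2, bfth3,
    Int.reduceAdd, Int.reduceSub, Int.reduceNeg, Int.cast_ofNat, Int.cast_one, Int.cast_zero] at e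
    linear_combination (-1/2) * e
  have g0_0_1_2 : z 0 0 1 2 = (-1/12) * z 0 0 1 0 := by
    have e := E23 0 0 0 1 (by norm_num)
    simp only [k0, k1, k2, k3, bfth0, bfth1, bfth2, bfth3,
    Int.reduceAdd, Int.reduceSub, Int.reduceNeg, Int.cast_ofNat, Int.cast_one, Int.cast_zero] at e
    linear_combination (1/4) * e + (1/4) * g0_1_0_1
  have g0_0_2_1 : z 0 0 2 1 = (-1) * z 0 0 0 1 + (-1) * z 1 0 0 0 := by
    have e := E23 0 0 1 0 (by norm_num)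
    simp only [k0, k1, k2, k3, bfth0, bfth1, bfth2, bfth3,
    Int.reduceAdd, Int.reduceSub, Int.reduceNeg, Int.cast_ofNat, Int.cast_one, Int.cast_zero] at e
    linear_combination (1/4) * e + (1/2) * g0_1_1_0
  have g0_1_0_2 : z 0 1 0 2 = (-1/12) * z 0 1 0 0 := by
    have e := E13 0 0 0 1 (by norm_num)
    simp only [k0, k1, k2, k3, bfth0, bfth1, bfth2, bfth3,
    Int.reduceAdd, Int.reduceSub, Int.reduceNeg, Int.cast_ofNat, Int.cast_one, Int.cast_zero] at e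
    linear_combination (1/6) * e + (-1/6) * g0_0_1_1
  have g0_1_1_1 : z 0 1 1 1 = (-4) * z 0 0 0 2 := by
    have e := E12 0 0 0 1 (by norm_num)
    simp only [k0, k1, k2, k3, bfth0, bfth1, bfth2, bfth3,
    Int.reduceAdd, Int.reduceSub, Int.reduceNeg, Int.cast_ofNat, Int.cast_one, Int.cast_zero] at e
    linear_combination 1 * e + (-2) * g1_0_0_1
  have g0_1_2_0 : z 0 1 2 0 = (-9/4) * z 0 1 0 0 := by
    have e := E12 0 0 1 0 (by norm_num)
    simp only [k0, k1, k2, k3, bfth0, bfth1, bfth2, bfth3,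
    Int.reduceAdd, Int.reduceSub, Int.reduceNeg, Int.cast_ofNat, Int.cast_one, Int.cast_zero] at e
    linear_combination (1/2) * e + (-3/2) * g1_0_1_0 + (-3/2) * g0_0_1_1
  have g0_2_0_1 : z 0 2 0 1 = (2/3) * z 0 0 0 1 + (2/3) * z 1 0 0 0 := by
    have e := E13 0 1 0 0 (by norm_num)
    simp only [k0, k1, k2, k3, bfth0, bfth1, bfth2, bfth3,
    Int.reduceAdd, Int.reduceSub, Int.reduceNeg, Int.cast_ofNat, Int.cast_one, Int.cast_zero] at e
    linear_combination (1/6) * e + (-1/3) * g0_1_1_0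
  have g0_2_1_0 : z 0 2 1 0 = (5/4) * z 0 0 1 0 + (-9/4) * z 1 0 0 0 := by
    have e := E12 0 1 0 0 (by norm_num)
    simp only [k0, k1, k2, k3, bfth0, bfth1, bfth2, bfth3,
    Int.reduceAdd, Int.reduceSub, Int.reduceNeg, Int.cast_ofNat, Int.cast_one, Int.cast_zero] at e
    linear_combination (1/2) * e + (-3/2) * g1_1_0_0 + (-3/2) * g0_1_0_1
  have g1_0_0_2 : z 1 0 0 2 = 0 := by
    have e := E03 0 0 0 1 (by norm_num)
    simp only [k0, k1, k2, k3, bfth0, bfth1, bfth2, bfth3,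
    Int.reduceAdd, Int.reduceSub, Int.reduceNeg, Int.cast_ofNat, Int.cast_one, Int.cast_zero] at e
    linear_combination (1/2) * e
  have g1_0_1_1 : z 1 0 1 1 = (-1/3) * z 0 0 1 0 := by
    have e := E02 0 0 0 1 (by norm_num)
    simp only [k0, k1, k2, k3, bfth0, bfth1, bfth2, bfth3,
    Int.reduceAdd, Int.reduceSub, Int.reduceNeg, Int.cast_ofNat, Int.cast_one, Int.cast_zero] at e
    linear_combination (-1) * e + 1 * g0_1_0_1
  have g1_0_2_0 : z 1 0 2 0 = (-2) * z 0 0 0 1 + (-2) * z 1 0 0 0 := by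
    have e := E02 0 0 1 0 (by norm_num)
    simp only [k0, k1, k2, k3, bfth0, bfth1, bfth2, bfth3,
    Int.reduceAdd, Int.reduceSub, Int.reduceNeg, Int.cast_ofNat, Int.cast_one, Int.cast_zero] at e
    linear_combination (-1/2) * e + 1 * g0_1_1_0
  have g1_1_0_1 : z 1 1 0 1 = (-1/4) * z 0 1 0 0 := by
    have e := E01 0 0 0 1 (by norm_num)
    simp only [k0, k1, k2, k3, bfth0, bfth1, bfth2, bfth3,
    Int.reduceAdd, Int.reduceSub, Int.reduceNeg, Int.cast_ofNat, Int.cast_one, Int.cast_zero] at e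
    linear_combination (-1/2) * e + (3/2) * g1_0_0_1 + (-1/2) * g0_0_1_1
  have g1_1_1_0 : z 1 1 1 0 = 1 * z 0 1 0 0 + (-4) * z 2 0 0 0 := by
    have e := E12 1 0 0 0 (by norm_num)
    simp only [k0, k1, k2, k3, bfth0, bfth1, bfth2, bfth3,
    Int.reduceAdd, Int.reduceSub, Int.reduceNeg, Int.cast_ofNat, Int.cast_one, Int.cast_zero] at e
    linear_combination 1 * e + (-2) * g1_0_0_1 + 1 * g1_0_1_0
  have g1_2_0_0 : z 1 2 0 0 = 1 * z 0 0 0 1 + (-5/8) * z 0 0 1 0 + (23/8) * z 1 0 0 0 := by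
    have e := E01 0 1 0 0 (by norm_num)
    simp only [k0, k1, k2, k3, bfth0, bfth1, bfth2, bfth3,
    Int.reduceAdd, Int.reduceSub, Int.reduceNeg, Int.cast_ofNat, Int.cast_one, Int.cast_zero] at e
    linear_combination (-1/4) * e + (5/4) * g1_1_0_0 + (-1/2) * g0_1_1_0
  have g2_0_0_1 : z 2 0 0 1 = (-1/6) * z 0 0 1 0 := by
    have e := E03 1 0 0 0 (by norm_num)
    simp only [k0, k1, k2, k3, bfth0, bfth1, bfth2, bfth3,
    Int.reduceAdd, Int.reduceSub, Int.reduceNeg, Int.cast_ofNat, Int.cast_one, Int.cast_zero] at e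
    linear_combination (1/2) * e + (1/2) * g0_1_0_1
  have g2_0_1_0 : z 2 0 1 0 = 1 * z 0 0 0 1 + (-1/4) * z 0 0 1 0 + (7/4) * z 1 0 0 0 := by
    have e := E02 1 0 0 0 (by norm_num)
    simp only [k0, k1, k2, k3, bfth0, bfth1, bfth2, bfth3,
    Int.reduceAdd, Int.reduceSub, Int.reduceNeg, Int.cast_ofNat, Int.cast_one, Int.cast_zero] at e
    linear_combination (-1/2) * e + (-1/2) * g0_1_1_0 + (1/2) * g1_1_0_0
  have g2_1_0_0 : z 2 1 0 0 = (-1/4) * z 0 1 0 0 + (-1/2) * z 0 2 0 0 + 2 * z 2 0 0 0 := by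
    have e := E01 1 0 0 0 (by norm_num)
    simp only [k0, k1, k2, k3, bfth0, bfth1, bfth2, bfth3,
    Int.reduceAdd, Int.reduceSub, Int.reduceNeg, Int.cast_ofNat, Int.cast_one, Int.cast_zero] at e
    linear_combination (-1/4) * e + (-1/4) * g1_0_1_0
  have g0_1_1_2 : z 0 1 1 2 = (-6) * z 0 0 0 3 := by
    have e := E12 0 0 0 2 (by norm_num)
    simp only [k0, k1, k2, k3, bfth0, bfth1, bfth2, bfth3,
    Int.reduceAdd, Int.reduceSub, Int.reduceNeg, Int.cast_ofNat, Int.cast_one, Int.cast_zero] at e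
    linear_combination 1 * e + (-2) * g1_0_0_2
  have g0_1_2_1 : z 0 1 2 1 = (3/4) * z 0 0 1 0 := by
    have e := E12 0 0 1 1 (by norm_num)
    simp only [k0, k1, k2, k3, bfth0, bfth1, bfth2, bfth3,
    Int.reduceAdd, Int.reduceSub, Int.reduceNeg, Int.cast_ofNat, Int.cast_one, Int.cast_zero] at e
    linear_combination (1/2) * e + (-3/2) * g1_0_1_1 + (-3) * g0_0_1_2
  have g0_2_1_1 : z 0 2 1 1 = (5/8) * z 0 1 0 0 := by
    have e := E12 0 1 0 1 (by norm_num)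
    simp only [k0, k1, k2, k3, bfth0, bfth1, bfth2, bfth3,
    Int.reduceAdd, Int.reduceSub, Int.reduceNeg, Int.cast_ofNat, Int.cast_one, Int.cast_zero] at e
    linear_combination (1/2) * e + (-3/2) * g1_1_0_1 + (-3) * g0_1_0_2
  have g1_0_2_1 : z 1 0 2 1 = (-4) * z 0 0 0 2 := by
    have e := E02 0 0 1 1 (by norm_num)
    simp only [k0, k1, k2, k3, bfth0, bfth1, bfth2, bfth3,
    Int.reduceAdd, Int.reduceSub, Int.reduceNeg, Int.cast_ofNat, Int.cast_one, Int.cast_zero] at e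
    linear_combination (-1/2) * e + 1 * g0_1_1_1
  have g1_1_0_2 : z 1 1 0 2 = (1/24) * z 0 0 1 0 := by
    have e := E01 0 0 0 2 (by norm_num)
    simp only [k0, k1, k2, k3, bfth0, bfth1, bfth2, bfth3,
    Int.reduceAdd, Int.reduceSub, Int.reduceNeg, Int.cast_ofNat, Int.cast_one, Int.cast_zero] at e
    linear_combination (-1/2) * e + (3/2) * g1_0_0_2 + (-1/2) * g0_0_1_2
  have g1_1_1_1 : z 1 1 1 1 = (1/3) * z 0 0 1 0 := by
    have e := E12 1 0 0 1 (by norm_num)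
    simp only [k0, k1, k2, k3, bfth0, bfth1, bfth2, bfth3,
    Int.reduceAdd, Int.reduceSub, Int.reduceNeg, Int.cast_ofNat, Int.cast_one, Int.cast_zero] at e
    linear_combination 1 * e + (-4) * g2_0_0_1 + (-4) * g1_0_0_2 + 1 * g1_0_1_1
  have g2_0_1_1 : z 2 0 1 1 = (-1/8) * z 0 1 0 0 + 2 * z 0 0 0 2 := by
    have e := E02 1 0 0 1 (by norm_num)
    simp only [k0, k1, k2, k3, bfth0, bfth1, bfth2, bfth3,
    Int.reduceAdd, Int.reduceSub, Int.reduceNeg, Int.cast_ofNat, Int.cast_one, Int.cast_zero] at e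
    linear_combination (-1/2) * e + (-1/2) * g0_1_1_1 + (1/2) * g1_1_0_1
  have g2_1_1_0 : z 2 1 1 0 = 2 * z 0 0 0 1 + (-1/6) * z 0 0 1 0 + (7/2) * z 1 0 0 0 + (-6) * z 3 0 0 0 := by
    have e := E12 2 0 0 0 (by norm_num)
    simp only [k0, k1, k2, k3, bfth0, bfth1, bfth2, bfth3,
    Int.reduceAdd, Int.reduceSub, Int.reduceNeg, Int.cast_ofNat, Int.cast_one, Int.cast_zero] at e
    linear_combination 1 * e + (-2) * g2_0_0_1 + 2 * g2_0_1_0
  have c0 : (1/4) * z 0 1 0 0 = 0 := by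
    have e := E03 0 1 0 0 (by norm_num)
    simp only [k0, k1, k2, k3, bfth0, bfth1, bfth2, bfth3,
    Int.reduceAdd, Int.reduceSub, Int.reduceNeg, Int.cast_ofNat, Int.cast_one, Int.cast_zero] at e
    linear_combination e + (-1) * g1_0_1_0 + (-1) * g1_1_0_1 + (-2) * g1_0_0_1 + 1 * g0_0_1_1
  have c1 : (-1/6) * z 0 0 1 0 + (-3/2) * z 1 0 0 0 = 0 := by
    have e := E03 0 0 1 0 (by norm_num)
    simp only [k0, k1, k2, k3, bfth0, bfth1, bfth2, bfth3,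
    Int.reduceAdd, Int.reduceSub, Int.reduceNeg, Int.cast_ofNat, Int.cast_one, Int.cast_zero] at e
    linear_combination e + 1 * g1_1_0_0 + (-1) * g1_0_1_1 + (-1) * g0_1_0_1
  have c2 : (-10) * z 0 0 0 2 + 2 * z 0 0 2 0 + (-2) * z 0 2 0 0 = 0 := by
    have e := E13 0 0 1 0 (by norm_num)
    simp only [k0, k1, k2, k3, bfth0, bfth1, bfth2, bfth3,
    Int.reduceAdd, Int.reduceSub, Int.reduceNeg, Int.cast_ofNat, Int.cast_one, Int.cast_zero] at e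
    linear_combination e + (-3) * g0_1_1_1 + (-1) * g1_0_0_1
  have c3 : 1 * z 0 1 0 0 + (-2) * z 0 0 2 0 + 2 * z 0 2 0 0 + 6 * z 2 0 0 0 = 0 := by
    have e := E01 0 0 1 0 (by norm_num)
    simp only [k0, k1, k2, k3, bfth0, bfth1, bfth2, bfth3,
    Int.reduceAdd, Int.reduceSub, Int.reduceNeg, Int.cast_ofNat, Int.cast_one, Int.cast_zero] at e
    linear_combination e + (-3) * g1_0_1_0 + 2 * g1_1_1_0 + 1 * g1_0_0_1
  have c4 : (-1/12) * z 0 0 1 0 = 0 := by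
    have e := E03 0 1 0 1 (by norm_num)
    simp only [k0, k1, k2, k3, bfth0, bfth1, bfth2, bfth3,
    Int.reduceAdd, Int.reduceSub, Int.reduceNeg, Int.cast_ofNat, Int.cast_one, Int.cast_zero] at e
    linear_combination e + (-1) * g1_0_1_1 + (-2) * g1_1_0_2 + (-4) * g1_0_0_2 + 2 * g0_0_1_2
  have c5 : (-17/3) * z 0 1 0 0 + (-6) * z 0 3 0 0 = 0 := by
    have e := E13 0 1 1 0 (by norm_num)
    simp only [k0, k1, k2, k3, bfth0, bfth1, bfth2, bfth3,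
    Int.reduceAdd, Int.reduceSub, Int.reduceNeg, Int.cast_ofNat, Int.cast_one, Int.cast_zero] at e
    linear_combination e + (-4) * g0_1_2_0 + (-6) * g0_2_1_1 + (-1) * g1_1_0_1 + (-2) * g0_1_0_2
  have c6 : 8 * z 0 0 0 2 + 1 * z 0 2 0 0 + (-4) * z 2 0 0 0 = 0 := by
    have e := E03 1 0 1 0 (by norm_num)
    simp only [k0, k1, k2, k3, bfth0, bfth1, bfth2, bfth3,
    Int.reduceAdd, Int.reduceSub, Int.reduceNeg, Int.cast_ofNat, Int.cast_one, Int.cast_zero] at e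
    linear_combination e + 2 * g2_1_0_0 + (-2) * g2_0_1_1 + 1 * g0_1_1_1 + (-1) * g1_1_0_1
  have c7 : (-1) * z 0 1 0 0 + (-8) * z 0 0 0 2 + 4 * z 2 0 0 0 = 0 := by
    have e := E03 0 0 2 0 (by norm_num)
    simp only [k0, k1, k2, k3, bfth0, bfth1, bfth2, bfth3,
    Int.reduceAdd, Int.reduceSub, Int.reduceNeg, Int.cast_ofNat, Int.cast_one, Int.cast_zero] at e
    linear_combination e + 1 * g1_1_1_0 + (-1) * g1_0_2_1 + (-1) * g0_1_1_1
  have c8 : (-3/2) * z 0 0 1 0 + 9 * z 1 0 0 0 + 6 * z 0 0 3 0 = 0 := by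
    have e := E23 0 1 1 0 (by norm_num)
    simp only [k0, k1, k2, k3, bfth0, bfth1, bfth2, bfth3,
    Int.reduceAdd, Int.reduceSub, Int.reduceNeg, Int.cast_ofNat, Int.cast_one, Int.cast_zero] at e
    linear_combination e + 4 * g0_2_1_0 + (-4) * g0_1_2_1 + 1 * g1_0_1_1 + 2 * g0_0_1_2
  have c9 : (-6) * z 0 0 0 1 + (9/4) * z 0 0 1 0 + (-39/4) * z 1 0 0 0 = 0 := by
    have e := E13 1 0 1 0 (by norm_num)
    simp only [k0, k1, k2, k3, bfth0, bfth1, bfth2, bfth3,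
    Int.reduceAdd, Int.reduceSub, Int.reduceNeg, Int.cast_ofNat, Int.cast_one, Int.cast_zero] at e
    linear_combination e + 2 * g1_2_0_0 + (-2) * g1_0_2_0 + (-3) * g1_1_1_1 + 1 * g1_0_1_1 + (-2) * g2_0_0_1 + (-2) * g1_0_0_2
  have c10 : (-10/3) * z 0 0 0 1 + (-10/3) * z 1 0 0 0 + (-30) * z 0 0 0 3 = 0 := by
    have e := E13 0 0 1 1 (by norm_num)
    simp only [k0, k1, k2, k3, bfth0, bfth1, bfth2, bfth3,
    Int.reduceAdd, Int.reduceSub, Int.reduceNeg, Int.cast_ofNat, Int.cast_one, Int.cast_zero] at e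
    linear_combination e + 2 * g0_2_0_1 + (-2) * g0_0_2_1 + (-6) * g0_1_1_2 + (-2) * g1_0_0_2
  have c11 : 6 * z 0 0 0 1 + (-19/4) * z 0 0 1 0 + (57/4) * z 1 0 0 0 + 18 * z 3 0 0 0 = 0 := by
    have e := E01 1 0 1 0 (by norm_num)
    simp only [k0, k1, k2, k3, bfth0, bfth1, bfth2, bfth3,
    Int.reduceAdd, Int.reduceSub, Int.reduceNeg, Int.cast_ofNat, Int.cast_one, Int.cast_zero] at e
    linear_combination e + (-8) * g2_0_1_0 + 4 * g2_1_1_0 + 2 * g2_0_0_1 + 2 * g0_2_1_0 + (-2) * g1_2_0_0 + 2 * g1_0_2_0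
  exact ⟨by linear_combination (-2/3) * c1 + (4/3) * c4,
    by linear_combination 4 * c0,
    by linear_combination (-12) * c4,
    by linear_combination (13/12) * c1 + (-20/3) * c4 + (-1/6) * c9,
    by linear_combination (-9) * c0 + 1 * c2 + 1 * c3 + (-5/4) * c7,
    by linear_combination 4 * c0 + 1 * c6 + 1 * c7,
    by linear_combination (-21) * c0 + 3 * c2 + (5/2) * c3 + 1 * c6 + (-11/4) * c7,
    by linear_combination (-5) * c0 + (1/2) * c2 + (1/2) * c3 + (-3/4) * c7,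
    by linear_combination (1/6) * c1 + (-2) * c4 + (1/18) * c9 + (1/18) * c11,
    by linear_combination (-34/9) * c0 + (-1/6) * c5,
    by linear_combination 1 * c1 + (-5) * c4 + (1/6) * c8,
    by linear_combination (-5/108) * c1 + (16/27) * c4 + (1/54) * c9 + (-1/30) * c10⟩

end Pool.Agent.H85.KT
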