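import Mathlib

/-!
# Formal operator for conservation laws of Killing tensors

`Ord k p`: the polynomial `p` has no coefficient of degree `< k`.
`Form W B p i j`: the polynomial version of (a positive power of `w` times) the `(i,j)` component
of `d (K^* d p)`.
-/

namespace Pool.Agent.H85.KT

open MvPolynomial

section ord

variable {n : ℕ} {R S : Type*} [CommRing R] [CommRing S]

/-- `p` has no coefficient of degree `< k`. -/
def Ord (k : ℕ) (p : MvPolynomial (Fin n) R) : Prop :=
  ∀ m : Fin n →₀ ℕ, m.degree < k → coeff m p = 0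

lemma ord_zero (k : ℕ) : Ord k (0 : MvPolynomial (Fin n) R) := fun m _ => by simp

lemma ord_zero_left (p : MvPolynomial (Fin n) R) : Ord 0 p := fun m h => by
  exact absurd h (Nat.not_lt_zero _)

lemma Ord.mono {k l : ℕ} {p : MvPolynomial (Fin n) R} (h : Ord k p) (hl : l ≤ k) : Ord l p :=
  fun m hm => h m (lt_of_lt_of_le hm hl)

lemma Ord.add {k : ℕ} {p q : MvPolynomial (Fin n) R} (hp : Ord k p) (hq : Ord k q) :
    Ord k (p + q) := fun m hm => by rw [coeff_add, hp m hm, hq m hm, add_zero]

lemma Ord.sub {k : ℕ} {p q : MvPolynomial (Fin n) R} (hp : Ord k p) (hq : Ord k q) :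
    Ord k (p - q) := fun m hm => by rw [coeff_sub, hp m hm, hq m hm, sub_zero]

lemma Ord.neg {k : ℕ} {p : MvPolynomial (Fin n) R} (hp : Ord k p) :
    Ord k (-p) := fun m hm => by rw [coeff_neg, hp m hm, neg_zero]

lemma Ord.sum {ι : Type*} (s : Finset ι) {k : ℕ} {f : ι → MvPolynomial (Fin n) R}
    (h : ∀ i ∈ s, Ord k (f i)) : Ord k (∑ i ∈ s, f i) := fun m hm => by
  rw [coeff_sum]
  exact Finset.sum_eq_zero fun i hi => h i hi m hm

lemma Ord.mul {k l : ℕ} {p q : MvPolynomial (Fin n) R} (hp : Ord k p) (hq : Ord l q) :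
    Ord (k + l) (p * q) := fun m hm => by
  classical
  rw [coeff_mul]
  refine Finset.sum_eq_zero fun x hx => ?_
  rw [Finset.HasAntidiagonal.mem_antidiagonal] at hx
  have hd : x.1.degree + x.2.degree = m.degree := by rw [← map_add, hx]
  by_cases h : x.1.degree < k
  · rw [hp _ h, zero_mul]
  · rw [hq _ (by omega), mul_zero]

lemma Ord.mul_left {k : ℕ} (p : MvPolynomial (Fin n) R) {q : MvPolynomial (Fin n) R}
    (hq : Ord k q) : Ord k (p * q) := by
  simpa using (ord_zero_left p).mul hq

lemma Ord.mul_right {k : ℕ} {p : MvPolynomial (Fin n) R} (hp : Ord k p)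
    (q : MvPolynomial (Fin n) R) : Ord k (p * q) := by
  simpa using hp.mul (ord_zero_left q)

lemma Ord.pderiv {k : ℕ} {p : MvPolynomial (Fin n) R} (hp : Ord (k + 1) p) (i : Fin n) :
    Ord k (MvPolynomial.pderiv i p) := fun m hm => by
  rw [coeff_pderiv, hp, zero_mul]
  rw [map_add, Finsupp.degree_single]
  omega

lemma Ord.map {k : ℕ} {p : MvPolynomial (Fin n) R} (hp : Ord k p) (φ : R →+* S) :
    Ord k (MvPolynomial.map φ p) := fun m hm => by
  rw [coeff_map, hp m hm, map_zero]

lemma ord_X (i : Fin n) : Ord 1 (X i : MvPolynomial (Fin n) R) := fun m hm => by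
  classical
  have : m = 0 := by
    rw [← Finsupp.degree_eq_zero_iff]; omega
  subst this
  simp

lemma Ord.pow_X_lin {k : ℕ} {p : MvPolynomial (Fin n) R} (hp : Ord 1 p) : Ord k (p ^ k) := by
  induction k with
  | zero => exact ord_zero_left _
  | succ k ih => rw [pow_succ]; exact ih.mul hp

/-- `p` minus its constant term has no constant term. -/
lemma ord_sub_const (p : MvPolynomial (Fin n) R) : Ord 1 (p - C (coeff 0 p)) := fun m hm => by
  have : m = 0 := by
    rw [← Finsupp.degree_eq_zero_iff]; omega
  subst this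
  simp

end ord

section form

variable {n : ℕ} {R S : Type*} [CommRing R] [CommRing S]

/-- The `j`-th component of `B ∂p`. -/
noncomputable def Bd (B : Fin n → Fin n → MvPolynomial (Fin n) R) (p : MvPolynomial (Fin n) R)
    (j : Fin n) : MvPolynomial (Fin n) R :=
  ∑ s, B j s * pderiv s p

/-- The cleared form of the `(i,j)` component of `d (w⁻² B ∂p)`. -/
noncomputable def Form (W : MvPolynomial (Fin n) R) (B : Fin n → Fin n → MvPolynomial (Fin n) R)
    (p : MvPolynomial (Fin n) R) (i j : Fin n) : MvPolynomial (Fin n) R :=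
  W * (pderiv i (Bd B p j) - pderiv j (Bd B p i)) -
    2 * (pderiv i W * Bd B p j - pderiv j W * Bd B p i)

lemma Bd_add (B : Fin n → Fin n → MvPolynomial (Fin n) R) (p q : MvPolynomial (Fin n) R)
    (j : Fin n) : Bd B (p + q) j = Bd B p j + Bd B q j := by
  simp [Bd, mul_add, Finset.sum_add_distrib]

lemma Bd_C_mul (B : Fin n → Fin n → MvPolynomial (Fin n) R) (a : R) (p : MvPolynomial (Fin n) R)
    (j : Fin n) : Bd B (C a * p) j = C a * Bd B p j := by
  simp only [Bd, pderiv_C_mul, Finset.mul_sum]
  exact Finset.sum_congr rfl fun s _ => by ring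

lemma Form_add (W : MvPolynomial (Fin n) R) (B : Fin n → Fin n → MvPolynomial (Fin n) R)
    (p q : MvPolynomial (Fin n) R) (i j : Fin n) :
    Form W B (p + q) i j = Form W B p i j + Form W B q i j := by
  simp only [Form, Bd_add, map_add]; ring

lemma Form_C_mul (W : MvPolynomial (Fin n) R) (B : Fin n → Fin n → MvPolynomial (Fin n) R)
    (a : R) (p : MvPolynomial (Fin n) R) (i j : Fin n) :
    Form W B (C a * p) i j = C a * Form W B p i j := by
  simp only [Form, Bd_C_mul, pderiv_C_mul]; ring

lemma Form_zero (W : MvPolynomial (Fin n) R) (B : Fin n → Fin n → MvPolynomial (Fin n) R)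
    (i j : Fin n) : Form W B 0 i j = 0 := by
  have := Form_C_mul W B 0 0 i j
  simpa using this

lemma Form_sub (W : MvPolynomial (Fin n) R) (B : Fin n → Fin n → MvPolynomial (Fin n) R)
    (p q : MvPolynomial (Fin n) R) (i j : Fin n) :
    Form W B (p - q) i j = Form W B p i j - Form W B q i j := by
  have h1 := Form_C_mul W B (-1) q i j
  have h2 := Form_add W B p (C (-1) * q) i j
  rw [h1] at h2
  simp only [map_neg, map_one, neg_mul, one_mul] at h2
  rw [sub_eq_add_neg, h2, sub_eq_add_neg]

lemma Form_sum {ι : Type*} (s : Finset ι) (W : MvPolynomial (Fin n) R)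
    (B : Fin n → Fin n → MvPolynomial (Fin n) R)
    (f : ι → MvPolynomial (Fin n) R) (i j : Fin n) :
    Form W B (∑ a ∈ s, f a) i j = ∑ a ∈ s, Form W B (f a) i j := by
  classical
  induction s using Finset.induction_on with
  | empty => simp [Form_zero]
  | insert a s ha ih => rw [Finset.sum_insert ha, Finset.sum_insert ha, Form_add, ih]

lemma map_Bd (φ : R →+* S) (B : Fin n → Fin n → MvPolynomial (Fin n) R)
    (p : MvPolynomial (Fin n) R) (j : Fin n) :
    map φ (Bd B p j) = Bd (fun a b => map φ (B a b)) (map φ p) j := by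
  simp [Bd, map_sum, pderiv_map]

lemma map_Form (φ : R →+* S) (W : MvPolynomial (Fin n) R)
    (B : Fin n → Fin n → MvPolynomial (Fin n) R)
    (p : MvPolynomial (Fin n) R) (i j : Fin n) :
    map φ (Form W B p i j) = Form (map φ W) (fun a b => map φ (B a b)) (map φ p) i j := by
  simp only [Form, map_sub, map_mul, ← pderiv_map, map_Bd, map_ofNat]

/-- The truncated jet system (order `N`) has no non-zero solution whose pure `N`-th coefficients
vanish. -/
def Inj (N : ℕ) (W : MvPolynomial (Fin n) R) (B : Fin n → Fin n → MvPolynomial (Fin n) R) : Prop :=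
  ∀ p : MvPolynomial (Fin n) R,
    (∀ m, coeff m p ≠ 0 → 1 ≤ m.degree ∧ m.degree ≤ N) →
    (∀ i, coeff (Finsupp.single i N) p = 0) →
    (∀ i j, Ord (N - 1) (Form W B p i j)) → p = 0

end form

section semi

/-- A matrix with injective `mulVec` has an invertible square submatrix. -/
lemma exists_submatrix_det_ne_zero {ρ χ : Type*} [Fintype ρ] [Fintype χ] [DecidableEq χ]
    {K : Type*} [Field K] (A : Matrix ρ χ K) (h : ∀ v, A.mulVec v = 0 → v = 0) :
    ∃ f : χ → ρ, (A.submatrix f id).det ≠ 0 := by
  classical
  obtain ⟨κ, a, ha, hspan, hli⟩ := exists_linearIndependent' K (fun i : ρ => A i)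
  have htop : Submodule.span K (Set.range (fun i : ρ => A i)) = ⊤ := by
    by_contra hne
    obtain ⟨f, hf0, hf⟩ := Submodule.exists_le_ker_of_lt_top _ (lt_top_iff_ne_top.mpr hne)
    have hv : A.mulVec (fun j => f (Pi.single j 1)) = 0 := by
      funext i
      have h1 : f (A i) = 0 := hf (Submodule.subset_span ⟨i, rfl⟩)
      have h2 : A i = ∑ j, A i j • (Pi.single j (1 : K) : χ → K) := by
        funext k
        simp [Finset.sum_apply, Pi.single_apply]
      rw [h2, map_sum] at h1
      simp only [map_smul, smul_eq_mul] at h1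
      simpa [Matrix.mulVec, dotProduct] using h1
    have h3 := h _ hv
    apply hf0
    refine LinearMap.pi_ext' fun j => ?_
    ext
    simpa using congrFun h3 j
  have hfin : Finite κ := Finite.of_injective a ha
  have : Fintype κ := Fintype.ofFinite κ
  let b : Module.Basis κ K (χ → K) := Module.Basis.mk hli (by rw [hspan, htop])
  have hcard : Fintype.card κ = Fintype.card χ := by
    rw [← Module.finrank_eq_card_basis b, Module.finrank_fintype_fun_eq_card]
  let e : χ ≃ κ := Fintype.equivOfCardEq hcard.symm
  refine ⟨a ∘ e, ?_⟩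
  have hli2 : LinearIndependent K (A.submatrix (a ∘ e) id).row := by
    exact hli.comp e e.injective
  have := Matrix.linearIndependent_rows_iff_isUnit.mp hli2
  rw [Matrix.isUnit_iff_isUnit_det] at this
  exact this.ne_zero

variable {n : ℕ} {R : Type*} [CommRing R] {K : Type*} [Field K]

/-- Semicontinuity of `Inj`. -/
theorem inj_semicontinuous (N : ℕ) (W : MvPolynomial (Fin n) R)
    (B : Fin n → Fin n → MvPolynomial (Fin n) R) (φ₀ : R →+* K)
    (h : Inj N (map φ₀ W) (fun a b => map φ₀ (B a b))) :
    ∃ D : R, φ₀ D ≠ 0 ∧ ∀ φ : R →+* K, φ D ≠ 0 → Inj N (map φ W) (fun a b => map φ (B a b)) := by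
  classical
  let cs : Set (Fin n →₀ ℕ) := {m | 1 ≤ m.degree ∧ m.degree ≤ N ∧ ∀ i, m ≠ Finsupp.single i N}
  have hcs : cs.Finite := (Finsupp.finite_of_degree_le (σ := Fin n) N).subset fun m hm => hm.2.1
  let rs : Set (Fin n →₀ ℕ) := {m | m.degree < N - 1}
  have hrs : rs.Finite := (Finsupp.finite_of_degree_le (σ := Fin n) N).subset fun m hm => by
    have : m.degree < N - 1 := hm
    show m.degree ≤ N
    omega
  let _ : Fintype cs := hcs.fintype
  let _ : Fintype rs := hrs.fintype
  let A : Matrix ((Fin n × Fin n) × rs) cs R := fun r c =>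
    coeff r.2.1 (Form W B (monomial c.1 1) r.1.1 r.1.2)
  -- translation between matrix and `Inj`
  have key : ∀ φ : R →+* K, (∀ v, (A.map φ).mulVec v = 0 → v = 0) ↔
      Inj N (map φ W) (fun a b => map φ (B a b)) := by
    intro φ
    have hform : ∀ (v : cs → K) (i j : Fin n) (ν : Fin n →₀ ℕ),
        coeff ν (Form (map φ W) (fun a b => map φ (B a b))
          (∑ c : cs, C (v c) * monomial c.1 1) i j) =
        ∑ c : cs, φ (coeff ν (Form W B (monomial c.1 1) i j)) * v c := by
      intro v i j ν
      rw [Form_sum, coeff_sum]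
      refine Finset.sum_congr rfl fun c _ => ?_
      rw [Form_C_mul, coeff_C_mul]
      have : (monomial c.1 (1 : K)) = map φ (monomial c.1 (1 : R)) := by simp
      rw [this, ← map_Form, coeff_map, mul_comm]
    constructor
    · intro hA p hp1 hp2 hp3
      let v : cs → K := fun c => coeff c.1 p
      have hpv : p = ∑ c : cs, C (v c) * monomial c.1 1 := by
        ext m
        rw [coeff_sum]
        simp only [coeff_C_mul, coeff_monomial]
        by_cases hm : m ∈ cs
        · rw [Finset.sum_eq_single ⟨m, hm⟩]
          · simp [v]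
          · intro c _ hc
            rw [if_neg, mul_zero]
            intro h'; exact hc (Subtype.ext h')
          · intro h'; exact absurd (Finset.mem_univ _) h'
        · rw [Finset.sum_eq_zero]
          · by_contra hne
            obtain ⟨h1, h2⟩ := hp1 m hne
            apply hm
            refine ⟨h1, h2, fun i hi => hne ?_⟩
            rw [hi]; exact hp2 i
          · intro c _
            rw [if_neg, mul_zero]
            intro h'; exact hm (h' ▸ c.2)
      have hv : v = 0 := by
        apply hA
        funext r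
        obtain ⟨⟨i, j⟩, ν⟩ := r
        have := hp3 i j ν.1 ν.2
        rw [hpv, hform] at this
        exact this
      rw [hpv, hv]
      simp
    · intro hI v hv
      have h0 := hI (∑ c : cs, C (v c) * monomial c.1 1) ?_ ?_ ?_
      · funext c
        have := congrArg (coeff c.1) h0
        rw [coeff_sum] at this
        simp only [coeff_C_mul, coeff_monomial, coeff_zero] at this
        rw [Finset.sum_eq_single c] at this
        · simpa using this
        · intro d _ hd
          rw [if_neg, mul_zero]
          intro h'; exact hd (Subtype.ext h')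
        · intro h'; exact absurd (Finset.mem_univ _) h'
      · intro m hm
        rw [coeff_sum] at hm
        obtain ⟨c, _, hc⟩ := Finset.exists_ne_zero_of_sum_ne_zero hm
        rw [coeff_C_mul, coeff_monomial] at hc
        have : c.1 = m := by
          by_contra h'
          rw [if_neg h', mul_zero] at hc
          exact hc rfl
        rw [← this]
        exact ⟨c.2.1, c.2.2.1⟩
      · intro i
        rw [coeff_sum]
        refine Finset.sum_eq_zero fun c _ => ?_
        rw [coeff_C_mul, coeff_monomial, if_neg (c.2.2.2 i), mul_zero]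
      · intro i j ν hν
        rw [hform]
        exact congrFun hv ((i, j), ⟨ν, hν⟩)
  obtain ⟨f, hf⟩ := exists_submatrix_det_ne_zero (A.map φ₀) ((key φ₀).mpr h)
  have hdet : ∀ φ : R →+* K, φ ((A.submatrix f id).det) = ((A.map φ).submatrix f id).det := by
    intro φ
    rw [RingHom.map_det]
    rfl
  refine ⟨(A.submatrix f id).det, by rw [hdet]; exact hf, fun φ hφ => ?_⟩
  rw [← key φ]
  intro v hv
  rw [hdet] at hφ
  have hv2 : ((A.map φ).submatrix f id).mulVec v = 0 := by
    funext c
    have := congrFun hv (f c)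
    simpa [Matrix.mulVec, dotProduct] using this
  by_contra hne
  exact hφ (Matrix.exists_mulVec_eq_zero_iff.mp ⟨v, hne, hv2⟩)

end semi

end Pool.Agent.H85.KT
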