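import Mathlib
import Pool.Agent.H85.KTForm

/-!
# The Beltrami model of a metric of constant curvature

Polynomial data of the metric, its Killing vector fields and quadratic expressions in them, over a
commutative ring, and the behaviour under scalings.
-/

namespace Pool.Agent.H85.KT

open MvPolynomial

/-- Indices of the Killing vector fields: translations `inl k`, rotations `inr (k, l)`. -/
abbrev KI (n : ℕ) := Fin n ⊕ (Fin n × Fin n)

section defs

variable {n : ℕ} {R S : Type*} [CommRing R] [CommRing S]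

/-- `w = 1 + κ ∑ ηᵢ xᵢ²`. -/
noncomputable def Wp (η : Fin n → R) (κ : R) : MvPolynomial (Fin n) R :=
  1 + C κ * ∑ i, C (η i) * X i ^ 2

/-- Components of the Killing vector fields. -/
noncomputable def Kp (η : Fin n → R) (κ : R) : KI n → Fin n → MvPolynomial (Fin n) R
  | Sum.inl k, i => (if i = k then 1 else 0) + C (κ * η k) * (X k * X i)
  | Sum.inr (k, l), i => (if i = l then C (η k) * X k else 0) - (if i = k then C (η l) * X l else 0)

/-- The quadratic expression in the Killing fields with coefficients `c`. -/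
noncomputable def Kup (η : Fin n → R) (κ : R) (c : KI n → KI n → R) (i j : Fin n) :
    MvPolynomial (Fin n) R :=
  ∑ a, ∑ b, C (c a b) * (Kp η κ a i * Kp η κ b j + Kp η κ a j * Kp η κ b i)

/-- `w²` times the metric. -/
noncomputable def Gp (η : Fin n → R) (κ : R) (j i : Fin n) : MvPolynomial (Fin n) R :=
  (if j = i then Wp η κ * C (η j) else 0) - C (κ * η i * η j) * (X i * X j)

/-- `w²` times the `(1,1)`-tensor `Kˢⱼ`. -/
noncomputable def Bp (η : Fin n → R) (κ : R) (c : KI n → KI n → R) (j s : Fin n) :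
    MvPolynomial (Fin n) R :=
  ∑ i, Gp η κ j i * Kup η κ c i s

lemma map_Wp (φ : R →+* S) (η : Fin n → R) (κ : R) :
    map φ (Wp η κ) = Wp (fun i => φ (η i)) (φ κ) := by
  simp [Wp, map_sum]

lemma map_Kp (φ : R →+* S) (η : Fin n → R) (κ : R) (a : KI n) (i : Fin n) :
    map φ (Kp η κ a i) = Kp (fun i => φ (η i)) (φ κ) a i := by
  rcases a with k | ⟨k, l⟩
  · by_cases h : i = k <;> simp [Kp, h]
  · by_cases h : i = k <;> by_cases h' : i = l <;> simp [Kp, h, h'] <;> split_ifs <;> simp

lemma map_Kup (φ : R →+* S) (η : Fin n → R) (κ : R) (c : KI n → KI n → R) (i j : Fin n) :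
    map φ (Kup η κ c i j) = Kup (fun i => φ (η i)) (φ κ) (fun a b => φ (c a b)) i j := by
  simp only [Kup, map_sum, map_mul, map_add, map_C, map_Kp]

lemma map_Gp (φ : R →+* S) (η : Fin n → R) (κ : R) (i j : Fin n) :
    map φ (Gp η κ i j) = Gp (fun i => φ (η i)) (φ κ) i j := by
  by_cases h : i = j <;> simp [Gp, h, map_Wp]

lemma map_Bp (φ : R →+* S) (η : Fin n → R) (κ : R) (c : KI n → KI n → R) (j s : Fin n) :
    map φ (Bp η κ c j s) = Bp (fun i => φ (η i)) (φ κ) (fun a b => φ (c a b)) j s := by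
  simp only [Bp, map_sum, map_mul, map_Gp, map_Kup]

/-- Translation of polynomials. -/
noncomputable def tr (y : Fin n → R) : MvPolynomial (Fin n) R →ₐ[R] MvPolynomial (Fin n) R :=
  aeval (fun i => X i + C (y i))

lemma tr_X (y : Fin n → R) (i : Fin n) : tr y (X i) = X i + C (y i) := by simp [tr]

lemma tr_C (y : Fin n → R) (a : R) : tr y (C a) = C a := by simp [tr]

lemma map_tr (φ : R →+* S) (y : Fin n → R) (p : MvPolynomial (Fin n) R) :
    map φ (tr y p) = tr (fun i => φ (y i)) (map φ p) := by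
  induction p using MvPolynomial.induction_on with
  | C a => simp only [tr_C, map_C]
  | add p q hp hq => simp only [map_add, hp, hq]
  | mul_X p i hp => simp only [map_mul, hp, tr_X, map_add, map_X, map_C]

lemma tr_zero (p : MvPolynomial (Fin n) R) : tr (fun _ => (0 : R)) p = p := by
  simp [tr, map_zero, add_zero]

lemma coeff_zero_tr (y : Fin n → R) (p : MvPolynomial (Fin n) R) :
    coeff 0 (tr y p) = eval y p := by
  induction p using MvPolynomial.induction_on with
  | C a => simp [tr]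
  | add p q hp hq => simp only [map_add, coeff_add, hp, hq]
  | mul_X p i hp =>
    rw [map_mul, map_mul, eval_X, ← hp]
    have h : tr y (X i : MvPolynomial (Fin n) R) = X i + C (y i) := by simp [tr]
    rw [h, mul_add, coeff_add, mul_comm _ (C (y i)), coeff_C_mul]
    have h2 : coeff 0 (tr y p * X i) = 0 := by
      rw [← constantCoeff_eq, map_mul, constantCoeff_X, mul_zero]
    rw [h2, zero_add, mul_comm]

lemma pderiv_tr (y : Fin n → R) (p : MvPolynomial (Fin n) R) (i : Fin n) :
    pderiv i (tr y p) = tr y (pderiv i p) := by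
  induction p using MvPolynomial.induction_on with
  | C a => simp [tr]
  | add p q hp hq => simp only [map_add, hp, hq]
  | mul_X p j hp =>
    have h : ∀ k, tr y (X k : MvPolynomial (Fin n) R) = X k + C (y k) := by intro k; simp [tr]
    rw [map_mul, Derivation.leibniz, Derivation.leibniz, h]
    simp only [map_add, pderiv_C, add_zero, smul_eq_mul, map_mul, hp, h]
    by_cases hij : j = i
    · subst hij; simp
    · rw [pderiv_X_of_ne hij]; simp

end defs

section scale

variable {n : ℕ} {K : Type*} [Field K]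

/-- Scaling of the variables. -/
noncomputable def sc (t : Fin n → K) : MvPolynomial (Fin n) K →ₐ[K] MvPolynomial (Fin n) K :=
  aeval (fun i => C (t i) * X i)

lemma sc_X (t : Fin n → K) (i : Fin n) : sc t (X i) = C (t i) * X i := by simp [sc]

lemma sc_C (t : Fin n → K) (a : K) : sc t (C a) = C a := by simp [sc]

lemma sc_monomial (t : Fin n → K) (m : Fin n →₀ ℕ) (a : K) :
    sc t (monomial m a) = monomial m (a * m.prod fun i k => t i ^ k) := by
  rw [sc, aeval_monomial]
  rw [MvPolynomial.monomial_eq, C_mul, algebraMap_eq, mul_assoc]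
  congr 1
  simp only [mul_pow, Finsupp.prod, Finset.prod_mul_distrib, map_prod, map_pow]

lemma coeff_sc (t : Fin n → K) (p : MvPolynomial (Fin n) K) (m : Fin n →₀ ℕ) :
    coeff m (sc t p) = coeff m p * m.prod fun i k => t i ^ k := by
  classical
  induction p using MvPolynomial.induction_on' with
  | monomial u a =>
    rw [sc_monomial, coeff_monomial, coeff_monomial]
    split_ifs with h
    · rw [h]
    · rw [zero_mul]
  | add p q hp hq => rw [map_add, coeff_add, hp, hq, coeff_add, add_mul]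

lemma pderiv_sc (t : Fin n → K) (p : MvPolynomial (Fin n) K) (i : Fin n) :
    pderiv i (sc t p) = C (t i) * sc t (pderiv i p) := by
  induction p using MvPolynomial.induction_on with
  | C a => simp [sc_C]
  | add p q hp hq => simp only [map_add, hp, hq, mul_add]
  | mul_X p j hp =>
    rw [map_mul, Derivation.leibniz, Derivation.leibniz, sc_X]
    simp only [smul_eq_mul, map_add, map_mul, hp, sc_X, pderiv_C_mul]
    by_cases hij : j = i
    · subst hij; simp; ring
    · rw [pderiv_X_of_ne hij]; simp; ring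

lemma Ord.sc {k : ℕ} {p : MvPolynomial (Fin n) K} (hp : Ord k p) (t : Fin n → K) :
    Ord k (sc t p) := fun m hm => by rw [coeff_sc, hp m hm, zero_mul]

/-- Scaling factor of the Killing fields. -/
def tau (t : Fin n → K) (l : K) : KI n → K
  | Sum.inl k => (t k)⁻¹
  | Sum.inr (k, m) => l⁻¹ * (t k)⁻¹ * (t m)⁻¹

lemma tau_ne_zero {t : Fin n → K} {l : K} (ht : ∀ i, t i ≠ 0) (hl : l ≠ 0) (a : KI n) :
    tau t l a ≠ 0 := by
  rcases a with k | ⟨k, m⟩ <;> simp [tau, ht, hl]

variable {η η' : Fin n → K} {κ κ' l : K} {t : Fin n → K} {c c' : KI n → KI n → K}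

lemma sc_Wp (hη : ∀ i, η i = l * η' i * t i ^ 2) (hκ : κ' = l * κ) :
    sc t (Wp η' κ') = Wp η κ := by
  have h : ∀ i, sc t (C (η' i) * X i ^ 2) = C (η' i * t i ^ 2) * X i ^ 2 := by
    intro i
    rw [map_mul, sc_C, map_pow, sc_X, mul_pow, ← mul_assoc, ← C_pow, ← C_mul]
  unfold Wp
  rw [map_add, map_one, map_mul, sc_C, map_sum, Finset.mul_sum, Finset.mul_sum]
  refine congrArg (fun z => 1 + z) (Finset.sum_congr rfl fun i _ => ?_)
  rw [h, ← mul_assoc, ← mul_assoc, ← C_mul, ← C_mul, hη, hκ]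
  congr 2
  ring

lemma sc_Kp (ht : ∀ i, t i ≠ 0) (hl : l ≠ 0) (hη : ∀ i, η i = l * η' i * t i ^ 2)
    (hκ : κ' = l * κ) (a : KI n) (i : Fin n) :
    sc t (Kp η' κ' a i) = C (t i * tau t l a) * Kp η κ a i := by
  rcases a with k | ⟨k, m⟩
  · have e0 : sc t (if i = k then (1 : MvPolynomial (Fin n) K) else 0) =
        C (t i * (t k)⁻¹) * (if i = k then 1 else 0) := by
      by_cases h : i = k
      · subst h
        rw [if_pos rfl, map_one, mul_inv_cancel₀ (ht i), C_1, mul_one]
      · rw [if_neg h, map_zero, mul_zero]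
    have e1 : sc t (C (κ' * η' k) * (X k * X i)) =
        C (t i * (t k)⁻¹) * (C (κ * η k) * (X k * X i)) := by
      have h1 : sc t (C (κ' * η' k) * (X k * X i)) = C (κ' * η' k * (t k * t i)) * (X k * X i) := by
        rw [map_mul (sc t), map_mul (sc t), sc_C, sc_X, sc_X,
          C_mul (a := κ' * η' k), C_mul (a := t k)]
        ring
      rw [h1, ← mul_assoc (C _) (C _), ← C_mul]
      congr 2
      rw [hκ, hη]
      field_simp [ht k]
    simp only [Kp, tau]
    rw [map_add, e0, e1, mul_add]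
  · have e1 : (sc t) (if i = m then C (η' k) * X k else 0) =
        C (t i * (l⁻¹ * (t k)⁻¹ * (t m)⁻¹)) * (if i = m then C (η k) * X k else 0) := by
      by_cases h : i = m
      · subst h
        rw [if_pos rfl, if_pos rfl, map_mul, sc_C, sc_X, ← mul_assoc, ← C_mul, ← mul_assoc,
          ← C_mul]
        congr 2
        have := ht i
        have := ht k
        rw [hη]
        field_simp
      · simp [h]
    have e2 : (sc t) (if i = k then C (η' m) * X m else 0) =
        C (t i * (l⁻¹ * (t k)⁻¹ * (t m)⁻¹)) * (if i = k then C (η m) * X m else 0) := by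
      by_cases h : i = k
      · subst h
        rw [if_pos rfl, if_pos rfl, map_mul, sc_C, sc_X, ← mul_assoc, ← C_mul, ← mul_assoc,
          ← C_mul]
        congr 2
        have := ht i
        have := ht m
        rw [hη]
        field_simp
      · simp [h]
    simp only [Kp, tau]
    rw [map_sub, e1, e2, mul_sub]

lemma sc_Gp (hη : ∀ i, η i = l * η' i * t i ^ 2)
    (hκ : κ' = l * κ) (j i : Fin n) :
    C (l * t j * t i) * sc t (Gp η' κ' j i) = Gp η κ j i := by
  simp only [Gp, map_sub, mul_sub]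
  congr 1
  · by_cases h : j = i
    · subst h
      simp only [if_true, map_mul, sc_Wp hη hκ, sc_C, hη, map_pow]
      ring
    · simp [h]
  · simp only [map_mul, sc_C, sc_X, hη, hκ, map_pow]
    ring

lemma sc_Kup (ht : ∀ i, t i ≠ 0) (hl : l ≠ 0) (hη : ∀ i, η i = l * η' i * t i ^ 2)
    (hκ : κ' = l * κ) (hc : ∀ a b, c a b = c' a b * tau t l a * tau t l b) (i j : Fin n) :
    sc t (Kup η' κ' c' i j) = C (t i * t j) * Kup η κ c i j := by
  simp only [Kup, map_sum, map_mul, map_add, sc_C, sc_Kp ht hl hη hκ, Finset.mul_sum, hc]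
  refine Finset.sum_congr rfl fun a _ => Finset.sum_congr rfl fun b _ => ?_
  ring

lemma sc_Bp (ht : ∀ i, t i ≠ 0) (hl : l ≠ 0) (hη : ∀ i, η i = l * η' i * t i ^ 2)
    (hκ : κ' = l * κ) (hc : ∀ a b, c a b = c' a b * tau t l a * tau t l b) (j s : Fin n) :
    C (l * t j) * sc t (Bp η' κ' c' j s) = C (t s) * Bp η κ c j s := by
  simp only [Bp, map_sum, map_mul, Finset.mul_sum, sc_Kup ht hl hη hκ hc,
    ← sc_Gp hη hκ j]
  refine Finset.sum_congr rfl fun i _ => ?_
  ring

lemma sc_Bd (ht : ∀ i, t i ≠ 0) (hl : l ≠ 0) (hη : ∀ i, η i = l * η' i * t i ^ 2)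
    (hκ : κ' = l * κ) (hc : ∀ a b, c a b = c' a b * tau t l a * tau t l b)
    (p : MvPolynomial (Fin n) K) (j : Fin n) :
    C (l * t j) * sc t (Bd (Bp η' κ' c') p j) = Bd (Bp η κ c) (sc t p) j := by
  simp only [Bd, map_sum, Finset.mul_sum]
  refine Finset.sum_congr rfl fun s _ => ?_
  have h := sc_Bp (c := c) (c' := c') ht hl hη hκ hc j s
  rw [pderiv_sc, map_mul (sc t), ← mul_assoc, h]
  ring

lemma sc_Form (ht : ∀ i, t i ≠ 0) (hl : l ≠ 0) (hη : ∀ i, η i = l * η' i * t i ^ 2)
    (hκ : κ' = l * κ) (hc : ∀ a b, c a b = c' a b * tau t l a * tau t l b)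
    (p : MvPolynomial (Fin n) K) (i j : Fin n) :
    C (l * t i * t j) * sc t (Form (Wp η' κ') (Bp η' κ' c') p i j) =
      Form (Wp η κ) (Bp η κ c) (sc t p) i j := by
  have hB := sc_Bd (c := c) (c' := c') ht hl hη hκ hc p
  have hd : ∀ a b, pderiv a (Bd (Bp η κ c) (sc t p) b) =
      C (l * t b * t a) * sc t (pderiv a (Bd (Bp η' κ' c') p b)) := by
    intro a b
    rw [← hB, pderiv_C_mul, pderiv_sc, ← mul_assoc, ← C_mul]
  have hW : ∀ a, pderiv a (Wp η κ) = C (t a) * sc t (pderiv a (Wp η' κ')) := by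
    intro a
    rw [← pderiv_sc, sc_Wp hη hκ]
  unfold Form
  rw [hd i j, hd j i, hW i, hW j, ← hB i, ← hB j]
  simp only [map_sub (sc t), map_mul (sc t), map_ofNat (sc t), sc_Wp hη hκ, C_mul]
  ring

theorem Inj.scale {N : ℕ} (ht : ∀ i, t i ≠ 0) (hl : l ≠ 0)
    (hη : ∀ i, η i = l * η' i * t i ^ 2)
    (hκ : κ' = l * κ) (hc : ∀ a b, c a b = c' a b * tau t l a * tau t l b)
    (h : Inj N (Wp η κ) (Bp η κ c)) : Inj N (Wp η' κ') (Bp η' κ' c') := by
  intro p hp1 hp2 hp3
  have h0 : sc t p = 0 := by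
    apply h
    · intro m hm
      rw [coeff_sc] at hm
      exact hp1 m (left_ne_zero_of_mul hm)
    · intro i
      rw [coeff_sc, hp2, zero_mul]
    · intro i j
      rw [← sc_Form ht hl hη hκ hc]
      exact (Ord.sc (hp3 i j) t).mul_left _
  ext m
  have := congrArg (coeff m) h0
  rw [coeff_sc, coeff_zero] at this
  rw [coeff_zero]
  refine (mul_eq_zero.mp this).resolve_right ?_
  rw [Finsupp.prod]
  exact Finset.prod_ne_zero_iff.mpr fun i _ => pow_ne_zero _ (ht i)

end scale

section deform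

/-- From one flat example (over `ℂ`) to all constant curvature metrics (over `ℂ`). -/
theorem exists_inj_of_flat {n : ℕ} {N : ℕ} (c₀ : KI n → KI n → ℂ)
    (h : Inj N (Wp (fun _ => (1 : ℂ)) 0) (Bp (fun _ => (1 : ℂ)) 0 c₀))
    (η : Fin n → ℂ) (hη : ∀ i, η i ≠ 0) (κ : ℂ) :
    ∃ c : KI n → KI n → ℂ, Inj N (Wp η κ) (Bp η κ c) := by
  classical
  -- deformation in the curvature
  obtain ⟨D, hD0, hD⟩ := inj_semicontinuous (R := Polynomial ℂ) (K := ℂ) N
    (Wp (fun _ => 1) Polynomial.X)
    (Bp (fun _ => 1) Polynomial.X (fun a b => Polynomial.C (c₀ a b)))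
    (Polynomial.evalRingHom 0) (by
      simp only [map_Wp, map_Bp]
      simpa using h)
  have hmap : ∀ z : ℂ, Polynomial.eval z D ≠ 0 →
      Inj N (Wp (fun _ => (1 : ℂ)) z) (Bp (fun _ => (1 : ℂ)) z c₀) := by
    intro z hz
    have := hD (Polynomial.evalRingHom z) hz
    simp only [map_Wp, map_Bp] at this
    simpa using this
  have hscale : ∀ (κ₁ l : ℂ), l ≠ 0 → κ = l * κ₁ →
      Inj N (Wp (fun _ => (1 : ℂ)) κ₁) (Bp (fun _ => (1 : ℂ)) κ₁ c₀) →
      ∃ c : KI n → KI n → ℂ, Inj N (Wp η κ) (Bp η κ c) := by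
    intro κ₁ l hl hκ hI
    have hsq : ∀ i, ∃ t : ℂ, 1 = l * η i * t ^ 2 := by
      intro i
      obtain ⟨z, hz⟩ := IsAlgClosed.exists_pow_nat_eq ((l * η i)⁻¹) (n := 2) (by norm_num)
      exact ⟨z, by rw [hz, mul_inv_cancel₀ (mul_ne_zero hl (hη i))]⟩
    choose t ht using hsq
    have ht0 : ∀ i, t i ≠ 0 := by
      intro i h0
      have := ht i
      rw [h0] at this
      simp at this
    refine ⟨fun a b => c₀ a b * (tau t l a)⁻¹ * (tau t l b)⁻¹, ?_⟩
    refine Inj.scale ht0 hl ht hκ ?_ hI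
    intro a b
    have ha := tau_ne_zero ht0 hl a
    have hb := tau_ne_zero ht0 hl b
    field_simp
  by_cases hκ0 : κ = 0
  · refine hscale 0 1 one_ne_zero (by simp [hκ0]) h
  · have hDne : D ≠ 0 := by
      rintro rfl
      simp at hD0
    obtain ⟨z, hz⟩ : ∃ z : ℂ, Polynomial.eval z (D * Polynomial.X) ≠ 0 := by
      by_contra hall
      push Not at hall
      exact mul_ne_zero hDne Polynomial.X_ne_zero (Polynomial.funext (fun r => by simpa using hall r))
    rw [Polynomial.eval_mul, Polynomial.eval_X] at hz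
    have hz1 := left_ne_zero_of_mul hz
    have hz2 : z ≠ 0 := right_ne_zero_of_mul hz
    exact hscale z (κ / z) (div_ne_zero hκ0 hz2) (by field_simp) (hmap z hz1)

end deform

end Pool.Agent.H85.KT
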