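import Mathlib
import Pool.Agent.H85.KTModel
import Pool.Agent.H85.KTCert3
import Pool.Agent.H85.KTCert4

/-!
# Flat examples in every dimension `n ≥ 3`
-/

set_option linter.unusedSimpArgs false

namespace Pool.Agent.H85.KT

open MvPolynomial

section cz

variable {n : ℕ}

/-- Coefficients indexed by integer vectors. -/
noncomputable def cz (q : MvPolynomial (Fin n) ℂ) (μ : Fin n → ℤ) : ℂ := by
  classical
  exact if ∀ i, 0 ≤ μ i then coeff (Finsupp.equivFunOnFinite.symm (fun i => (μ i).toNat)) q else 0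

lemma cz_of_neg (q : MvPolynomial (Fin n) ℂ) {μ : Fin n → ℤ} {i : Fin n} (h : μ i < 0) :
    cz q μ = 0 := by
  unfold cz
  rw [if_neg]
  intro h'
  exact absurd (h' i) (not_le.mpr h)

lemma cz_of_nonneg (q : MvPolynomial (Fin n) ℂ) {μ : Fin n → ℤ} (h : ∀ i, 0 ≤ μ i) :
    cz q μ = coeff (Finsupp.equivFunOnFinite.symm (fun i => (μ i).toNat)) q := by
  unfold cz
  rw [if_pos h]

lemma cz_add (p q : MvPolynomial (Fin n) ℂ) (μ : Fin n → ℤ) : cz (p + q) μ = cz p μ + cz q μ := by
  by_cases h : ∀ i, 0 ≤ μ i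
  · simp only [cz_of_nonneg _ h, coeff_add]
  · push Not at h
    obtain ⟨i, hi⟩ := h
    simp only [cz_of_neg _ hi, add_zero]

lemma cz_sub (p q : MvPolynomial (Fin n) ℂ) (μ : Fin n → ℤ) : cz (p - q) μ = cz p μ - cz q μ := by
  by_cases h : ∀ i, 0 ≤ μ i
  · simp only [cz_of_nonneg _ h, coeff_sub]
  · push Not at h
    obtain ⟨i, hi⟩ := h
    simp only [cz_of_neg _ hi, sub_zero]

lemma cz_C_mul (a : ℂ) (q : MvPolynomial (Fin n) ℂ) (μ : Fin n → ℤ) :
    cz (C a * q) μ = a * cz q μ := by
  by_cases h : ∀ i, 0 ≤ μ i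
  · simp only [cz_of_nonneg _ h, coeff_C_mul]
  · push Not at h
    obtain ⟨i, hi⟩ := h
    simp only [cz_of_neg _ hi, mul_zero]

lemma cz_pderiv (i : Fin n) (q : MvPolynomial (Fin n) ℂ) (μ : Fin n → ℤ) :
    cz (pderiv i q) μ = ((μ i + 1 : ℤ) : ℂ) * cz q (μ + Pi.single i 1) := by
  by_cases h : ∀ j, 0 ≤ μ j
  · have h' : ∀ j, 0 ≤ (μ + (Pi.single i 1 : Fin n → ℤ)) j := by
      intro j
      rw [Pi.add_apply, Pi.single_apply]
      have := h j
      split_ifs <;> omega
    rw [cz_of_nonneg _ h, cz_of_nonneg _ h', coeff_pderiv, mul_comm]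
    congr 1
    · have h1 : (((μ i).toNat : ℤ)) = μ i := Int.toNat_of_nonneg (h i)
      have h2 : ((Finsupp.equivFunOnFinite.symm (fun i => (μ i).toNat) : Fin n →₀ ℕ) i : ℂ) =
          ((μ i : ℤ) : ℂ) := by
        rw [Finsupp.equivFunOnFinite_symm_apply_apply, ← Int.cast_natCast, h1]
      rw [h2]
      push_cast
      ring
    · congr 1
      ext j
      simp only [Finsupp.add_apply, Finsupp.equivFunOnFinite_symm_apply_apply, Pi.add_apply,
        Pi.single_apply, Finsupp.single_apply]
      have := h j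
      by_cases hij : j = i
      · subst hij; simp; omega
      · rw [if_neg hij, if_neg (Ne.symm hij)]; simp
  · push Not at h
    obtain ⟨j, hj⟩ := h
    rw [cz_of_neg _ hj]
    by_cases hij : j = i
    · subst hij
      by_cases h1 : μ j + 1 = 0
      · rw [h1]; simp
      · rw [cz_of_neg (i := j), mul_zero]
        simp; omega
    · rw [cz_of_neg (i := j), mul_zero]
      simp [hij]; omega

lemma cz_X_mul (k : Fin n) (q : MvPolynomial (Fin n) ℂ) (μ : Fin n → ℤ) :
    cz (X k * q) μ = cz q (μ - Pi.single k 1) := by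
  classical
  by_cases h : ∀ j, 0 ≤ μ j
  · rw [cz_of_nonneg _ h, coeff_X_mul']
    by_cases hk : μ k = 0
    · rw [if_neg, cz_of_neg (i := k)]
      · simp [hk]
      · simp [hk]
    · have hk' : 0 < μ k := lt_of_le_of_ne (h k) (Ne.symm hk)
      have h' : ∀ j, 0 ≤ (μ - Pi.single k 1 : Fin n → ℤ) j := by
        intro j
        rw [Pi.sub_apply, Pi.single_apply]
        have := h j
        split_ifs with hjk
        · subst hjk; omega
        · omega
      rw [if_pos, cz_of_nonneg _ h']
      · congr 1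
        ext j
        simp only [Finsupp.tsub_apply, Finsupp.equivFunOnFinite_symm_apply_apply, Pi.sub_apply,
          Pi.single_apply, Finsupp.single_apply]
        by_cases hij : j = k
        · subst hij; simp
        · rw [if_neg hij, if_neg (Ne.symm hij)]; simp
      · simp; omega
  · push Not at h
    obtain ⟨j, hj⟩ := h
    rw [cz_of_neg _ hj, cz_of_neg (i := j)]
    rw [Pi.sub_apply, Pi.single_apply]
    split_ifs <;> omega

lemma cz_single (q : MvPolynomial (Fin n) ℂ) (i : Fin n) (k : ℕ) :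
    cz q (Pi.single i (k : ℤ)) = coeff (Finsupp.single i k) q := by
  classical
  rw [cz_of_nonneg]
  · congr 1
    ext j
    simp only [Finsupp.equivFunOnFinite_symm_apply_apply, Pi.single_apply, Finsupp.single_apply]
    by_cases h : j = i
    · subst h; simp
    · rw [if_neg h, if_neg (Ne.symm h)]; simp
  · intro j
    rw [Pi.single_apply]
    split_ifs <;> omega

lemma cz_eq_zero_of_ord {q : MvPolynomial (Fin n) ℂ} {k : ℕ} (h : Ord k q) {μ : Fin n → ℤ}
    (hμ : ∑ i, μ i < k) : cz q μ = 0 := by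
  by_cases h' : ∀ j, 0 ≤ μ j
  · rw [cz_of_nonneg _ h']
    apply h
    rw [Finsupp.degree_eq_sum]
    simp only [Finsupp.equivFunOnFinite_symm_apply_apply]
    zify
    calc ∑ i, ((μ i).toNat : ℤ) = ∑ i, μ i := Finset.sum_congr rfl fun i _ =>
          Int.toNat_of_nonneg (h' i)
      _ < k := hμ
  · push Not at h'
    obtain ⟨j, hj⟩ := h'
    exact cz_of_neg _ hj

end cz

section fl

variable {n : ℕ}

/-- The flat form. -/
noncomputable def Fl (K : Fin n → Fin n → MvPolynomial (Fin n) ℂ) (p : MvPolynomial (Fin n) ℂ)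
    (i j : Fin n) : MvPolynomial (Fin n) ℂ :=
  pderiv i (Bd K p j) - pderiv j (Bd K p i)

lemma Form_one (K : Fin n → Fin n → MvPolynomial (Fin n) ℂ) (p : MvPolynomial (Fin n) ℂ)
    (i j : Fin n) : Form 1 K p i j = Fl K p i j := by
  simp [Form, Fl]

lemma pderiv_comm (p : MvPolynomial (Fin n) ℂ) (i j : Fin n) :
    pderiv i (pderiv j p) = pderiv j (pderiv i p) := by
  classical
  ext m
  simp only [coeff_pderiv, Finsupp.add_apply, Finsupp.single_apply]
  have : m + Finsupp.single i 1 + Finsupp.single j 1 = m + Finsupp.single j 1 + Finsupp.single i 1 := by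
    rw [add_right_comm]
  rw [this]
  by_cases h : i = j
  · subst h; ring
  · rw [if_neg h, if_neg (Ne.symm h)]; push_cast; ring

/-- Reduction of `Inj` to the vanishing of the pure coefficients. -/
theorem inj_of_pure (N : ℕ) (lam : Fin n → ℂ) (hlam : Function.Injective lam)
    (K' : Fin n → Fin n → MvPolynomial (Fin n) ℂ) (hK' : ∀ j s, Ord 1 (K' j s))
    (K : Fin n → Fin n → MvPolynomial (Fin n) ℂ)
    (hK : ∀ j s, K j s = (if j = s then C (lam j) else 0) + K' j s)
    (hpure : ∀ p : MvPolynomial (Fin n) ℂ, (∀ i j, Ord (N - 1) (Fl K p i j)) →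
      ∀ i k, 1 ≤ k → k < N → coeff (Finsupp.single i k) p = 0) :
    Inj N 1 K := by
  classical
  intro p hp1 hp2 hp3
  have hFl : ∀ i j, Ord (N - 1) (Fl K p i j) := fun i j => by
    rw [← Form_one]; exact hp3 i j
  have hpu := hpure p hFl
  have hbd : ∀ j, Bd K p j = C (lam j) * pderiv j p + Bd K' p j := by
    intro j
    simp only [Bd, hK, add_mul, Finset.sum_add_distrib]
    congr 1
    rw [Finset.sum_eq_single j]
    · simp
    · intro s _ hs
      rw [if_neg (Ne.symm hs), zero_mul]
    · intro h; exact absurd (Finset.mem_univ _) h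
  have key : ∀ d, Ord d p := by
    intro d
    induction d with
    | zero => exact ord_zero_left p
    | succ d ih =>
      intro m hm
      by_cases hmd : m.degree < d
      · exact ih m hmd
      have hmd' : m.degree = d := by omega
      by_contra hne
      obtain ⟨h1, h2⟩ := hp1 m hne
      -- m is pure or mixed
      by_cases hpur : ∃ i, m = Finsupp.single i d
      · obtain ⟨i, hi⟩ := hpur
        subst hi
        rw [Finsupp.degree_single] at h1 h2
        rcases lt_or_eq_of_le h2 with h | h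
        · exact hne (hpu i d h1 h)
        · subst h; exact hne (hp2 i)
      · -- mixed
        obtain ⟨i, hi⟩ : ∃ i, m i ≠ 0 := by
          by_contra hall
          push Not at hall
          have : m = 0 := Finsupp.ext hall
          rw [this] at h1
          simp at h1
        obtain ⟨j, hij, hj⟩ : ∃ j, j ≠ i ∧ m j ≠ 0 := by
          by_contra hall
          push Not at hall
          apply hpur
          refine ⟨i, ?_⟩
          have h3 : m = Finsupp.single i (m i) := by
            ext k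
            by_cases hk : k = i
            · subst hk; simp
            · rw [hall k hk, Finsupp.single_apply, if_neg (Ne.symm hk)]
          have h4 : m i = d := by
            rw [← hmd', h3, Finsupp.degree_single]; simp
          rw [← h4]; exact h3
        obtain ⟨ν, hν⟩ : ∃ ν : Fin n →₀ ℕ, m = ν + Finsupp.single i 1 + Finsupp.single j 1 := by
          have hle : Finsupp.single i 1 + Finsupp.single j 1 ≤ m := by
            intro k
            rw [Finsupp.add_apply, Finsupp.single_apply, Finsupp.single_apply]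
            by_cases hki : i = k
            · subst hki
              rw [if_pos rfl, if_neg hij]; omega
            · rw [if_neg hki]
              by_cases hkj : j = k
              · subst hkj; rw [if_pos rfl]; omega
              · rw [if_neg hkj]; omega
          refine ⟨m - (Finsupp.single i 1 + Finsupp.single j 1), ?_⟩
          rw [add_assoc, tsub_add_cancel_of_le hle]
        have hdeg : ν.degree + 2 = d := by
          rw [← hmd', hν]
          simp only [map_add, Finsupp.degree_single]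
        have hr : ∀ j, Ord d (Bd K' p j) := by
          intro j
          refine Ord.sum _ fun s _ => ?_
          have h5 : Ord (d - 1) (pderiv s p) := by
            have : Ord (d - 1 + 1) p := by
              have : d - 1 + 1 = d := by omega
              rw [this]; exact ih
            exact this.pderiv s
          have h6 := (hK' j s).mul h5
          have : 1 + (d - 1) = d := by omega
          rwa [this] at h6
        have hr' : ∀ i j, Ord (d - 1) (pderiv i (Bd K' p j)) := by
          intro i j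
          have : Ord (d - 1 + 1) (Bd K' p j) := by
            have : d - 1 + 1 = d := by omega
            rw [this]; exact hr j
          exact this.pderiv i
        have hc := hFl i j ν (by omega)
        have hexp : Fl K p i j = C (lam j - lam i) * pderiv i (pderiv j p) +
            (pderiv i (Bd K' p j) - pderiv j (Bd K' p i)) := by
          unfold Fl
          rw [hbd, hbd, map_add, map_add, pderiv_C_mul, pderiv_C_mul, pderiv_comm p j i, C_sub]
          ring
        rw [hexp, coeff_add, coeff_C_mul, ((hr' i j).sub (hr' j i)) ν (by omega), add_zero,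
          coeff_pderiv, coeff_pderiv, ← hν] at hc
        have hlam' : lam j - lam i ≠ 0 := by
          rw [sub_ne_zero]
          intro h'; exact hij (hlam h')
        have h7 : (((ν + Finsupp.single i 1 : Fin n →₀ ℕ) j : ℂ) + 1) ≠ 0 := by
          exact Nat.cast_add_one_ne_zero _
        have h8 : ((ν i : ℂ) + 1) ≠ 0 := Nat.cast_add_one_ne_zero _
        rcases mul_eq_zero.mp hc with h | h
        · exact hlam' h
        · rcases mul_eq_zero.mp h with h | h
          · rcases mul_eq_zero.mp h with h | h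
            · exact hne h
            · exact h7 h
          · exact h8 h
  ext m
  rw [coeff_zero]
  exact key (m.degree + 1) m (by omega)

end fl

section base3

lemma v3a0 (a b c : ℤ) : (![a, b, c] : Fin 3 → ℤ) + Pi.single 0 1 = ![a + 1, b, c] := by
  ext i; fin_cases i <;> simp

lemma v3a1 (a b c : ℤ) : (![a, b, c] : Fin 3 → ℤ) + Pi.single 1 1 = ![a, b + 1, c] := by
  ext i; fin_cases i <;> simp

lemma v3a2 (a b c : ℤ) : (![a, b, c] : Fin 3 → ℤ) + Pi.single 2 1 = ![a, b, c + 1] := by
  ext i; fin_cases i <;> simp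

lemma v3s0 (a b c : ℤ) : (![a, b, c] : Fin 3 → ℤ) - Pi.single 0 1 = ![a - 1, b, c] := by
  ext i; fin_cases i <;> simp

lemma v3s1 (a b c : ℤ) : (![a, b, c] : Fin 3 → ℤ) - Pi.single 1 1 = ![a, b - 1, c] := by
  ext i; fin_cases i <;> simp

lemma v3s2 (a b c : ℤ) : (![a, b, c] : Fin 3 → ℤ) - Pi.single 2 1 = ![a, b, c - 1] := by
  ext i; fin_cases i <;> simp

/-- Linear part attached to a triple of indices. -/
noncomputable def Et {n : ℕ} (t : Fin 3 → Fin n) (j s : Fin n) : MvPolynomial (Fin n) ℂ :=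
  (if j = t 0 ∧ s = t 0 then -2 * X (t 1) else 0) +
  (if (j = t 0 ∧ s = t 1) ∨ (j = t 1 ∧ s = t 0) then X (t 0) - X (t 2) else 0) +
  (if (j = t 0 ∧ s = t 2) ∨ (j = t 2 ∧ s = t 0) then X (t 1) else 0)

/-- The base example in dimension three. -/
noncomputable def K3 (j s : Fin 3) : MvPolynomial (Fin 3) ℂ :=
  (if j = s then C ((![1, -1, 0] : Fin 3 → ℂ) j) else 0) + Et id j s

lemma Bd_K3_0 (q : MvPolynomial (Fin 3) ℂ) : Bd K3 q 0 = C 1 * pderiv 0 q +
    C (-2) * (X 1 * pderiv 0 q) + C 1 * (X 0 * pderiv 1 q) + C (-1) * (X 2 * pderiv 1 q) +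
    C 1 * (X 1 * pderiv 2 q) := by
  have h2 : (C (-2) : MvPolynomial (Fin 3) ℂ) = -2 := by rw [map_neg, map_ofNat]
  simp [Bd, Fin.sum_univ_three, K3, Et, h2]
  ring

lemma Bd_K3_1 (q : MvPolynomial (Fin 3) ℂ) : Bd K3 q 1 = C 1 * (X 0 * pderiv 0 q) +
    C (-1) * (X 2 * pderiv 0 q) + C (-1) * pderiv 1 q := by
  simp [Bd, Fin.sum_univ_three, K3, Et]
  ring

lemma Bd_K3_2 (q : MvPolynomial (Fin 3) ℂ) : Bd K3 q 2 = C 1 * (X 1 * pderiv 0 q) := by
  simp [Bd, Fin.sum_univ_three, K3, Et]

theorem base3 (q : MvPolynomial (Fin 3) ℂ) (h : ∀ i j, Ord 5 (Fl K3 q i j)) (i : Fin 3) (k : ℕ)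
    (hk1 : 1 ≤ k) (hk2 : k < 6) : coeff (Finsupp.single i k) q = 0 := by
  let z : ℤ → ℤ → ℤ → ℂ := fun a b c => cz q ![a, b, c]
  have t0 : ∀ a b c, cz (Bd K3 q 0) ![a, b, c] = btth0 z a b c := by
    intro a b c
    rw [Bd_K3_0]
    simp only [cz_add, cz_C_mul, cz_X_mul, cz_pderiv, v3a0, v3a1, v3a2, v3s0, v3s1, v3s2, btth0, z,
      Matrix.cons_val_zero, Matrix.cons_val_one, Matrix.cons_val]
  have t1 : ∀ a b c, cz (Bd K3 q 1) ![a, b, c] = btth1 z a b c := by
    intro a b c
    rw [Bd_K3_1]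
    simp only [cz_add, cz_C_mul, cz_X_mul, cz_pderiv, v3a0, v3a1, v3a2, v3s0, v3s1, v3s2, btth1, z,
      Matrix.cons_val_zero, Matrix.cons_val_one, Matrix.cons_val, sub_add_cancel]
  have t2 : ∀ a b c, cz (Bd K3 q 2) ![a, b, c] = btth2 z a b c := by
    intro a b c
    rw [Bd_K3_2]
    simp only [cz_add, cz_C_mul, cz_X_mul, cz_pderiv, v3a0, v3a1, v3a2, v3s0, v3s1, v3s2, btth2, z,
      Matrix.cons_val_zero, Matrix.cons_val_one, Matrix.cons_val]
  have hz : ∀ (i j : Fin 3) (a b c : ℤ), a + b + c < 5 → cz (Fl K3 q i j) ![a, b, c] = 0 := by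
    intro i j a b c habc
    apply cz_eq_zero_of_ord (h i j)
    simp [Fin.sum_univ_three]
    exact habc
  have main := bt_abs z
    (fun a b c ha => cz_of_neg (i := 0) q (by simpa using ha))
    (fun a b c ha => cz_of_neg (i := 1) q (by simpa using ha))
    (fun a b c ha => cz_of_neg (i := 2) q (by simpa using ha))
    (fun a b c habc => by
      have := hz 0 1 a b c habc
      simp only [Fl, cz_sub, cz_pderiv, v3a0, v3a1, v3a2, t0, t1, t2, Matrix.cons_val_zero,
        Matrix.cons_val_one, Matrix.cons_val] at this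
      exact this)
    (fun a b c habc => by
      have := hz 0 2 a b c habc
      simp only [Fl, cz_sub, cz_pderiv, v3a0, v3a1, v3a2, t0, t1, t2, Matrix.cons_val_zero,
        Matrix.cons_val_one, Matrix.cons_val] at this
      exact this)
    (fun a b c habc => by
      have := hz 1 2 a b c habc
      simp only [Fl, cz_sub, cz_pderiv, v3a0, v3a1, v3a2, t0, t1, t2, Matrix.cons_val_zero,
        Matrix.cons_val_one, Matrix.cons_val] at this
      exact this)
  have s0 : ∀ k : ℤ, (Pi.single 0 k : Fin 3 → ℤ) = ![k, 0, 0] := by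
    intro k; ext i; fin_cases i <;> simp
  have s1 : ∀ k : ℤ, (Pi.single 1 k : Fin 3 → ℤ) = ![0, k, 0] := by
    intro k; ext i; fin_cases i <;> simp
  have s2 : ∀ k : ℤ, (Pi.single 2 k : Fin 3 → ℤ) = ![0, 0, k] := by
    intro k; ext i; fin_cases i <;> simp
  obtain ⟨a1, b1, c1, a2, b2, c2, a3, b3, c3, a4, b4, c4, a5, b5, c5⟩ := main
  rw [← cz_single]
  fin_cases i
  · show cz q (Pi.single 0 (k : ℤ)) = 0
    rw [s0]
    interval_cases k
    · exact a1
    · exact a2
    · exact a3
    · exact a4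
    · exact a5
  · show cz q (Pi.single 1 (k : ℤ)) = 0
    rw [s1]
    interval_cases k
    · exact b1
    · exact b2
    · exact b3
    · exact b4
    · exact b5
  · show cz q (Pi.single 2 (k : ℤ)) = 0
    rw [s2]
    interval_cases k
    · exact c1
    · exact c2
    · exact c3
    · exact c4
    · exact c5

end base3

section base4

lemma v4a0 (a b c d : ℤ) : (![a, b, c, d] : Fin 4 → ℤ) + Pi.single 0 1 = ![a + 1, b, c, d] := by
  ext i; fin_cases i <;> simp

lemma v4a1 (a b c d : ℤ) : (![a, b, c, d] : Fin 4 → ℤ) + Pi.single 1 1 = ![a, b + 1, c, d] := by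
  ext i; fin_cases i <;> simp

lemma v4a2 (a b c d : ℤ) : (![a, b, c, d] : Fin 4 → ℤ) + Pi.single 2 1 = ![a, b, c + 1, d] := by
  ext i; fin_cases i <;> simp

lemma v4a3 (a b c d : ℤ) : (![a, b, c, d] : Fin 4 → ℤ) + Pi.single 3 1 = ![a, b, c, d + 1] := by
  ext i; fin_cases i <;> simp

lemma v4s0 (a b c d : ℤ) : (![a, b, c, d] : Fin 4 → ℤ) - Pi.single 0 1 = ![a - 1, b, c, d] := by
  ext i; fin_cases i <;> simp

lemma v4s1 (a b c d : ℤ) : (![a, b, c, d] : Fin 4 → ℤ) - Pi.single 1 1 = ![a, b - 1, c, d] := by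
  ext i; fin_cases i <;> simp

lemma v4s2 (a b c d : ℤ) : (![a, b, c, d] : Fin 4 → ℤ) - Pi.single 2 1 = ![a, b, c - 1, d] := by
  ext i; fin_cases i <;> simp

lemma v4s3 (a b c d : ℤ) : (![a, b, c, d] : Fin 4 → ℤ) - Pi.single 3 1 = ![a, b, c, d - 1] := by
  ext i; fin_cases i <;> simp

/-- Linear part of the four dimensional example. -/
noncomputable def E4 (j s : Fin 4) : MvPolynomial (Fin 4) ℂ :=
  (if j = 0 ∧ s = 0 then -2 * X 1 else 0) +
  (if (j = 0 ∧ s = 1) ∨ (j = 1 ∧ s = 0) then X 0 - X 2 else 0) +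
  (if (j = 0 ∧ s = 2) ∨ (j = 2 ∧ s = 0) then X 1 else 0) +
  (if (j = 1 ∧ s = 3) ∨ (j = 3 ∧ s = 1) then -X 2 else 0) +
  (if (j = 2 ∧ s = 3) ∨ (j = 3 ∧ s = 2) then X 1 else 0)

/-- The base example in dimension four. -/
noncomputable def K4 (j s : Fin 4) : MvPolynomial (Fin 4) ℂ :=
  (if j = s then C ((![1, -1, 0, 2] : Fin 4 → ℂ) j) else 0) + E4 j s

lemma Bd_K4_0 (q : MvPolynomial (Fin 4) ℂ) : Bd K4 q 0 = C 1 * pderiv 0 q +
    C (-2) * (X 1 * pderiv 0 q) + C 1 * (X 0 * pderiv 1 q) + C (-1) * (X 2 * pderiv 1 q) +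
    C 1 * (X 1 * pderiv 2 q) := by
  have h2 : (C (-2) : MvPolynomial (Fin 4) ℂ) = -2 := by rw [map_neg, map_ofNat]
  simp [Bd, Fin.sum_univ_four, K4, E4, h2]
  ring

lemma Bd_K4_1 (q : MvPolynomial (Fin 4) ℂ) : Bd K4 q 1 = C 1 * (X 0 * pderiv 0 q) +
    C (-1) * (X 2 * pderiv 0 q) + C (-1) * pderiv 1 q + C (-1) * (X 2 * pderiv 3 q) := by
  simp [Bd, Fin.sum_univ_four, K4, E4]
  ring

lemma Bd_K4_2 (q : MvPolynomial (Fin 4) ℂ) : Bd K4 q 2 = C 1 * (X 1 * pderiv 0 q) +
    C 1 * (X 1 * pderiv 3 q) := by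
  simp [Bd, Fin.sum_univ_four, K4, E4]

lemma Bd_K4_3 (q : MvPolynomial (Fin 4) ℂ) : Bd K4 q 3 = C (-1) * (X 2 * pderiv 1 q) +
    C 1 * (X 1 * pderiv 2 q) + C 2 * pderiv 3 q := by
  have h2 : (C 2 : MvPolynomial (Fin 4) ℂ) = 2 := by rw [map_ofNat]
  simp [Bd, Fin.sum_univ_four, K4, E4, h2]

theorem base4 (q : MvPolynomial (Fin 4) ℂ) (h : ∀ i j, Ord 3 (Fl K4 q i j)) (i : Fin 4) (k : ℕ)
    (hk1 : 1 ≤ k) (hk2 : k < 4) : coeff (Finsupp.single i k) q = 0 := by
  let z : ℤ → ℤ → ℤ → ℤ → ℂ := fun a b c d => cz q ![a, b, c, d]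
  have t0 : ∀ a b c d, cz (Bd K4 q 0) ![a, b, c, d] = bfth0 z a b c d := by
    intro a b c d
    rw [Bd_K4_0]
    simp only [cz_add, cz_C_mul, cz_X_mul, cz_pderiv, v4a0, v4a1, v4a2, v4a3, v4s0, v4s1, v4s2, v4s3,
      bfth0, z, Matrix.cons_val_zero, Matrix.cons_val_one, Matrix.cons_val, sub_add_cancel]
  have t1 : ∀ a b c d, cz (Bd K4 q 1) ![a, b, c, d] = bfth1 z a b c d := by
    intro a b c d
    rw [Bd_K4_1]
    simp only [cz_add, cz_C_mul, cz_X_mul, cz_pderiv, v4a0, v4a1, v4a2, v4a3, v4s0, v4s1, v4s2, v4s3,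
      bfth1, z, Matrix.cons_val_zero, Matrix.cons_val_one, Matrix.cons_val, sub_add_cancel]
  have t2 : ∀ a b c d, cz (Bd K4 q 2) ![a, b, c, d] = bfth2 z a b c d := by
    intro a b c d
    rw [Bd_K4_2]
    simp only [cz_add, cz_C_mul, cz_X_mul, cz_pderiv, v4a0, v4a1, v4a2, v4a3, v4s0, v4s1, v4s2, v4s3,
      bfth2, z, Matrix.cons_val_zero, Matrix.cons_val_one, Matrix.cons_val, sub_add_cancel]
  have t3 : ∀ a b c d, cz (Bd K4 q 3) ![a, b, c, d] = bfth3 z a b c d := by
    intro a b c d
    rw [Bd_K4_3]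
    simp only [cz_add, cz_C_mul, cz_X_mul, cz_pderiv, v4a0, v4a1, v4a2, v4a3, v4s0, v4s1, v4s2, v4s3,
      bfth3, z, Matrix.cons_val_zero, Matrix.cons_val_one, Matrix.cons_val, sub_add_cancel]
  have hz : ∀ (i j : Fin 4) (a b c d : ℤ), a + b + c + d < 3 →
      cz (Fl K4 q i j) ![a, b, c, d] = 0 := by
    intro i j a b c d habc
    apply cz_eq_zero_of_ord (h i j)
    simp [Fin.sum_univ_four]
    exact habc
  have main := bf_abs z
    (fun a b c d ha => cz_of_neg (i := 0) q (by simpa using ha))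
    (fun a b c d ha => cz_of_neg (i := 1) q (by simpa using ha))
    (fun a b c d ha => cz_of_neg (i := 2) q (by simpa using ha))
    (fun a b c d ha => cz_of_neg (i := 3) q (by simpa using ha))
    (fun a b c d habc => by
      have := hz 0 1 a b c d habc
      simp only [Fl, cz_sub, cz_pderiv, v4a0, v4a1, v4a2, v4a3, t0, t1, t2, t3,
        Matrix.cons_val_zero, Matrix.cons_val_one, Matrix.cons_val] at this
      exact this)
    (fun a b c d habc => by
      have := hz 0 2 a b c d habc
      simp only [Fl, cz_sub, cz_pderiv, v4a0, v4a1, v4a2, v4a3, t0, t1, t2, t3,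
        Matrix.cons_val_zero, Matrix.cons_val_one, Matrix.cons_val] at this
      exact this)
    (fun a b c d habc => by
      have := hz 0 3 a b c d habc
      simp only [Fl, cz_sub, cz_pderiv, v4a0, v4a1, v4a2, v4a3, t0, t1, t2, t3,
        Matrix.cons_val_zero, Matrix.cons_val_one, Matrix.cons_val] at this
      exact this)
    (fun a b c d habc => by
      have := hz 1 2 a b c d habc
      simp only [Fl, cz_sub, cz_pderiv, v4a0, v4a1, v4a2, v4a3, t0, t1, t2, t3,
        Matrix.cons_val_zero, Matrix.cons_val_one, Matrix.cons_val] at this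
      exact this)
    (fun a b c d habc => by
      have := hz 1 3 a b c d habc
      simp only [Fl, cz_sub, cz_pderiv, v4a0, v4a1, v4a2, v4a3, t0, t1, t2, t3,
        Matrix.cons_val_zero, Matrix.cons_val_one, Matrix.cons_val] at this
      exact this)
    (fun a b c d habc => by
      have := hz 2 3 a b c d habc
      simp only [Fl, cz_sub, cz_pderiv, v4a0, v4a1, v4a2, v4a3, t0, t1, t2, t3,
        Matrix.cons_val_zero, Matrix.cons_val_one, Matrix.cons_val] at this
      exact this)
  have s0 : ∀ k : ℤ, (Pi.single 0 k : Fin 4 → ℤ) = ![k, 0, 0, 0] := by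
    intro k; ext i; fin_cases i <;> simp
  have s1 : ∀ k : ℤ, (Pi.single 1 k : Fin 4 → ℤ) = ![0, k, 0, 0] := by
    intro k; ext i; fin_cases i <;> simp
  have s2 : ∀ k : ℤ, (Pi.single 2 k : Fin 4 → ℤ) = ![0, 0, k, 0] := by
    intro k; ext i; fin_cases i <;> simp
  have s3 : ∀ k : ℤ, (Pi.single 3 k : Fin 4 → ℤ) = ![0, 0, 0, k] := by
    intro k; ext i; fin_cases i <;> simp
  obtain ⟨a1, b1, c1, d1, a2, b2, c2, d2, a3, b3, c3, d3⟩ := main
  rw [← cz_single]
  fin_cases i
  · show cz q (Pi.single 0 (k : ℤ)) = 0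
    rw [s0]
    interval_cases k
    · exact a1
    · exact a2
    · exact a3
  · show cz q (Pi.single 1 (k : ℤ)) = 0
    rw [s1]
    interval_cases k
    · exact b1
    · exact b2
    · exact b3
  · show cz q (Pi.single 2 (k : ℤ)) = 0
    rw [s2]
    interval_cases k
    · exact c1
    · exact c2
    · exact c3
  · show cz q (Pi.single 3 (k : ℤ)) = 0
    rw [s3]
    interval_cases k
    · exact d1
    · exact d2
    · exact d3

end base4

section restrict

variable {m n : ℕ} {f : Fin m → Fin n} (hf : Function.Injective f)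

lemma killCompl_X_apply (i : Fin m) : killCompl hf (X (f i) : MvPolynomial (Fin n) ℂ) = X i := by
  have := killCompl_rename_app (R := ℂ) hf (X i)
  rwa [rename_X] at this

lemma killCompl_X_of_notMem {j : Fin n} (hj : j ∉ Set.range f) :
    killCompl hf (X j : MvPolynomial (Fin n) ℂ) = 0 := by
  unfold killCompl
  rw [aeval_X, dif_neg hj]

lemma killCompl_pderiv (p : MvPolynomial (Fin n) ℂ) (i : Fin m) :
    killCompl hf (pderiv (f i) p) = pderiv i (killCompl hf p) := by
  classical
  induction p using MvPolynomial.induction_on with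
  | C a => rw [pderiv_C, map_zero, killCompl_C, pderiv_C]
  | add p q hp hq => simp only [map_add, hp, hq]
  | mul_X p j hp =>
    rw [Derivation.leibniz, map_mul (killCompl hf) p, Derivation.leibniz]
    simp only [smul_eq_mul, map_add, map_mul, hp]
    congr 1
    congr 1
    by_cases hj : j ∈ Set.range f
    · obtain ⟨k, rfl⟩ := hj
      rw [killCompl_X_apply]
      by_cases hki : k = i
      · subst hki; simp
      · rw [pderiv_X_of_ne (fun h => hki (hf h)), pderiv_X_of_ne hki, map_zero]
    · rw [killCompl_X_of_notMem hf hj, map_zero]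
      rw [pderiv_X_of_ne, map_zero]
      rintro rfl
      exact hj ⟨i, rfl⟩

lemma coeff_killCompl (p : MvPolynomial (Fin n) ℂ) (u : Fin m →₀ ℕ) :
    coeff u (killCompl hf p) = coeff (u.mapDomain f) p := by
  classical
  induction p using MvPolynomial.induction_on' with
  | add p q hp hq => rw [map_add, coeff_add, coeff_add, hp, hq]
  | monomial v a =>
    by_cases hv : ∀ j, v j ≠ 0 → j ∈ Set.range f
    · obtain ⟨v', rfl⟩ : ∃ v' : Fin m →₀ ℕ, v'.mapDomain f = v := by
        refine ⟨v.comapDomain f hf.injOn, ?_⟩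
        apply Finsupp.mapDomain_comapDomain f hf
        intro j hj
        exact hv j (by simpa using hj)
      rw [← rename_monomial, killCompl_rename_app, coeff_monomial, rename_monomial, coeff_monomial]
      simp only [(Finsupp.mapDomain_injective hf).eq_iff]
    · push Not at hv
      obtain ⟨j, hj, hjr⟩ := hv
      have h0 : killCompl hf (monomial v a) = 0 := by
        rw [MvPolynomial.monomial_eq, map_mul, Finsupp.prod, map_prod]
        have : j ∈ v.support := by simpa using hj
        rw [← Finset.mul_prod_erase _ _ this, map_pow, killCompl_X_of_notMem hf hjr,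
          zero_pow hj, zero_mul, mul_zero]
      rw [h0, coeff_zero, coeff_monomial, if_neg]
      rintro rfl
      exact hj (Finsupp.mapDomain_of_notMem_range _ _ hjr)

lemma Ord.killCompl {k : ℕ} {p : MvPolynomial (Fin n) ℂ} (hp : Ord k p) :
    Ord k (MvPolynomial.killCompl hf p) := fun u hu => by
  rw [coeff_killCompl]
  apply hp
  rwa [Finsupp.degree_mapDomain]

lemma killCompl_Bd (K : Fin n → Fin n → MvPolynomial (Fin n) ℂ)
    (K' : Fin m → Fin m → MvPolynomial (Fin m) ℂ)
    (h1 : ∀ a s, s ∉ Set.range f → killCompl hf (K (f a) s) = 0)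
    (h2 : ∀ a b, killCompl hf (K (f a) (f b)) = K' a b)
    (p : MvPolynomial (Fin n) ℂ) (a : Fin m) :
    killCompl hf (Bd K p (f a)) = Bd K' (killCompl hf p) a := by
  classical
  simp only [Bd, map_sum, map_mul]
  rw [← Finset.sum_subset (Finset.subset_univ (Finset.univ.image f))]
  · rw [Finset.sum_image (fun _ _ _ _ h => hf h)]
    refine Finset.sum_congr rfl fun b _ => ?_
    rw [h2, killCompl_pderiv]
  · intro s _ hs
    rw [h1, zero_mul]
    rintro ⟨b, rfl⟩
    exact hs (Finset.mem_image_of_mem f (Finset.mem_univ b))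

lemma killCompl_Fl (K : Fin n → Fin n → MvPolynomial (Fin n) ℂ)
    (K' : Fin m → Fin m → MvPolynomial (Fin m) ℂ)
    (h1 : ∀ a s, s ∉ Set.range f → killCompl hf (K (f a) s) = 0)
    (h2 : ∀ a b, killCompl hf (K (f a) (f b)) = K' a b)
    (p : MvPolynomial (Fin n) ℂ) (a b : Fin m) :
    killCompl hf (Fl K p (f a) (f b)) = Fl K' (killCompl hf p) a b := by
  simp only [Fl, map_sub, killCompl_pderiv, killCompl_Bd hf K K' h1 h2]

end restrict

section affine

variable {n : ℕ}

lemma Fl_affine (K : Fin n → Fin n → MvPolynomial (Fin n) ℂ) (α β : ℂ)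
    (K' : Fin n → Fin n → MvPolynomial (Fin n) ℂ)
    (hK : ∀ j s, K' j s = C α * K j s + (if j = s then C β else 0))
    (p : MvPolynomial (Fin n) ℂ) (i j : Fin n) : Fl K' p i j = C α * Fl K p i j := by
  classical
  have hbd : ∀ j, Bd K' p j = C α * Bd K p j + C β * pderiv j p := by
    intro j
    simp only [Bd, hK, add_mul, Finset.sum_add_distrib, Finset.mul_sum, mul_assoc]
    congr 1
    rw [Finset.sum_eq_single j]
    · simp
    · intro s _ hs
      rw [if_neg (Ne.symm hs), zero_mul]
    · intro h; exact absurd (Finset.mem_univ _) h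
  unfold Fl
  rw [hbd, hbd, map_add, map_add, pderiv_C_mul, pderiv_C_mul, pderiv_C_mul, pderiv_C_mul,
    pderiv_comm p j i]
  ring

lemma ord_of_C_mul {k : ℕ} {α : ℂ} (hα : α ≠ 0) {p : MvPolynomial (Fin n) ℂ}
    (h : Ord k (C α * p)) : Ord k p := fun m hm => by
  have := h m hm
  rw [coeff_C_mul] at this
  exact (mul_eq_zero.mp this).resolve_left hα

end affine

end Pool.Agent.H85.KT
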