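import Mathlib
import Pool.Agent.H85.KTFlat

/-!
# Flat examples in every dimension `n ≥ 3`, continued
-/

set_option linter.unusedSimpArgs false

namespace Pool.Agent.H85.KT

open MvPolynomial

section et

variable {n : ℕ}

lemma Et_self {t : Fin 3 → Fin n} (ht : Function.Injective t) (a b : Fin 3) :
    killCompl ht (Et t (t a) (t b)) = Et id a b := by
  have h2 : killCompl ht (-2 * X (t 1) : MvPolynomial (Fin n) ℂ) = -2 * X 1 := by
    rw [map_mul, killCompl_X_apply, map_neg, map_ofNat]
  unfold Et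
  simp only [ht.eq_iff, map_add, id]
  congr 1
  · congr 1
    · split_ifs
      · exact h2
      · exact map_zero _
    · split_ifs
      · rw [map_sub, killCompl_X_apply, killCompl_X_apply]
      · exact map_zero _
  · split_ifs
    · rw [killCompl_X_apply]
    · exact map_zero _

lemma Et_out {t : Fin 3 → Fin n} {j s : Fin n} (hs : s ∉ Set.range t) : Et t j s = 0 := by
  have h : ∀ a, s ≠ t a := fun a h => hs ⟨a, h.symm⟩
  simp [Et, h]

lemma Et_other {t t' : Fin 3 → Fin n} (ht : Function.Injective t) (h0 : t' 0 ∉ Set.range t)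
    (h12 : ¬ (t' 1 ∈ Set.range t ∧ t' 2 ∈ Set.range t)) (a : Fin 3) (s : Fin n) :
    killCompl ht (Et t' (t a) s) = 0 := by
  have h : t a ≠ t' 0 := fun h => h0 ⟨a, h⟩
  unfold Et
  rw [map_add, map_add]
  have e1 : (if t a = t' 0 ∧ s = t' 0 then (-2 * X (t' 1) : MvPolynomial (Fin n) ℂ) else 0) = 0 :=
    if_neg (fun h' => h h'.1)
  rw [e1, map_zero, zero_add]
  have e2 : killCompl ht (if t a = t' 0 ∧ s = t' 1 ∨ t a = t' 1 ∧ s = t' 0 then
      (X (t' 0) - X (t' 2) : MvPolynomial (Fin n) ℂ) else 0) = 0 := by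
    split_ifs with hc
    · rcases hc with hc | hc
      · exact absurd hc.1 h
      · rw [map_sub, killCompl_X_of_notMem ht h0, killCompl_X_of_notMem ht, sub_zero]
        intro h2
        exact h12 ⟨⟨a, hc.1⟩, h2⟩
    · exact map_zero _
  have e3 : killCompl ht (if t a = t' 0 ∧ s = t' 2 ∨ t a = t' 2 ∧ s = t' 0 then
      (X (t' 1) : MvPolynomial (Fin n) ℂ) else 0) = 0 := by
    split_ifs with hc
    · rcases hc with hc | hc
      · exact absurd hc.1 h
      · rw [killCompl_X_of_notMem ht]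
        intro h2
        exact h12 ⟨h2, ⟨a, hc.1⟩⟩
    · exact map_zero _
  rw [e2, e3, add_zero]

lemma ord_Et (t : Fin 3 → Fin n) (j s : Fin n) : Ord 1 (Et t j s) := by
  unfold Et
  refine Ord.add (Ord.add ?_ ?_) ?_
  · split_ifs
    · exact (ord_X _).mul_left _
    · exact ord_zero _
  · split_ifs
    · exact (ord_X _).sub (ord_X _)
    · exact ord_zero _
  · split_ifs
    · exact ord_X _
    · exact ord_zero _

end et

section cover

variable {n : ℕ} {κ : Type*} [Fintype κ]

/-- The flat tensor attached to a family of triples. -/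
noncomputable def Kc (t : κ → Fin 3 → Fin n) (lam : Fin n → ℂ) (α : κ → ℂ) (j s : Fin n) :
    MvPolynomial (Fin n) ℂ :=
  (if j = s then C (lam j) else 0) + ∑ k, C (α k) * Et (t k) j s

theorem cover_inj (t : κ → Fin 3 → Fin n) (lam : Fin n → ℂ) (α : κ → ℂ)
    (ht : ∀ k, Function.Injective (t k)) (hlam : Function.Injective lam) (hα : ∀ k, α k ≠ 0)
    (h0 : ∀ k, lam (t k 0) = lam (t k 2) + α k) (h1 : ∀ k, lam (t k 1) = lam (t k 2) - α k)
    (hd0 : ∀ k k', k' ≠ k → t k' 0 ∉ Set.range (t k))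
    (hd12 : ∀ k k', k' ≠ k → ¬ (t k' 1 ∈ Set.range (t k) ∧ t k' 2 ∈ Set.range (t k)))
    (hcov : ∀ i, ∃ k, i ∈ Set.range (t k)) :
    Inj 6 1 (Kc t lam α) := by
  classical
  refine inj_of_pure 6 lam hlam (fun j s => ∑ k, C (α k) * Et (t k) j s) ?_ _ (fun j s => rfl) ?_
  · intro j s
    exact Ord.sum _ fun k _ => (ord_Et _ _ _).mul_left _
  · intro p hp i e he1 he2
    obtain ⟨k, a, rfl⟩ := hcov i
    have hsum : ∀ a s, killCompl (ht k) (∑ k', C (α k') * Et (t k') (t k a) s) =
        C (α k) * killCompl (ht k) (Et (t k) (t k a) s) := by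
      intro a s
      rw [map_sum, Finset.sum_eq_single k]
      · rw [map_mul, killCompl_C]
      · intro k' _ hk'
        rw [map_mul, Et_other (ht k) (hd0 k k' hk') (hd12 k k' hk'), mul_zero]
      · intro h; exact absurd (Finset.mem_univ _) h
    have hA : ∀ a s, s ∉ Set.range (t k) → killCompl (ht k) (Kc t lam α (t k a) s) = 0 := by
      intro a s hs
      unfold Kc
      rw [map_add, hsum, Et_out hs, map_zero, mul_zero, add_zero, if_neg, map_zero]
      rintro rfl
      exact hs ⟨a, rfl⟩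
    have hB : ∀ a b, killCompl (ht k) (Kc t lam α (t k a) (t k b)) =
        C (α k) * K3 a b + (if a = b then C (lam (t k 2)) else 0) := by
      intro a b
      unfold Kc
      rw [map_add, hsum, Et_self, K3]
      simp only [(ht k).eq_iff]
      by_cases hab : a = b
      · subst hab
        simp only [if_true, killCompl_C]
        have : C (lam (t k a)) = C (α k) * C ((![1, -1, 0] : Fin 3 → ℂ) a) +
            (C (lam (t k 2)) : MvPolynomial (Fin 3) ℂ) := by
          rw [← C_mul, ← C_add]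
          congr 1
          fin_cases a
          · simp [h0 k]; ring
          · simp [h1 k]; ring
          · simp
        rw [this]; ring
      · simp [hab]
    have hF : ∀ a b, Ord 5 (Fl K3 (killCompl (ht k) p) a b) := by
      intro a b
      apply ord_of_C_mul (hα k)
      rw [← Fl_affine K3 (α k) (lam (t k 2)) _ (fun a b => rfl),
        ← killCompl_Fl (ht k) (Kc t lam α) _ hA hB]
      exact (hp (t k a) (t k b)).killCompl (ht k)
    have := base3 (killCompl (ht k) p) hF a e he1 he2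
    rw [coeff_killCompl, Finsupp.mapDomain_single] at this
    exact this

end cover

section data

variable {n : ℕ}

/-- Elementary coefficient arrays. -/
def E1 (a₀ b₀ : KI n) (z : ℂ) (a b : KI n) : ℂ := if a = a₀ ∧ b = b₀ then z else 0

lemma Kup_add (η : Fin n → ℂ) (κ : ℂ) (c c' : KI n → KI n → ℂ) (i j : Fin n) :
    Kup η κ (fun a b => c a b + c' a b) i j = Kup η κ c i j + Kup η κ c' i j := by
  simp only [Kup, C_add, add_mul, Finset.sum_add_distrib]

lemma Kup_sum {ι : Type*} (s : Finset ι) (η : Fin n → ℂ) (κ : ℂ) (c : ι → KI n → KI n → ℂ)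
    (i j : Fin n) :
    Kup η κ (fun a b => ∑ x ∈ s, c x a b) i j = ∑ x ∈ s, Kup η κ (c x) i j := by
  classical
  induction s using Finset.induction_on with
  | empty => simp [Kup]
  | insert x s hx ih =>
    simp only [Finset.sum_insert hx]
    rw [Kup_add, ih]

lemma Kup_E1 (η : Fin n → ℂ) (κ : ℂ) (a₀ b₀ : KI n) (z : ℂ) (i j : Fin n) :
    Kup η κ (E1 a₀ b₀ z) i j =
      C z * (Kp η κ a₀ i * Kp η κ b₀ j + Kp η κ a₀ j * Kp η κ b₀ i) := by
  classical
  unfold Kup
  rw [Finset.sum_eq_single a₀]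
  · rw [Finset.sum_eq_single b₀]
    · simp [E1]
    · intro b _ hb
      simp [E1, hb]
    · intro h; exact absurd (Finset.mem_univ _) h
  · intro a _ ha
    refine Finset.sum_eq_zero fun b _ => ?_
    simp [E1, ha]
  · intro h; exact absurd (Finset.mem_univ _) h

lemma Wp_flat : Wp (fun _ : Fin n => (1 : ℂ)) 0 = 1 := by simp [Wp]

lemma Bp_flat (c : KI n → KI n → ℂ) (j s : Fin n) :
    Bp (fun _ : Fin n => (1 : ℂ)) 0 c j s = Kup (fun _ : Fin n => (1 : ℂ)) 0 c j s := by
  classical
  unfold Bp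
  rw [Finset.sum_eq_single j]
  · simp [Gp, Wp_flat]
  · intro i _ hi
    simp [Gp, Ne.symm hi]
  · intro h; exact absurd (Finset.mem_univ _) h

/-- Diagonal part of the coefficient array. -/
noncomputable def cdiag (lam : Fin n → ℂ) (a b : KI n) : ℂ :=
  ∑ i, E1 (Sum.inl i) (Sum.inl i) (lam i / 2) a b

lemma Kup_cdiag (lam : Fin n → ℂ) (j s : Fin n) :
    Kup (fun _ : Fin n => (1 : ℂ)) 0 (cdiag lam) j s = if j = s then C (lam j) else 0 := by
  classical
  have : (cdiag lam : KI n → KI n → ℂ) =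
      fun a b => ∑ i ∈ Finset.univ, E1 (Sum.inl i) (Sum.inl i) (lam i / 2) a b := rfl
  rw [this, Kup_sum]
  simp only [Kup_E1]
  by_cases h : j = s
  · subst h
    rw [Finset.sum_eq_single j, if_pos rfl]
    · simp only [Kp, if_true]
      simp only [mul_one, zero_mul, map_zero, add_zero]
      have h2 : (C (lam j / 2) : MvPolynomial (Fin n) ℂ) * (1 + 1) = C (lam j / 2) * C 2 := by
        rw [map_ofNat]; norm_num
      rw [h2, ← C_mul]
      congr 1
      ring
    · intro i _ hi
      simp [Kp, Ne.symm hi]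
    · intro h; exact absurd (Finset.mem_univ _) h
  · rw [if_neg h]
    refine Finset.sum_eq_zero fun i _ => ?_
    simp only [Kp]
    by_cases h1 : j = i
    · subst h1
      simp [Ne.symm h]
    · simp [h1]

lemma Kup_triple (t : Fin 3 → Fin n) (ht : Function.Injective t) (z : ℂ) (j s : Fin n) :
    Kup (fun _ : Fin n => (1 : ℂ)) 0 (fun a b =>
      E1 (Sum.inl (t 0)) (Sum.inr (t 0, t 1)) z a b +
      E1 (Sum.inl (t 0)) (Sum.inr (t 1, t 2)) z a b) j s = C z * Et t j s := by
  classical
  rw [Kup_add, Kup_E1, Kup_E1, ← mul_add]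
  congr 1
  have h01 : t 0 ≠ t 1 := fun h => absurd (ht h) (by decide)
  have h02 : t 0 ≠ t 2 := fun h => absurd (ht h) (by decide)
  have h12 : t 1 ≠ t 2 := fun h => absurd (ht h) (by decide)
  have h10 := h01.symm
  have h20 := h02.symm
  have h21 := h12.symm
  simp only [Kp, Et, zero_mul, map_zero, add_zero, C_1, one_mul]
  by_cases j0 : j = t 0
  · subst j0
    by_cases s0 : s = t 0
    · subst s0
      simp [h01, h02, h12, h10, h20, h21]; ring
    · by_cases s1 : s = t 1
      · subst s1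
        simp [h01, h02, h12, h10, h20, h21]; try ring
      · by_cases s2 : s = t 2
        · subst s2
          simp [h01, h02, h12, h10, h20, h21]
        · simp [h01, h02, h12, h10, h20, h21, s0, s1, s2]
  · by_cases s0 : s = t 0
    · subst s0
      by_cases j1 : j = t 1
      · subst j1
        simp [h01, h02, h12, h10, h20, h21]; try ring
      · by_cases j2 : j = t 2
        · subst j2
          simp [h01, h02, h12, h10, h20, h21]
        · simp [h01, h02, h12, h10, h20, h21, j0, j1, j2]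
    · simp [j0, s0]

theorem exists_flat_cover {κ : Type*} [Fintype κ] (t : κ → Fin 3 → Fin n) (lam : Fin n → ℂ)
    (α : κ → ℂ)
    (ht : ∀ k, Function.Injective (t k)) (hlam : Function.Injective lam) (hα : ∀ k, α k ≠ 0)
    (h0 : ∀ k, lam (t k 0) = lam (t k 2) + α k) (h1 : ∀ k, lam (t k 1) = lam (t k 2) - α k)
    (hd0 : ∀ k k', k' ≠ k → t k' 0 ∉ Set.range (t k))
    (hd12 : ∀ k k', k' ≠ k → ¬ (t k' 1 ∈ Set.range (t k) ∧ t k' 2 ∈ Set.range (t k)))
    (hcov : ∀ i, ∃ k, i ∈ Set.range (t k)) :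
    ∃ c₀ : KI n → KI n → ℂ, Inj 6 (Wp (fun _ => (1 : ℂ)) 0) (Bp (fun _ => (1 : ℂ)) 0 c₀) := by
  refine ⟨fun a b => cdiag lam a b + ∑ k ∈ Finset.univ,
    (E1 (Sum.inl (t k 0)) (Sum.inr (t k 0, t k 1)) (α k) a b +
      E1 (Sum.inl (t k 0)) (Sum.inr (t k 1, t k 2)) (α k) a b), ?_⟩
  have h := cover_inj t lam α ht hlam hα h0 h1 hd0 hd12 hcov
  rw [Wp_flat]
  convert h using 1
  funext j s
  rw [Bp_flat, Kup_add, Kup_cdiag, Kup_sum]
  unfold Kc
  congr 1
  refine Finset.sum_congr rfl fun k _ => ?_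
  exact Kup_triple (t k) (ht k) (α k) j s

theorem exists_flat_four :
    ∃ c₀ : KI 4 → KI 4 → ℂ, Inj 4 (Wp (fun _ => (1 : ℂ)) 0) (Bp (fun _ => (1 : ℂ)) 0 c₀) := by
  have h : Inj 4 1 K4 := by
    refine inj_of_pure 4 (![1, -1, 0, 2] : Fin 4 → ℂ) ?_ E4 ?_ K4 (fun j s => rfl) ?_
    · intro a b hab
      fin_cases a <;> fin_cases b <;> simp at hab <;> first | rfl | (exfalso; norm_num at hab)
    · intro j s
      unfold E4
      refine Ord.add (Ord.add (Ord.add (Ord.add ?_ ?_) ?_) ?_) ?_
      · split_ifs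
        · exact (ord_X _).mul_left _
        · exact ord_zero _
      · split_ifs
        · exact (ord_X _).sub (ord_X _)
        · exact ord_zero _
      · split_ifs
        · exact ord_X _
        · exact ord_zero _
      · split_ifs
        · exact (ord_X _).neg
        · exact ord_zero _
      · split_ifs
        · exact ord_X _
        · exact ord_zero _
    · intro p hp i k hk1 hk2
      exact base4 p hp i k hk1 hk2
  refine ⟨fun a b => cdiag (![1, -1, 0, 2] : Fin 4 → ℂ) a b +
    ((E1 (Sum.inl 0) (Sum.inr (0, 1)) 1 a b + E1 (Sum.inl 0) (Sum.inr (1, 2)) 1 a b) +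
      E1 (Sum.inl 3) (Sum.inr (1, 2)) 1 a b), ?_⟩
  rw [Wp_flat]
  convert h using 1
  funext j s
  rw [Bp_flat, Kup_add, Kup_cdiag, Kup_add, Kup_add, Kup_E1, Kup_E1, Kup_E1]
  unfold K4
  congr 1
  unfold E4
  simp only [Kp, zero_mul, map_zero, add_zero, C_1, one_mul]
  fin_cases j <;> fin_cases s <;> simp <;> ring

end data

end Pool.Agent.H85.KT
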