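import Mathlib
import Pool.Agent.H85.KTCover

/-!
# Existence of one good example for every `n ≥ 3` and every curvature and signature (over `ℂ`)
-/

namespace Pool.Agent.H85.KT

open MvPolynomial

/-- Integer eigenvalues of the example. -/
def lamZ (m v : ℕ) : ℤ :=
  if v < 2 * m then (if v % 2 = 0 then 4 * (v / 2 + 1 : ℕ) else -(4 * (v / 2 + 1 : ℕ)))
  else if v = 2 * m then 0
  else 4 * ((v - 2 * m - 1) / 3 : ℕ) +
    (if (v - 2 * m - 1) % 3 = 0 then 3 else if (v - 2 * m - 1) % 3 = 1 then 1 else 2)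

lemma lamZ_inj (m v w : ℕ) (h : lamZ m v = lamZ m w) : v = w := by
  unfold lamZ at h
  split_ifs at h <;> omega

theorem exists_flat_of_eq {n m e : ℕ} (hm : 1 ≤ m) (hn : n = 2 * m + 1 + 3 * e) :
    ∃ c₀ : KI n → KI n → ℂ, Inj 6 (Wp (fun _ => (1 : ℂ)) 0) (Bp (fun _ => (1 : ℂ)) 0 c₀) := by
  classical
  let t : Fin m ⊕ Fin e → Fin 3 → Fin n := fun k =>
    match k with
    | Sum.inl k => ![⟨2 * k.1, by omega⟩, ⟨2 * k.1 + 1, by omega⟩, ⟨2 * m, by omega⟩]
    | Sum.inr x => ![⟨2 * m + 1 + 3 * x.1, by omega⟩, ⟨2 * m + 2 + 3 * x.1, by omega⟩,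
        ⟨2 * m + 3 + 3 * x.1, by omega⟩]
  let lam : Fin n → ℂ := fun i => (lamZ m i.1 : ℂ)
  let α : Fin m ⊕ Fin e → ℂ := fun k =>
    match k with
    | Sum.inl k => ((4 * (k.1 + 1) : ℤ) : ℂ)
    | Sum.inr _ => 1
  have hl0 : ∀ k : Fin m, (t (Sum.inl k) 0).1 = 2 * k.1 := fun k => rfl
  have hl1 : ∀ k : Fin m, (t (Sum.inl k) 1).1 = 2 * k.1 + 1 := fun k => rfl
  have hl2 : ∀ k : Fin m, (t (Sum.inl k) 2).1 = 2 * m := fun k => rfl
  have hr0 : ∀ k : Fin e, (t (Sum.inr k) 0).1 = 2 * m + 1 + 3 * k.1 := fun k => rfl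
  have hr1 : ∀ k : Fin e, (t (Sum.inr k) 1).1 = 2 * m + 2 + 3 * k.1 := fun k => rfl
  have hr2 : ∀ k : Fin e, (t (Sum.inr k) 2).1 = 2 * m + 3 + 3 * k.1 := fun k => rfl
  have hrange : ∀ k (i : Fin n), i ∈ Set.range (t k) ↔
      i.1 = (t k 0).1 ∨ i.1 = (t k 1).1 ∨ i.1 = (t k 2).1 := by
    intro k i
    constructor
    · rintro ⟨a, rfl⟩
      fin_cases a
      · exact Or.inl rfl
      · exact Or.inr (Or.inl rfl)
      · exact Or.inr (Or.inr rfl)
    · rintro (h | h | h)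
      · exact ⟨0, Fin.ext h.symm⟩
      · exact ⟨1, Fin.ext h.symm⟩
      · exact ⟨2, Fin.ext h.symm⟩
  refine exists_flat_cover t lam α ?_ ?_ ?_ ?_ ?_ ?_ ?_ ?_
  · -- injectivity of the triples
    intro k a b hab
    have hab' : (t k a).1 = (t k b).1 := congrArg Fin.val hab
    have h01 : (t k 0).1 ≠ (t k 1).1 := by
      rcases k with k | k
      · rw [hl0, hl1]; omega
      · rw [hr0, hr1]; omega
    have h02 : (t k 0).1 ≠ (t k 2).1 := by
      rcases k with k | k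
      · have := k.2
        rw [hl0, hl2]; omega
      · rw [hr0, hr2]; omega
    have h12 : (t k 1).1 ≠ (t k 2).1 := by
      rcases k with k | k
      · rw [hl1, hl2]; omega
      · rw [hr1, hr2]; omega
    fin_cases a <;> fin_cases b
    · rfl
    · exact absurd hab' h01
    · exact absurd hab' h02
    · exact absurd hab'.symm h01
    · rfl
    · exact absurd hab' h12
    · exact absurd hab'.symm h02
    · exact absurd hab'.symm h12
    · rfl
  · -- distinct eigenvalues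
    intro i j hij
    have h' : ((lamZ m i.1 : ℤ) : ℂ) = ((lamZ m j.1 : ℤ) : ℂ) := hij
    have : lamZ m i.1 = lamZ m j.1 := by exact_mod_cast h'
    exact Fin.ext (lamZ_inj m _ _ this)
  · intro k
    rcases k with k | k
    · show ((4 * (k.1 + 1) : ℤ) : ℂ) ≠ 0
      have : (4 * ((k.1 : ℤ) + 1)) ≠ 0 := by omega
      exact_mod_cast this
    · exact one_ne_zero
  · intro k
    rcases k with k | k
    · show ((lamZ m (t (Sum.inl k) 0).1 : ℤ) : ℂ) = (lamZ m (t (Sum.inl k) 2).1 : ℤ) +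
        ((4 * (k.1 + 1) : ℤ) : ℂ)
      rw [hl0, hl2]
      have := k.2
      have h : lamZ m (2 * k.1) = lamZ m (2 * m) + 4 * (k.1 + 1) := by
        unfold lamZ
        split_ifs <;> omega
      rw [h]; push_cast; ring
    · show ((lamZ m (t (Sum.inr k) 0).1 : ℤ) : ℂ) = (lamZ m (t (Sum.inr k) 2).1 : ℤ) + 1
      rw [hr0, hr2]
      have h : lamZ m (2 * m + 1 + 3 * k.1) = lamZ m (2 * m + 3 + 3 * k.1) + 1 := by
        unfold lamZ
        split_ifs <;> omega
      rw [h]; push_cast; ring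
  · intro k
    rcases k with k | k
    · show ((lamZ m (t (Sum.inl k) 1).1 : ℤ) : ℂ) = (lamZ m (t (Sum.inl k) 2).1 : ℤ) -
        ((4 * (k.1 + 1) : ℤ) : ℂ)
      rw [hl1, hl2]
      have := k.2
      have h : lamZ m (2 * k.1 + 1) = lamZ m (2 * m) - 4 * (k.1 + 1) := by
        unfold lamZ
        split_ifs <;> omega
      rw [h]; push_cast; ring
    · show ((lamZ m (t (Sum.inr k) 1).1 : ℤ) : ℂ) = (lamZ m (t (Sum.inr k) 2).1 : ℤ) - 1
      rw [hr1, hr2]
      have h : lamZ m (2 * m + 2 + 3 * k.1) = lamZ m (2 * m + 3 + 3 * k.1) - 1 := by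
        unfold lamZ
        split_ifs <;> omega
      rw [h]; push_cast; ring
  · intro k k' hkk'
    rw [hrange]
    rcases k with k | k <;> rcases k' with k' | k'
    · have h : k'.1 ≠ k.1 := fun h => hkk' (by rw [Fin.ext h])
      rw [hl0, hl0, hl1, hl2]
      have := k.2; have := k'.2
      omega
    · rw [hr0, hl0, hl1, hl2]
      have := k.2; have := k'.2
      omega
    · rw [hl0, hr0, hr1, hr2]
      have := k.2; have := k'.2
      omega
    · have h : k'.1 ≠ k.1 := fun h => hkk' (by rw [Fin.ext h])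
      rw [hr0, hr0, hr1, hr2]
      have := k.2; have := k'.2
      omega
  · intro k k' hkk'
    rw [hrange, hrange]
    rcases k with k | k <;> rcases k' with k' | k'
    · have h : k'.1 ≠ k.1 := fun h => hkk' (by rw [Fin.ext h])
      rw [hl1, hl2, hl0, hl1, hl2]
      have := k.2; have := k'.2
      omega
    · rw [hr1, hr2, hl0, hl1, hl2]
      have := k.2; have := k'.2
      omega
    · rw [hl1, hl2, hr0, hr1, hr2]
      have := k.2; have := k'.2
      omega
    · have h : k'.1 ≠ k.1 := fun h => hkk' (by rw [Fin.ext h])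
      rw [hr1, hr2, hr0, hr1, hr2]
      have := k.2; have := k'.2
      omega
  · intro i
    suffices h : ∃ k, i.1 = (t k 0).1 ∨ i.1 = (t k 1).1 ∨ i.1 = (t k 2).1 by
      obtain ⟨k, hk⟩ := h
      exact ⟨k, (hrange k i).mpr hk⟩
    have hi := i.2
    by_cases h1 : i.1 < 2 * m
    · refine ⟨Sum.inl ⟨i.1 / 2, by omega⟩, ?_⟩
      rw [hl0, hl1, hl2]
      show i.1 = 2 * (i.1 / 2) ∨ i.1 = 2 * (i.1 / 2) + 1 ∨ i.1 = 2 * m
      omega
    · by_cases h2 : i.1 = 2 * m
      · refine ⟨Sum.inl ⟨0, by omega⟩, ?_⟩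
        rw [hl0, hl1, hl2]
        right; right; exact h2
      · refine ⟨Sum.inr ⟨(i.1 - 2 * m - 1) / 3, by omega⟩, ?_⟩
        rw [hr0, hr1, hr2]
        show i.1 = 2 * m + 1 + 3 * ((i.1 - 2 * m - 1) / 3) ∨
          i.1 = 2 * m + 2 + 3 * ((i.1 - 2 * m - 1) / 3) ∨
          i.1 = 2 * m + 3 + 3 * ((i.1 - 2 * m - 1) / 3)
        omega

/-- For every `n ≥ 3`, every non-degenerate signature and every curvature there is one quadratic
expression in the Killing fields whose truncated system at the origin has only the trivial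
solutions. -/
theorem exists_inj {n : ℕ} (hn : 3 ≤ n) (η : Fin n → ℂ) (hη : ∀ i, η i ≠ 0) (κ : ℂ) :
    ∃ k : ℕ, ∃ c : KI n → KI n → ℂ, Inj (k + 2) (Wp η κ) (Bp η κ c) := by
  by_cases h4 : n = 4
  · subst h4
    obtain ⟨c₀, hc₀⟩ := exists_flat_four
    obtain ⟨c, hc⟩ := exists_inj_of_flat c₀ hc₀ η hη κ
    exact ⟨2, c, hc⟩
  · obtain ⟨m, e, hm, hne⟩ : ∃ m e : ℕ, 1 ≤ m ∧ n = 2 * m + 1 + 3 * e := by
      by_cases hodd : n % 2 = 1
      · exact ⟨(n - 1) / 2, 0, by omega, by omega⟩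
      · exact ⟨(n - 4) / 2, 1, by omega, by omega⟩
    obtain ⟨c₀, hc₀⟩ := exists_flat_of_eq hm hne
    obtain ⟨c, hc⟩ := exists_inj_of_flat c₀ hc₀ η hη κ
    exact ⟨4, c, hc⟩

end Pool.Agent.H85.KT
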