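import Mathlib
import Pool.Agent.H85.KTModel

/-!
# Jets of smooth functions as truncated polynomials
-/

namespace Pool.Agent.H85.KT

open MvPolynomial Filter Topology
open scoped ContDiff

variable {n : ℕ}

/-- Partial derivative. -/
noncomputable def pd (i : Fin n) (F : (Fin n → ℝ) → ℝ) (x : Fin n → ℝ) : ℝ :=
  fderiv ℝ F x (Pi.single i 1)

/-- Smooth germ at `y`. -/
abbrev Sm (y : Fin n → ℝ) (F : (Fin n → ℝ) → ℝ) : Prop := ContDiffAt ℝ ∞ F y

lemma Sm.ev_diff {y : Fin n → ℝ} {F : (Fin n → ℝ) → ℝ} (h : Sm y F) :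
    ∀ᶠ x in 𝓝 y, DifferentiableAt ℝ F x := by
  have h1 : ContDiffAt ℝ 1 F y := h.of_le (by exact_mod_cast le_top)
  filter_upwards [h1.eventually (by norm_num)] with x hx
  exact hx.differentiableAt (by norm_num)

lemma Sm.pdS {y : Fin n → ℝ} {F : (Fin n → ℝ) → ℝ} (h : Sm y F) (i : Fin n) :
    Sm y (pd i F) := by
  have h1 : ContDiffAt ℝ ∞ (fderiv ℝ F) y := ContDiffAt.fderiv_right (n := ∞) h (by simp)
  have h2 : ContDiffAt ℝ ∞ (fun _ : Fin n → ℝ => (Pi.single i 1 : Fin n → ℝ)) y := contDiffAt_const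
  exact ContDiffAt.clm_apply h1 h2

lemma pd_congr {y : Fin n → ℝ} {F G : (Fin n → ℝ) → ℝ} (h : F =ᶠ[𝓝 y] G) (i : Fin n) :
    pd i F =ᶠ[𝓝 y] pd i G := by
  filter_upwards [Filter.EventuallyEq.fderiv (𝕜 := ℝ) h] with x hx
  simp only [pd, hx]

lemma pd_add {y : Fin n → ℝ} {F G : (Fin n → ℝ) → ℝ} (hF : Sm y F) (hG : Sm y G) (i : Fin n) :
    pd i (fun x => F x + G x) =ᶠ[𝓝 y] fun x => pd i F x + pd i G x := by
  filter_upwards [hF.ev_diff, hG.ev_diff] with x h1 h2
  simp only [pd]
  rw [fderiv_fun_add h1 h2]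
  rfl

lemma pd_sub {y : Fin n → ℝ} {F G : (Fin n → ℝ) → ℝ} (hF : Sm y F) (hG : Sm y G) (i : Fin n) :
    pd i (fun x => F x - G x) =ᶠ[𝓝 y] fun x => pd i F x - pd i G x := by
  filter_upwards [hF.ev_diff, hG.ev_diff] with x h1 h2
  simp only [pd]
  rw [fderiv_fun_sub h1 h2]
  rfl

lemma pd_mul {y : Fin n → ℝ} {F G : (Fin n → ℝ) → ℝ} (hF : Sm y F) (hG : Sm y G) (i : Fin n) :
    pd i (fun x => F x * G x) =ᶠ[𝓝 y] fun x => pd i F x * G x + F x * pd i G x := by
  filter_upwards [hF.ev_diff, hG.ev_diff] with x h1 h2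
  simp only [pd]
  rw [fderiv_fun_mul h1 h2]
  simp only [_root_.add_apply, _root_.smul_apply, smul_eq_mul]
  ring

lemma pd_const (a : ℝ) (i : Fin n) : pd i (fun _ : Fin n → ℝ => a) = fun _ => 0 := by
  funext x
  simp [pd]

/-- The `d`-jet of `F` at `y` is given by the coefficients of degree `≤ d` of `p`. -/
def Rep (y : Fin n → ℝ) : ℕ → MvPolynomial (Fin n) ℝ → ((Fin n → ℝ) → ℝ) → Prop
  | 0, p, F => coeff 0 p = F y
  | d + 1, p, F => coeff 0 p = F y ∧ ∀ i, Rep y d (pderiv i p) (pd i F)

variable {y : Fin n → ℝ} {d : ℕ} {p q : MvPolynomial (Fin n) ℝ} {F G : (Fin n → ℝ) → ℝ}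

lemma Rep.coeff_zero (h : Rep y d p F) : coeff 0 p = F y := by
  cases d with
  | zero => exact h
  | succ d => exact h.1

lemma Rep.pred (h : Rep y (d + 1) p F) : Rep y d p F := by
  induction d generalizing p F with
  | zero => exact h.1
  | succ d ih => exact ⟨h.1, fun i => ih (h.2 i)⟩

lemma Rep.congr (h : Rep y d p F) (hFG : F =ᶠ[𝓝 y] G) : Rep y d p G := by
  induction d generalizing p F G with
  | zero => exact Eq.trans h hFG.eq_of_nhds
  | succ d ih => exact ⟨h.1.trans hFG.eq_of_nhds, fun i => ih (h.2 i) (pd_congr hFG i)⟩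

lemma Rep.add (hp : Rep y d p F) (hq : Rep y d q G) (hF : Sm y F) (hG : Sm y G) :
    Rep y d (p + q) (fun x => F x + G x) := by
  induction d generalizing p q F G with
  | zero =>
    show coeff 0 (p + q) = F y + G y
    rw [coeff_add, hp.coeff_zero, hq.coeff_zero]
  | succ d ih =>
    refine ⟨by rw [coeff_add, hp.1, hq.1], fun i => ?_⟩
    rw [map_add]
    exact (ih (hp.2 i) (hq.2 i) (hF.pdS i) (hG.pdS i)).congr (pd_add hF hG i).symm

lemma Rep.sub (hp : Rep y d p F) (hq : Rep y d q G) (hF : Sm y F) (hG : Sm y G) :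
    Rep y d (p - q) (fun x => F x - G x) := by
  induction d generalizing p q F G with
  | zero =>
    show coeff 0 (p - q) = F y - G y
    rw [coeff_sub, hp.coeff_zero, hq.coeff_zero]
  | succ d ih =>
    refine ⟨by rw [coeff_sub, hp.1, hq.1], fun i => ?_⟩
    rw [map_sub]
    exact (ih (hp.2 i) (hq.2 i) (hF.pdS i) (hG.pdS i)).congr (pd_sub hF hG i).symm

lemma Rep.mul (hp : Rep y d p F) (hq : Rep y d q G) (hF : Sm y F) (hG : Sm y G) :
    Rep y d (p * q) (fun x => F x * G x) := by
  induction d generalizing p q F G with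
  | zero =>
    show coeff 0 (p * q) = F y * G y
    rw [← hp.coeff_zero, ← hq.coeff_zero, ← constantCoeff_eq, map_mul]
  | succ d ih =>
    refine ⟨?_, fun i => ?_⟩
    · show coeff 0 (p * q) = F y * G y
      rw [← hp.1, ← hq.1, ← constantCoeff_eq, map_mul]
    have h1 : pderiv i (p * q) = pderiv i p * q + p * pderiv i q := by
      rw [Derivation.leibniz]; simp only [smul_eq_mul]; ring
    rw [h1]
    have h2 := ih (hp.2 i) hq.pred (hF.pdS i) hG
    have h3 := ih hp.pred (hq.2 i) hF (hG.pdS i)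
    exact (h2.add h3 ((hF.pdS i).mul hG) (hF.mul (hG.pdS i))).congr (pd_mul hF hG i).symm

lemma Rep.zero : Rep y d 0 (fun _ => 0) := by
  induction d with
  | zero => simp [Rep]
  | succ d ih =>
    refine ⟨by simp, fun i => ?_⟩
    rw [map_zero, pd_const]
    exact ih

lemma Rep.sum {ι : Type*} (s : Finset ι) {P : ι → MvPolynomial (Fin n) ℝ}
    {Fs : ι → (Fin n → ℝ) → ℝ} (h : ∀ a ∈ s, Rep y d (P a) (Fs a)) (hF : ∀ a ∈ s, Sm y (Fs a)) :
    Rep y d (∑ a ∈ s, P a) (fun x => ∑ a ∈ s, Fs a x) := by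
  classical
  induction s using Finset.induction_on with
  | empty => simpa using Rep.zero
  | insert a s ha ih =>
    simp only [Finset.sum_insert ha]
    refine Rep.add (h a (Finset.mem_insert_self _ _))
      (ih (fun b hb => h b (Finset.mem_insert_of_mem hb))
        (fun b hb => hF b (Finset.mem_insert_of_mem hb)))
      (hF a (Finset.mem_insert_self _ _)) ?_
    exact ContDiffAt.sum fun b hb => hF b (Finset.mem_insert_of_mem hb)

lemma contDiff_eval (Q : MvPolynomial (Fin n) ℝ) : ContDiff ℝ ∞ (fun x : Fin n → ℝ => eval x Q) := by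
  induction Q using MvPolynomial.induction_on with
  | C a => simpa using contDiff_const
  | add p q hp hq => simpa using hp.add hq
  | mul_X p i hp =>
    simp only [map_mul, eval_X]
    exact hp.mul (contDiff_apply ℝ ℝ i)

lemma pd_eval (Q : MvPolynomial (Fin n) ℝ) (i : Fin n) :
    pd i (fun x : Fin n → ℝ => eval x Q) = fun x => eval x (pderiv i Q) := by
  classical
  induction Q using MvPolynomial.induction_on with
  | C a => simp [pd_const]
  | add p q hp hq =>
    funext x
    have h := (pd_add (y := x) (contDiff_eval p).contDiffAt (contDiff_eval q).contDiffAt i).eq_of_nhds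
    simp only [map_add]
    rw [h, hp, hq]
  | mul_X p j hp =>
    funext x
    have hX : Sm x (fun x : Fin n → ℝ => x j) := (contDiff_apply ℝ ℝ j).contDiffAt
    have h := (pd_mul (y := x) (contDiff_eval p).contDiffAt hX i).eq_of_nhds
    simp only [map_mul, eval_X]
    rw [h, hp, Derivation.leibniz]
    have h2 : pd i (fun x : Fin n → ℝ => x j) x = if j = i then 1 else 0 := by
      simp only [pd]
      have : fderiv ℝ (fun x : Fin n → ℝ => x j) x = ContinuousLinearMap.proj j := by
        exact (ContinuousLinearMap.proj (R := ℝ) (φ := fun _ : Fin n => ℝ) j).fderiv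
      rw [this]
      simp [Pi.single_apply]
    rw [h2]
    by_cases hij : j = i
    · subst hij; simp; ring
    · rw [pderiv_X_of_ne hij]; simp [hij]; ring

lemma Rep.eval (Q : MvPolynomial (Fin n) ℝ) : Rep y d (tr y Q) (fun x => eval x Q) := by
  induction d generalizing Q with
  | zero => exact coeff_zero_tr y Q
  | succ d ih =>
    refine ⟨coeff_zero_tr y Q, fun i => ?_⟩
    rw [pderiv_tr, pd_eval]
    exact ih _

lemma Rep.ord (h : Rep y d p (fun _ => 0)) : Ord (d + 1) p := by
  classical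
  induction d generalizing p with
  | zero =>
    intro m hm
    have : m = 0 := by rw [← Finsupp.degree_eq_zero_iff]; omega
    subst this
    exact h
  | succ d ih =>
    intro m hm
    by_cases h0 : m = 0
    · subst h0; exact h.1
    · obtain ⟨i, hi⟩ : ∃ i, m i ≠ 0 := by
        by_contra hall
        push Not at hall
        exact h0 (Finsupp.ext hall)
      have h1 := h.2 i
      rw [pd_const] at h1
      have h2 := ih h1
      obtain ⟨m', hm'⟩ : ∃ m', m = m' + Finsupp.single i 1 :=
        ⟨m - Finsupp.single i 1, (tsub_add_cancel_of_le (by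
          rw [Finsupp.single_le_iff]; omega)).symm⟩
      subst hm'
      rw [map_add, Finsupp.degree_single] at hm
      have h3 := h2 m' (by omega)
      rw [coeff_pderiv] at h3
      refine (mul_eq_zero.mp h3).resolve_right ?_
      positivity

/-- Iterated partial derivatives along a list. -/
noncomputable def Dl : List (Fin n) → ((Fin n → ℝ) → ℝ) → ((Fin n → ℝ) → ℝ)
  | [], F => F
  | i :: l, F => Dl l (pd i F)

lemma Dl_congr (l : List (Fin n)) (h : F =ᶠ[𝓝 y] G) : Dl l F =ᶠ[𝓝 y] Dl l G := by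
  induction l generalizing F G with
  | nil => exact h
  | cons i l ih => exact ih (pd_congr h i)

lemma pd_comm (hF : Sm y F) (i j : Fin n) : pd i (pd j F) =ᶠ[𝓝 y] pd j (pd i F) := by
  have h2 : ContDiffAt ℝ 2 F y := ContDiffAt.of_le hF (by norm_cast)
  filter_upwards [h2.eventually (by norm_num)] with x hx
  have hsymm : IsSymmSndFDerivAt ℝ F x := hx.isSymmSndFDerivAt (by simp)
  have hd : DifferentiableAt ℝ (fderiv ℝ F) x :=
    (hx.fderiv_right (m := 1) (by norm_num)).differentiableAt (by norm_num)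
  have key : ∀ a b : Fin n, pd a (pd b F) x = fderiv ℝ (fderiv ℝ F) x (Pi.single a 1) (Pi.single b 1) := by
    intro a b
    have : pd b F = fun x => (fderiv ℝ F x) (Pi.single b 1) := rfl
    rw [this]
    simp only [pd]
    rw [fderiv_clm_apply hd (differentiableAt_const _)]
    simp
  rw [key, key]
  exact hsymm.eq _ _

lemma Dl_perm {l l' : List (Fin n)} (h : l.Perm l') (hF : Sm y F) :
    Dl l F =ᶠ[𝓝 y] Dl l' F := by
  induction h generalizing F with
  | nil => exact EventuallyEq.rfl
  | cons i _ ih => exact ih (hF.pdS i)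
  | swap i j l => exact Dl_congr l (pd_comm hF i j)
  | trans _ _ ih1 ih2 => exact (ih1 hF).trans (ih2 hF)

/-- The multi-index of a list. -/
noncomputable def cnt (l : List (Fin n)) : Fin n →₀ ℕ := Multiset.toFinsupp (l : Multiset (Fin n))

lemma cnt_nil : cnt ([] : List (Fin n)) = 0 := by
  simp [cnt]

lemma cnt_cons (i : Fin n) (l : List (Fin n)) : cnt (i :: l) = cnt l + Finsupp.single i 1 := by
  simp only [cnt]
  rw [← Multiset.cons_coe, ← Multiset.singleton_add, map_add, Multiset.toFinsupp_singleton,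
    add_comm]

/-- The factorial of a multi-index. -/
def fac (m : Fin n →₀ ℕ) : ℝ := ∏ i, ((m i).factorial : ℝ)

lemma fac_zero : fac (0 : Fin n →₀ ℕ) = 1 := by simp [fac]

lemma fac_ne_zero (m : Fin n →₀ ℕ) : fac m ≠ 0 := by
  unfold fac
  exact Finset.prod_ne_zero_iff.mpr fun i _ => by positivity

lemma fac_add_single (m : Fin n →₀ ℕ) (i : Fin n) :
    fac (m + Finsupp.single i 1) = ((m i : ℝ) + 1) * fac m := by
  classical
  unfold fac
  rw [← Finset.mul_prod_erase Finset.univ _ (Finset.mem_univ i),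
    ← Finset.mul_prod_erase Finset.univ (fun j => ((m j).factorial : ℝ)) (Finset.mem_univ i)]
  have h1 : ∏ x ∈ Finset.univ.erase i, ((((m + Finsupp.single i 1 : Fin n →₀ ℕ)) x).factorial : ℝ) =
      ∏ x ∈ Finset.univ.erase i, ((m x).factorial : ℝ) := by
    refine Finset.prod_congr rfl fun x hx => ?_
    rw [Finsupp.add_apply, Finsupp.single_apply, if_neg (Finset.ne_of_mem_erase hx).symm, add_zero]
  rw [h1]
  simp only [Finsupp.add_apply, Finsupp.single_eq_same, Nat.factorial_succ]
  push_cast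
  ring

lemma rep_of_coeff (h : ∀ l : List (Fin n), l.length ≤ d → coeff (cnt l) p * fac (cnt l) = Dl l F y) :
    Rep y d p F := by
  induction d generalizing p F with
  | zero =>
    have := h [] (by simp)
    rw [cnt_nil, fac_zero, mul_one] at this
    exact this
  | succ d ih =>
    refine ⟨?_, fun i => ih fun l hl => ?_⟩
    · have := h [] (by simp)
      rw [cnt_nil, fac_zero, mul_one] at this
      exact this
    · have := h (i :: l) (by simp; omega)
      rw [cnt_cons, fac_add_single] at this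
      rw [coeff_pderiv]
      simp only [Dl] at this
      rw [← this]
      ring

/-- Existence of Taylor polynomials. -/
theorem exists_rep (hF : Sm y F) (N : ℕ) : ∃ p : MvPolynomial (Fin n) ℝ,
    (∀ m, coeff m p ≠ 0 → m.degree ≤ N) ∧ Rep y N p F := by
  classical
  have hfin : {m : Fin n →₀ ℕ | m.degree ≤ N}.Finite := Finsupp.finite_of_degree_le (σ := Fin n) N
  let p : MvPolynomial (Fin n) ℝ := ∑ m ∈ hfin.toFinset,
    monomial m (Dl (Finsupp.toMultiset m).toList F y / fac m)
  have hp : ∀ m, coeff m p = if m.degree ≤ N then Dl (Finsupp.toMultiset m).toList F y / fac m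
      else 0 := by
    intro m
    simp only [p, coeff_sum, coeff_monomial]
    split_ifs with h
    · rw [Finset.sum_eq_single m]
      · simp
      · intro b _ hb; rw [if_neg hb]
      · intro h'; exact absurd (by simpa using h) h'
    · refine Finset.sum_eq_zero fun b hb => ?_
      rw [if_neg]
      rintro rfl
      exact h (by simpa using hb)
  refine ⟨p, fun m hm => ?_, rep_of_coeff fun l hl => ?_⟩
  · rw [hp] at hm
    by_contra h
    rw [if_neg h] at hm
    exact hm rfl
  · have hdeg : (cnt l).degree = l.length := by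
      clear hl
      induction l with
      | nil => simp [cnt_nil]
      | cons i l ih => rw [cnt_cons, map_add, Finsupp.degree_single, ih, List.length_cons]
    rw [hp, if_pos (by omega), div_mul_cancel₀ _ (fac_ne_zero _)]
    refine (Dl_perm ?_ hF).eq_of_nhds
    rw [← Multiset.coe_eq_coe, Multiset.coe_toList, cnt, Multiset.toFinsupp_toMultiset]

/-- The jet of a local solution solves the truncated system. -/
theorem ord_of_solution {W : MvPolynomial (Fin n) ℝ} {B : Fin n → Fin n → MvPolynomial (Fin n) ℝ}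
    {k : ℕ} (hF : Sm y F) (hp : Rep y (k + 2) p F) (i j : Fin n)
    (b : Fin n → (Fin n → ℝ) → ℝ) (hb : ∀ j, b j = fun x => ∑ s, MvPolynomial.eval x (B j s) * pd s F x)
    (heq : (fun x => MvPolynomial.eval x W * (pd i (b j) x - pd j (b i) x) -
      2 * (MvPolynomial.eval x (pderiv i W) * b j x - MvPolynomial.eval x (pderiv j W) * b i x))
        =ᶠ[𝓝 y] fun _ => 0) :
    Ord (k + 1) (Form (tr y W) (fun a s => tr y (B a s)) p i j) := by
  have hsmB : ∀ Q : MvPolynomial (Fin n) ℝ, Sm y (fun x => MvPolynomial.eval x Q) :=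
    fun Q => (contDiff_eval Q).contDiffAt
  have hbs : ∀ j, Sm y (b j) := by
    intro j
    rw [hb]
    exact ContDiffAt.sum fun s _ => (hsmB _).mul (hF.pdS s)
  have hRb : ∀ j, Rep y (k + 1) (Bd (fun a s => tr y (B a s)) p j) (b j) := by
    intro j
    rw [hb]
    refine Rep.sum _ (fun s _ => ?_) (fun s _ => (hsmB _).mul (hF.pdS s))
    exact (Rep.eval (B j s)).mul (hp.2 s) (hsmB _) (hF.pdS s)
  have hRW : ∀ Q : MvPolynomial (Fin n) ℝ, Rep y k (tr y Q) (fun x => MvPolynomial.eval x Q) :=
    fun Q => Rep.eval Q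
  have h2 : Rep y k (2 : MvPolynomial (Fin n) ℝ) (fun _ => (2 : ℝ)) := by
    have := Rep.eval (y := y) (d := k) (C (2 : ℝ) : MvPolynomial (Fin n) ℝ)
    rw [tr_C, map_ofNat] at this
    simpa using this
  have hfinal : Rep y k (Form (tr y W) (fun a s => tr y (B a s)) p i j)
      (fun x => MvPolynomial.eval x W * (pd i (b j) x - pd j (b i) x) -
      2 * (MvPolynomial.eval x (pderiv i W) * b j x - MvPolynomial.eval x (pderiv j W) * b i x)) := by
    have e1 := (hRW W).mul (((hRb j).2 i).sub ((hRb i).2 j) ((hbs j).pdS i) ((hbs i).pdS j))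
      (hsmB W) (((hbs j).pdS i).sub ((hbs i).pdS j))
    have e2 := ((hRW (pderiv i W)).mul (hRb j).pred (hsmB _) (hbs j)).sub
      ((hRW (pderiv j W)).mul (hRb i).pred (hsmB _) (hbs i))
      ((hsmB _).mul (hbs j)) ((hsmB _).mul (hbs i))
    have e3 := h2.mul e2 contDiffAt_const (((hsmB _).mul (hbs j)).sub ((hsmB _).mul (hbs i)))
    have e4 := e1.sub e3 ((hsmB W).mul (((hbs j).pdS i).sub ((hbs i).pdS j)))
      (contDiffAt_const.mul (((hsmB _).mul (hbs j)).sub ((hsmB _).mul (hbs i))))
    unfold Form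
    rw [pderiv_tr, pderiv_tr]
    exact e4
  exact (hfinal.congr heq).ord

end Pool.Agent.H85.KT
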