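import Mathlib
import Pool.Agent.H85.KTForm

/-!
# Trivial high order solutions and the conclusion on first jets
-/

namespace Pool.Agent.H85.KT

open MvPolynomial

section tvec

variable {n : ℕ} {R : Type*} [CommRing R]

/-- The linear form with coefficients `ξ`. -/
noncomputable def lin (ξ : Fin n → R) : MvPolynomial (Fin n) R := ∑ s, C (ξ s) * X s

lemma pderiv_lin (ξ : Fin n → R) (i : Fin n) : pderiv i (lin ξ) = C (ξ i) := by
  classical
  simp only [lin, map_sum, pderiv_C_mul]
  rw [Finset.sum_eq_single i]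
  · simp
  · intro j _ hj
    rw [pderiv_X_of_ne hj, mul_zero]
  · intro h; exact absurd (Finset.mem_univ _) h

lemma ord_lin (ξ : Fin n → R) : Ord 1 (lin ξ) :=
  Ord.sum _ fun s _ => (ord_X s).mul_left _

lemma eval_lin (ξ v : Fin n → R) : eval v (lin ξ) = ∑ s, ξ s * v s := by
  simp [lin, map_sum]

lemma isHomogeneous_lin_pow (ξ : Fin n → R) (N : ℕ) : (lin ξ ^ N).IsHomogeneous N := by
  have h : (lin ξ).IsHomogeneous 1 := by
    refine IsHomogeneous.sum _ _ _ fun s _ => ?_
    simpa using (isHomogeneous_C (Fin n) (ξ s)).mul (isHomogeneous_X R s)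
  simpa using h.pow N

/-- Powers of eigen-covectors solve the truncated system. -/
lemma ord_Form_lin_pow (W : MvPolynomial (Fin n) R) (B : Fin n → Fin n → MvPolynomial (Fin n) R)
    (ξ : Fin n → R) (β : R) (hβ : ∀ j, ∑ s, coeff 0 (B j s) * ξ s = β * ξ j) (k : ℕ)
    (i j : Fin n) : Ord (k + 1) (Form W B (lin ξ ^ (k + 2)) i j) := by
  set L := lin ξ with hL
  have hp : ∀ s, pderiv s (L ^ (k + 2)) = ((k : MvPolynomial (Fin n) R) + 2) * L ^ (k + 1) * C (ξ s) := by
    intro s
    rw [pderiv_pow, hL, pderiv_lin]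
    push_cast
    rfl
  let r : Fin n → MvPolynomial (Fin n) R := fun j => ∑ s, (B j s - C (coeff 0 (B j s))) * C (ξ s)
  have hr : ∀ j, Ord 1 (r j) := fun j => Ord.sum _ fun s _ => (ord_sub_const _).mul_right _
  have hB : ∀ j, Bd B (L ^ (k + 2)) j =
      ((k : MvPolynomial (Fin n) R) + 2) * (L ^ (k + 1) * (C (β * ξ j) + r j)) := by
    intro j
    have h1 : C (β * ξ j) + r j = ∑ s, B j s * C (ξ s) := by
      rw [← hβ j, map_sum, ← Finset.sum_add_distrib]
      refine Finset.sum_congr rfl fun s _ => ?_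
      rw [C_mul]; ring
    rw [h1]
    simp only [Bd, hp, Finset.mul_sum]
    refine Finset.sum_congr rfl fun s _ => ?_
    ring
  have hLk : ∀ m, Ord m (L ^ m) := fun m => (ord_lin ξ).pow_X_lin
  have hdL : ∀ i, pderiv i (L ^ (k + 1)) = ((k : MvPolynomial (Fin n) R) + 1) * L ^ k * C (ξ i) := by
    intro i
    rw [pderiv_pow, hL, pderiv_lin]
    push_cast
    rfl
  have hdB : ∀ i j, pderiv i (Bd B (L ^ (k + 2)) j) = ((k : MvPolynomial (Fin n) R) + 2) *
      (((k : MvPolynomial (Fin n) R) + 1) * L ^ k * C (ξ i) * (C (β * ξ j) + r j) +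
        L ^ (k + 1) * pderiv i (r j)) := by
    intro i j
    rw [hB]
    have h0 : pderiv i (((k : MvPolynomial (Fin n) R) + 2)) = 0 := by
      have : ((k : MvPolynomial (Fin n) R) + 2) = C ((k : R) + 2) := by
        rw [map_add, map_natCast, map_ofNat]
      rw [this, pderiv_C]
    rw [Derivation.leibniz, h0, Derivation.leibniz, hdL, map_add, pderiv_C]
    simp only [smul_eq_mul]
    ring
  unfold Form
  refine Ord.sub ?_ ?_
  · refine Ord.mul_left _ ?_
    have : pderiv i (Bd B (L ^ (k + 2)) j) - pderiv j (Bd B (L ^ (k + 2)) i) =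
        ((k : MvPolynomial (Fin n) R) + 2) *
        (((k : MvPolynomial (Fin n) R) + 1) * (L ^ k * (C (ξ i) * r j - C (ξ j) * r i)) +
          L ^ (k + 1) * (pderiv i (r j) - pderiv j (r i))) := by
      rw [hdB, hdB]
      simp only [C_mul]
      ring
    rw [this]
    refine Ord.mul_left _ (Ord.add (Ord.mul_left _ ?_) ((hLk (k + 1)).mul_right _))
    exact (hLk k).mul (((hr j).mul_left _).sub ((hr i).mul_left _))
  · have hOB : ∀ j, Ord (k + 1) (Bd B (L ^ (k + 2)) j) := by
      intro j
      rw [hB]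
      exact Ord.mul_left _ ((hLk (k + 1)).mul_right _)
    exact Ord.mul_left _ (((hOB j).mul_left _).sub ((hOB i).mul_left _))

end tvec

section span

variable {n : ℕ} {K : Type*} [Field K]

/-- If the only solutions of the truncated system are the trivial ones, then every solution has
vanishing first jet. -/
theorem first_jet_eq_zero {k : ℕ} {W : MvPolynomial (Fin n) K}
    {B : Fin n → Fin n → MvPolynomial (Fin n) K} (hInj : Inj (k + 2) W B)
    (ξ : Fin n → Fin n → K) (β : Fin n → K) (hli : LinearIndependent K ξ)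
    (hβ : ∀ a j, ∑ s, coeff 0 (B j s) * ξ a s = β a * ξ a j)
    (q : MvPolynomial (Fin n) K) (hq1 : ∀ m, coeff m q ≠ 0 → 1 ≤ m.degree ∧ m.degree ≤ k + 2)
    (hq2 : ∀ i j, Ord (k + 1) (Form W B q i j)) (s : Fin n) :
    coeff (Finsupp.single s 1) q = 0 := by
  classical
  let T : (Fin n → K) →ₗ[K] MvPolynomial (Fin n) K :=
    ∑ a, (LinearMap.proj a : (Fin n → K) →ₗ[K] K).smulRight (lin (ξ a) ^ (k + 2))
  have hT : ∀ b, T b = ∑ a, C (b a) * lin (ξ a) ^ (k + 2) := by
    intro b
    simp [T, LinearMap.sum_apply, C_mul']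
  have hTdeg : ∀ b m, m.degree ≠ k + 2 → coeff m (T b) = 0 := by
    intro b m hm
    rw [hT, coeff_sum]
    refine Finset.sum_eq_zero fun a _ => ?_
    rw [coeff_C_mul, (isHomogeneous_lin_pow (ξ a) (k + 2)).coeff_eq_zero hm, mul_zero]
  have hTform : ∀ b i j, Ord (k + 1) (Form W B (T b) i j) := by
    intro b i j
    rw [hT, Form_sum]
    refine Ord.sum _ fun a _ => ?_
    rw [Form_C_mul]
    exact (ord_Form_lin_pow W B (ξ a) (β a) (hβ a) k i j).mul_left _
  let P : (Fin n → K) →ₗ[K] (Fin n → K) :=
    LinearMap.pi (fun i => (MvPolynomial.lcoeff K (Finsupp.single i (k + 2))).comp T)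
  have hP : ∀ b i, P b i = coeff (Finsupp.single i (k + 2)) (T b) := fun b i => rfl
  -- invertibility of the matrix of eigen-covectors
  have hunit : IsUnit (Matrix.of ξ) := Matrix.linearIndependent_rows_iff_isUnit.mp hli
  have hsurj : ∀ a₀ : Fin n, ∃ v : Fin n → K, ∀ a, ∑ s, ξ a s * v s = if a = a₀ then 1 else 0 := by
    intro a₀
    obtain ⟨v, hv⟩ := (Matrix.mulVec_surjective_iff_isUnit.mpr hunit) (Pi.single a₀ 1)
    refine ⟨v, fun a => ?_⟩
    have := congrFun hv a
    rw [Pi.single_apply] at this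
    exact this
  have hPinj : Function.Injective P := by
    rw [injective_iff_map_eq_zero]
    intro b hb
    have h0 : T b = 0 := by
      apply hInj
      · intro m hm
        have : m.degree = k + 2 := by
          by_contra h; exact hm (hTdeg b m h)
        omega
      · intro i
        rw [← hP, hb]; rfl
      · exact hTform b
    funext a₀
    obtain ⟨v, hv⟩ := hsurj a₀
    have h1 := congrArg (eval v) h0
    rw [hT, map_sum, map_zero] at h1
    simp only [map_mul, eval_C, map_pow, eval_lin, hv] at h1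
    rw [Finset.sum_eq_single a₀] at h1
    · simpa using h1
    · intro a _ ha
      rw [if_neg ha]
      simp
    · intro h; exact absurd (Finset.mem_univ _) h
  obtain ⟨b, hb⟩ := (LinearMap.injective_iff_surjective.mp hPinj)
    (fun i => coeff (Finsupp.single i (k + 2)) q)
  have hqT : q - T b = 0 := by
    apply hInj
    · intro m hm
      by_cases h : m.degree = k + 2
      · omega
      · apply hq1
        rw [coeff_sub, hTdeg b m h, sub_zero] at hm
        exact hm
    · intro i
      rw [coeff_sub, ← hP, hb, sub_self]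
    · intro i j
      rw [Form_sub]
      exact (hq2 i j).sub (hTform b i j)
  rw [sub_eq_zero.mp hqT]
  apply hTdeg
  rw [Finsupp.degree_single]
  omega

end span

section eig

open Polynomial in
/-- A complex matrix whose characteristic polynomial is coprime to its derivative has a basis of
eigenvectors. -/
theorem exists_eigenvectors {n : ℕ} (M : Matrix (Fin n) (Fin n) ℂ)
    (h : IsCoprime M.charpoly (derivative M.charpoly)) :
    ∃ (ξ : Fin n → Fin n → ℂ) (β : Fin n → ℂ), LinearIndependent ℂ ξ ∧
      ∀ a j, ∑ s, M j s * ξ a s = β a * ξ a j := by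
  classical
  have hsep : M.charpoly.Separable := h
  have hsplit : M.charpoly.Splits := IsAlgClosed.splits _
  have hcard : M.charpoly.roots.card = n := by
    rw [← hsplit.natDegree_eq_card_roots, Matrix.charpoly_natDegree_eq_dim, Fintype.card_fin]
  have hnd : M.charpoly.roots.Nodup := nodup_roots hsep
  have hfs : M.charpoly.roots.toFinset.card = n := by
    rw [Multiset.toFinset_card_of_nodup hnd, hcard]
  let e : Fin n ≃ M.charpoly.roots.toFinset := (Finset.equivFinOfCardEq hfs).symm
  let β : Fin n → ℂ := fun a => (e a).1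
  have hβinj : Function.Injective β := fun a b hab => e.injective (Subtype.ext hab)
  have hroot : ∀ a, M.charpoly.IsRoot (β a) := fun a =>
    isRoot_of_mem_roots (Multiset.mem_toFinset.mp (e a).2)
  have hex : ∀ a, ∃ v : Fin n → ℂ, v ≠ 0 ∧ M.mulVec v = β a • v := by
    intro a
    have h1 : (Matrix.scalar (Fin n) (β a) - M).det = 0 := by
      rw [← Matrix.eval_charpoly]
      exact hroot a
    obtain ⟨v, hv0, hv⟩ := Matrix.exists_mulVec_eq_zero_iff.mpr h1
    refine ⟨v, hv0, ?_⟩
    rw [Matrix.sub_mulVec, sub_eq_zero] at hv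
    rw [← hv, Matrix.scalar_apply, ← Matrix.smul_one_eq_diagonal, Matrix.smul_mulVec,
      Matrix.one_mulVec]
  choose ξ hξ0 hξ using hex
  refine ⟨ξ, β, ?_, fun a j => ?_⟩
  · refine Module.End.eigenvectors_linearIndependent' (Matrix.toLin' M) β hβinj ξ ?_
    intro a
    refine ⟨?_, hξ0 a⟩
    rw [Module.End.mem_eigenspace_iff, Matrix.toLin'_apply, hξ]
  · have := congrFun (hξ a) j
    simpa [Matrix.mulVec, dotProduct] using this

end eig

end Pool.Agent.H85.KT
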