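import Mathlib
import Pool.Agent.H85.KTExist
import Pool.Agent.H85.KTJets
import Pool.Agent.H85.KTSpan

/-!
# Generic quadratic expressions in the Killing fields have only constant conservation laws
-/

set_option linter.unusedSimpArgs false

namespace Pool.Agent.H85.KT

open MvPolynomial Filter Topology
open scoped ContDiff

section universal

variable {n : ℕ}

/-- Variables of the universal coefficient ring. -/
abbrev Sg (n : ℕ) := (KI n × KI n) ⊕ Fin n

/-- Universal coefficients. -/
noncomputable def cU (n : ℕ) (a b : KI n) : MvPolynomial (Sg n) ℝ := X (Sum.inl (a, b))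

/-- Universal base point. -/
noncomputable def yU (n : ℕ) (i : Fin n) : MvPolynomial (Sg n) ℝ := X (Sum.inr i)

noncomputable def WU (η : Fin n → ℝ) (κ : ℝ) : MvPolynomial (Fin n) (MvPolynomial (Sg n) ℝ) :=
  tr (yU n) (Wp (fun i => C (η i)) (C κ))

noncomputable def BU (η : Fin n → ℝ) (κ : ℝ) (j s : Fin n) :
    MvPolynomial (Fin n) (MvPolynomial (Sg n) ℝ) :=
  tr (yU n) (Bp (fun i => C (η i)) (C κ) (cU n) j s)

/-- Evaluation of the universal ring at a complex point. -/
noncomputable def evC (c : KI n → KI n → ℂ) (y : Fin n → ℂ) : MvPolynomial (Sg n) ℝ →+* ℂ :=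
  eval₂Hom (algebraMap ℝ ℂ) (Sum.elim (fun ab => c ab.1 ab.2) y)

lemma evC_C (c : KI n → KI n → ℂ) (y : Fin n → ℂ) (a : ℝ) : evC c y (C a) = (a : ℂ) := by
  simp [evC]

lemma evC_cU (c : KI n → KI n → ℂ) (y : Fin n → ℂ) (a b : KI n) : evC c y (cU n a b) = c a b := by
  simp [evC, cU]

lemma evC_yU (c : KI n → KI n → ℂ) (y : Fin n → ℂ) (i : Fin n) : evC c y (yU n i) = y i := by
  simp [evC, yU]

lemma map_WU (η : Fin n → ℝ) (κ : ℝ) (c : KI n → KI n → ℂ) (y : Fin n → ℂ) :
    map (evC c y) (WU η κ) = tr y (Wp (fun i => (η i : ℂ)) (κ : ℂ)) := by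
  unfold WU
  rw [map_tr, map_Wp]
  simp only [evC_C, evC_yU]

lemma map_BU (η : Fin n → ℝ) (κ : ℝ) (c : KI n → KI n → ℂ) (y : Fin n → ℂ) (j s : Fin n) :
    map (evC c y) (BU η κ j s) = tr y (Bp (fun i => (η i : ℂ)) (κ : ℂ) c j s) := by
  unfold BU
  rw [map_tr, map_Bp]
  simp only [evC_C, evC_yU, evC_cU]

/-- Evaluation of the universal ring at a real point. -/
lemma evC_real (c : KI n → KI n → ℝ) (y : Fin n → ℝ) (p : MvPolynomial (Sg n) ℝ) :
    evC (fun a b => (c a b : ℂ)) (fun i => (y i : ℂ)) p =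
      ((eval (Sum.elim (fun ab : KI n × KI n => c ab.1 ab.2) y) p : ℝ) : ℂ) := by
  induction p using MvPolynomial.induction_on with
  | C a => simp [evC]
  | add p q hp hq => simp only [map_add, hp, hq, Complex.ofReal_add]
  | mul_X p i hp =>
    rw [map_mul, map_mul, hp, eval_X, Complex.ofReal_mul]
    congr 1
    rcases i with i | i <;> simp [evC]

end universal

section resultant

variable {n : ℕ}

open Polynomial in
/-- The resultant of the characteristic polynomial and its derivative, universal version. -/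
noncomputable def RU (η : Fin n → ℝ) (κ : ℝ) : MvPolynomial (Sg n) ℝ :=
  Polynomial.resultant (Matrix.charpoly (Matrix.of fun j s => coeff 0 (BU η κ j s)))
    (derivative (Matrix.charpoly (Matrix.of fun j s => coeff 0 (BU η κ j s)))) n (n - 1)

open Polynomial in
lemma evC_RU (η : Fin n → ℝ) (κ : ℝ) (c : KI n → KI n → ℂ) (y : Fin n → ℂ) :
    evC c y (RU η κ) ≠ 0 ↔
      IsCoprime (Matrix.charpoly (Matrix.of fun j s =>
        MvPolynomial.coeff 0 (tr y (Bp (fun i => (η i : ℂ)) (κ : ℂ) c j s))))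
        (derivative (Matrix.charpoly (Matrix.of fun j s =>
        MvPolynomial.coeff 0 (tr y (Bp (fun i => (η i : ℂ)) (κ : ℂ) c j s))))) := by
  set M : Matrix (Fin n) (Fin n) ℂ := Matrix.of fun j s =>
        MvPolynomial.coeff 0 (tr y (Bp (fun i => (η i : ℂ)) (κ : ℂ) c j s)) with hM
  have hmap : (Matrix.charpoly (Matrix.of fun j s => MvPolynomial.coeff 0 (BU η κ j s))).map
      (evC c y) = M.charpoly := by
    rw [← Matrix.charpoly_map]
    congr 1
    ext j s
    simp only [Matrix.map_apply, Matrix.of_apply, hM]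
    rw [← map_BU η κ c y j s, MvPolynomial.coeff_map]
  have h1 : evC c y (RU η κ) = Polynomial.resultant M.charpoly (derivative M.charpoly) n (n - 1) := by
    unfold RU
    rw [← Polynomial.resultant_map_map, ← Polynomial.derivative_map, hmap]
  have hd1 : M.charpoly.natDegree = n := by
    rw [Matrix.charpoly_natDegree_eq_dim, Fintype.card_fin]
  have hd2 : (derivative M.charpoly).natDegree = n - 1 := by
    rw [Polynomial.natDegree_derivative, hd1]
  have h2 : Polynomial.resultant M.charpoly (derivative M.charpoly) n (n - 1) =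
      Polynomial.resultant M.charpoly (derivative M.charpoly) := by
    rw [hd1, hd2]
  rw [h1, h2, Ne, Polynomial.resultant_eq_zero_iff]
  have hne : M.charpoly ≠ 0 := (Matrix.charpoly_monic M).ne_zero
  constructor
  · intro h
    by_contra h'
    exact h ⟨Or.inl hne, h'⟩
  · intro h h'
    exact h'.2 h

/-- The universal resultant does not vanish identically. -/
lemma exists_evC_RU_ne_zero (η : Fin n → ℝ) (hη : ∀ i, η i ≠ 0) (κ : ℝ) :
    ∃ c : KI n → KI n → ℂ, evC c (fun _ => 0) (RU η κ) ≠ 0 := by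
  classical
  refine ⟨cdiag (fun i => (i.1 : ℂ) / η i), ?_⟩
  rw [evC_RU]
  set lam : Fin n → ℂ := fun i => (i.1 : ℂ) / η i with hlam
  have hK : ∀ j s, eval (fun _ => (0 : ℂ)) (Kup (fun i => (η i : ℂ)) (κ : ℂ) (cdiag lam) j s) =
      if j = s then lam j else 0 := by
    intro j s
    have h1 : (cdiag lam : KI n → KI n → ℂ) =
      fun a b => ∑ i ∈ Finset.univ, E1 (Sum.inl i) (Sum.inl i) (lam i / 2) a b := rfl
    rw [h1, Kup_sum, map_sum]
    simp only [Kup_E1]
    by_cases h : j = s
    · subst h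
      rw [Finset.sum_eq_single j, if_pos rfl]
      · simp [Kp]; ring
      · intro i _ hi
        simp [Kp, Ne.symm hi]
      · intro h; exact absurd (Finset.mem_univ _) h
    · rw [if_neg h]
      refine Finset.sum_eq_zero fun i _ => ?_
      by_cases h1 : j = i
      · subst h1
        simp [Kp, Ne.symm h]
      · simp [Kp, h1]
  have hG : ∀ j i, eval (fun _ => (0 : ℂ)) (Gp (fun i => (η i : ℂ)) (κ : ℂ) j i) =
      if j = i then (η j : ℂ) else 0 := by
    intro j i
    by_cases h : j = i
    · subst h; simp [Gp, Wp]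
    · simp [Gp, h]
  have hM : (Matrix.of fun j s =>
        coeff 0 (tr (fun _ => (0 : ℂ)) (Bp (fun i => (η i : ℂ)) (κ : ℂ) (cdiag lam) j s))) =
      Matrix.diagonal (fun j : Fin n => (j.1 : ℂ)) := by
    ext j s
    rw [Matrix.of_apply, coeff_zero_tr]
    unfold Bp
    rw [map_sum, Finset.sum_eq_single j]
    · rw [map_mul, hG, hK, if_pos rfl, Matrix.diagonal_apply]
      by_cases h : j = s
      · subst h
        simp only [if_true, hlam]
        have : (η j : ℂ) ≠ 0 := by exact_mod_cast hη j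
        field_simp
      · simp [h]
    · intro i _ hi
      rw [map_mul, hG, if_neg (Ne.symm hi), zero_mul]
    · intro h; exact absurd (Finset.mem_univ _) h
  rw [hM]
  have hch : (Matrix.diagonal (fun j : Fin n => (j.1 : ℂ))).charpoly =
      ∏ j : Fin n, (Polynomial.X - Polynomial.C (j.1 : ℂ)) := by
    unfold Matrix.charpoly
    have : (Matrix.diagonal (fun j : Fin n => (j.1 : ℂ))).charmatrix =
        Matrix.diagonal (fun j : Fin n => (Polynomial.X - Polynomial.C (j.1 : ℂ))) := by
      ext1 i j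
      by_cases h : i = j
      · subst h; simp [Matrix.charmatrix]
      · simp [Matrix.charmatrix, h]
    rw [this, Matrix.det_diagonal]
  rw [hch]
  have hsep : (∏ j : Fin n, (Polynomial.X - Polynomial.C (j.1 : ℂ))).Separable := by
    rw [Polynomial.separable_prod_X_sub_C_iff]
    intro i j hij
    have : (i.1 : ℂ) = (j.1 : ℂ) := hij
    exact Fin.ext (by exact_mod_cast this)
  exact hsep

end resultant

section local_thm

variable {n : ℕ}

/-- At a good point all first derivatives of a conservation law vanish. -/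
theorem first_derivs_zero {η : Fin n → ℝ} {κ : ℝ} {k : ℕ} {D : MvPolynomial (Sg n) ℝ}
    (hD : ∀ φ : MvPolynomial (Sg n) ℝ →+* ℂ, φ D ≠ 0 →
      Inj (k + 2) (map φ (WU η κ)) (fun a b => map φ (BU η κ a b)))
    (c : KI n → KI n → ℝ) (y : Fin n → ℝ)
    (h : eval (Sum.elim (fun ab : KI n × KI n => c ab.1 ab.2) y) (D * RU η κ) ≠ 0)
    (F : (Fin n → ℝ) → ℝ) (hF : Sm y F) (b : Fin n → (Fin n → ℝ) → ℝ)
    (hb : ∀ j, b j = fun x => ∑ s, eval x (Bp η κ c j s) * pd s F x)
    (heq : ∀ i j, (fun x => eval x (Wp η κ) * (pd i (b j) x - pd j (b i) x) -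
      2 * (eval x (pderiv i (Wp η κ)) * b j x - eval x (pderiv j (Wp η κ)) * b i x))
        =ᶠ[𝓝 y] fun _ => 0) (s : Fin n) : pd s F y = 0 := by
  rw [map_mul] at h
  have hD0 := left_ne_zero_of_mul h
  have hR0 := right_ne_zero_of_mul h
  obtain ⟨p, hpdeg, hpR⟩ := exists_rep hF (k + 2)
  have hord : ∀ i j, Ord (k + 1) (Form (tr y (Wp η κ)) (fun a s => tr y (Bp η κ c a s)) p i j) :=
    fun i j => ord_of_solution hF hpR i j b hb (heq i j)
  -- complexification
  set cC : KI n → KI n → ℂ := fun a b => (c a b : ℂ) with hcC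
  set yC : Fin n → ℂ := fun i => (y i : ℂ) with hyC
  have hInj : Inj (k + 2) (tr yC (Wp (fun i => (η i : ℂ)) (κ : ℂ)))
      (fun a s => tr yC (Bp (fun i => (η i : ℂ)) (κ : ℂ) cC a s)) := by
    have := hD (evC cC yC) (by rw [evC_real]; exact_mod_cast hD0)
    simpa only [map_WU, map_BU] using this
  have hcop := (evC_RU η κ cC yC).mp (by rw [evC_real]; exact_mod_cast hR0)
  obtain ⟨ξ, β, hli, hξ⟩ := exists_eigenvectors _ hcop
  let q : MvPolynomial (Fin n) ℂ := map (algebraMap ℝ ℂ) (p - C (coeff 0 p))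
  have hFormC : ∀ (W : MvPolynomial (Fin n) ℝ) (B : Fin n → Fin n → MvPolynomial (Fin n) ℝ)
      (a : ℝ) (i j : Fin n), Form W B (p - C a) i j = Form W B p i j := by
    intro W B a i j
    rw [Form_sub]
    have : Form W B (C a) i j = 0 := by simp [Form, Bd]
    rw [this, sub_zero]
  have hW : map (algebraMap ℝ ℂ) (tr y (Wp η κ)) = tr yC (Wp (fun i => (η i : ℂ)) (κ : ℂ)) := by
    rw [map_tr, map_Wp]; rfl
  have hB : ∀ a s, map (algebraMap ℝ ℂ) (tr y (Bp η κ c a s)) =
      tr yC (Bp (fun i => (η i : ℂ)) (κ : ℂ) cC a s) := by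
    intro a s
    rw [map_tr, map_Bp]; rfl
  have hq1 : ∀ m, coeff m q ≠ 0 → 1 ≤ m.degree ∧ m.degree ≤ k + 2 := by
    intro m hm
    rw [coeff_map] at hm
    have hm' : coeff m (p - C (coeff 0 p)) ≠ 0 := fun h0 => hm (by rw [h0, map_zero])
    have hm0 : m ≠ 0 := by
      rintro rfl
      apply hm'
      simp
    have hmd : 1 ≤ m.degree := by
      rw [Nat.one_le_iff_ne_zero]
      intro h0
      exact hm0 ((Finsupp.degree_eq_zero_iff m).mp h0)
    refine ⟨hmd, hpdeg m ?_⟩
    rw [coeff_sub, coeff_C, if_neg (Ne.symm hm0), sub_zero] at hm'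
    exact hm'
  have hq2 : ∀ i j, Ord (k + 1) (Form (tr yC (Wp (fun i => (η i : ℂ)) (κ : ℂ)))
      (fun a s => tr yC (Bp (fun i => (η i : ℂ)) (κ : ℂ) cC a s)) q i j) := by
    intro i j
    have h1 : Ord (k + 1) (Form (tr y (Wp η κ)) (fun a s => tr y (Bp η κ c a s))
        (p - C (coeff 0 p)) i j) := by
      rw [hFormC]; exact hord i j
    have h2 := h1.map (algebraMap ℝ ℂ)
    rw [map_Form, hW] at h2
    simpa only [hB] using h2
  have h0 := first_jet_eq_zero hInj ξ β hli (fun a j => hξ a j) q hq1 hq2 s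
  rw [coeff_map, coeff_sub, coeff_C, if_neg, sub_zero] at h0
  · have h1 : coeff (Finsupp.single s 1) p = 0 := by
      have : ((coeff (Finsupp.single s 1) p : ℝ) : ℂ) = 0 := h0
      exact_mod_cast this
    have h2 := (hpR.2 s).coeff_zero
    rw [coeff_pderiv, zero_add, h1, zero_mul] at h2
    exact h2.symm
  · intro h'
    have := congrArg Finsupp.degree h'
    simp at this

end local_thm

section global_thm

variable {n : ℕ}

/-- Main theorem, polynomial data version. -/
theorem main_poly (hn : 3 ≤ n) (η : Fin n → ℝ) (hη : ∀ i, η i ≠ 0) (κ : ℝ) :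
    ∃ P : MvPolynomial (KI n × KI n) ℝ, P ≠ 0 ∧ ∀ c : KI n → KI n → ℝ,
      eval (fun ab => c ab.1 ab.2) P ≠ 0 → ∀ U : Set (Fin n → ℝ), IsOpen U → IsPreconnected U →
      ∀ F : (Fin n → ℝ) → ℝ, ContDiffOn ℝ ∞ F U →
      (∀ x ∈ U, ∀ i j, eval x (Wp η κ) *
          (pd i (fun x => ∑ s, eval x (Bp η κ c j s) * pd s F x) x -
            pd j (fun x => ∑ s, eval x (Bp η κ c i s) * pd s F x) x) -
        2 * (eval x (pderiv i (Wp η κ)) * (∑ s, eval x (Bp η κ c j s) * pd s F x) -
          eval x (pderiv j (Wp η κ)) * (∑ s, eval x (Bp η κ c i s) * pd s F x)) = 0) →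
      ∃ a, ∀ x ∈ U, F x = a := by
  classical
  obtain ⟨k, c₁, hc₁⟩ := exists_inj hn (fun i => (η i : ℂ))
    (fun i => by exact_mod_cast hη i) (κ : ℂ)
  have hInj0 : Inj (k + 2) (map (evC c₁ (fun _ => 0)) (WU η κ))
      (fun a b => map (evC c₁ (fun _ => 0)) (BU η κ a b)) := by
    simpa only [map_WU, map_BU, tr_zero] using hc₁
  obtain ⟨D, hD0, hD⟩ := inj_semicontinuous (k + 2) (WU η κ) (BU η κ) (evC c₁ (fun _ => 0)) hInj0
  obtain ⟨c₂, hc₂⟩ := exists_evC_RU_ne_zero η hη κ
  let ρ : MvPolynomial (Sg n) ℝ →ₐ[ℝ] MvPolynomial (KI n × KI n) ℝ :=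
    aeval (Sum.elim (fun ab => X ab) (fun _ => 0))
  have hρC : ∀ (c : KI n → KI n → ℂ) (p : MvPolynomial (Sg n) ℝ),
      eval₂ (algebraMap ℝ ℂ) (fun ab => c ab.1 ab.2) (ρ p) = evC c (fun _ => 0) p := by
    intro c p
    induction p using MvPolynomial.induction_on with
    | C a => simp [ρ, evC]
    | add p q hp hq => rw [map_add, map_add, eval₂_add, hp, hq]
    | mul_X p i hp =>
      rw [map_mul, map_mul, eval₂_mul, hp]
      congr 1
      rcases i with i | i <;> simp [ρ, evC]
  have hρR : ∀ (c : KI n → KI n → ℝ) (p : MvPolynomial (Sg n) ℝ),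
      eval (fun ab => c ab.1 ab.2) (ρ p) =
        eval (Sum.elim (fun ab : KI n × KI n => c ab.1 ab.2) (fun _ => 0)) p := by
    intro c p
    induction p using MvPolynomial.induction_on with
    | C a => simp [ρ]
    | add p q hp hq => rw [map_add, map_add, map_add, hp, hq]
    | mul_X p i hp =>
      rw [map_mul, map_mul, map_mul, hp]
      congr 1
      rcases i with i | i <;> simp [ρ]
  refine ⟨ρ (D * RU η κ), ?_, ?_⟩
  · rw [map_mul]
    refine mul_ne_zero ?_ ?_
    · intro h0
      apply hD0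
      rw [← hρC c₁ D, h0, eval₂_zero]
    · intro h0
      apply hc₂
      rw [← hρC c₂ (RU η κ), h0, eval₂_zero]
  · intro c hc U hUo hUc F hF heq
    rw [hρR] at hc
    -- the polynomial in `y`
    let τ : MvPolynomial (Sg n) ℝ →ₐ[ℝ] MvPolynomial (Fin n) ℝ :=
      aeval (Sum.elim (fun ab => C (c ab.1 ab.2)) (fun i => X i))
    have hτ : ∀ (y : Fin n → ℝ) (p : MvPolynomial (Sg n) ℝ), eval y (τ p) =
        eval (Sum.elim (fun ab : KI n × KI n => c ab.1 ab.2) y) p := by
      intro y p
      induction p using MvPolynomial.induction_on with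
      | C a => simp [τ]
      | add p q hp hq => rw [map_add, map_add, map_add, hp, hq]
      | mul_X p i hp =>
        rw [map_mul, map_mul, map_mul, hp]
        congr 1
        rcases i with i | i <;> simp [τ]
    have hQ : τ (D * RU η κ) ≠ 0 := by
      intro h0
      apply hc
      have := hτ (fun _ => 0) (D * RU η κ)
      rw [← this, h0, map_zero]
    have hSm : ∀ x ∈ U, Sm x F := fun x hx => hF.contDiffAt (hUo.mem_nhds hx)
    have hgood : ∀ x ∈ U, eval x (τ (D * RU η κ)) ≠ 0 → ∀ s, pd s F x = 0 := by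
      intro x hx hx2 s
      rw [hτ] at hx2
      refine first_derivs_zero hD c x hx2 F (hSm x hx)
        (fun j x => ∑ s, eval x (Bp η κ c j s) * pd s F x) (fun j => rfl) ?_ s
      intro i j
      filter_upwards [hUo.mem_nhds hx] with z hz
      exact heq z hz i j
    have hall : ∀ x ∈ U, ∀ s, pd s F x = 0 := by
      intro x hx s
      by_contra hne
      have hcont : ContinuousAt (pd s F) x := ((hSm x hx).pdS s).continuousAt
      have hev : ∀ᶠ z in 𝓝 x, pd s F z ≠ 0 ∧ z ∈ U :=
        (hcont.eventually_ne hne).and (hUo.mem_nhds hx)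
      obtain ⟨r, hr, hball⟩ := Metric.eventually_nhds_iff_ball.mp hev
      apply hQ
      refine funext_set (fun i => Set.Ioo (x i - r) (x i + r)) (fun i => Set.Ioo_infinite (by linarith)) ?_
      intro z hz
      rw [map_zero]
      by_contra hz0
      have hzb : z ∈ Metric.ball x r := by
        rw [Metric.mem_ball, dist_pi_lt_iff hr]
        intro i
        have := hz i (Set.mem_univ i)
        rw [Real.dist_eq, abs_lt]
        constructor <;> linarith [this.1, this.2]
      obtain ⟨h1, h2⟩ := hball z hzb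
      exact h1 (hgood z h2 hz0 s)
    refine hUo.exists_is_const_of_fderiv_eq_zero hUc
      (fun x hx => ((hSm x hx).differentiableAt (by norm_num)).differentiableWithinAt) ?_
    intro x hx
    have hz : (fderiv ℝ F x : (Fin n → ℝ) →ₗ[ℝ] ℝ) = 0 := by
      refine LinearMap.pi_ext' fun i => ?_
      ext
      have := hall x hx i
      simpa [pd] using this
    ext v
    exact congrArg (fun L : (Fin n → ℝ) →ₗ[ℝ] ℝ => L v) hz

end global_thm

end Pool.Agent.H85.KT
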