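import Mathlib
import Pool.Agent.H85.KTJets

/-!
# Flat Killing tensors of valence two are quadratic polynomials
-/

set_option linter.unusedSimpArgs false

namespace Pool.Agent.H85.KT

open Filter Topology
open scoped ContDiff

variable {n : ℕ}

/-- Smooth on an open set. -/
abbrev SmOn (M : Set (Fin n → ℝ)) (F : (Fin n → ℝ) → ℝ) : Prop := ContDiffOn ℝ ∞ F M

lemma SmOn.sm {M : Set (Fin n → ℝ)} (hM : IsOpen M) {F : (Fin n → ℝ) → ℝ} (h : SmOn M F)
    {x : Fin n → ℝ} (hx : x ∈ M) : Sm x F := h.contDiffAt (hM.mem_nhds hx)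

lemma SmOn.pdS {M : Set (Fin n → ℝ)} (hM : IsOpen M) {F : (Fin n → ℝ) → ℝ} (h : SmOn M F)
    (i : Fin n) : SmOn M (pd i F) :=
  fun _ hx => (((h.sm hM hx).pdS i).contDiffWithinAt)

lemma pd_eqOn {M : Set (Fin n → ℝ)} (hM : IsOpen M) {F G : (Fin n → ℝ) → ℝ} (h : Set.EqOn F G M)
    (i : Fin n) : Set.EqOn (pd i F) (pd i G) M := fun x hx =>
  (pd_congr (Filter.eventuallyEq_of_mem (hM.mem_nhds hx) h) i).eq_of_nhds

lemma pd_commOn {M : Set (Fin n → ℝ)} (hM : IsOpen M) {F : (Fin n → ℝ) → ℝ} (h : SmOn M F)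
    (i j : Fin n) : Set.EqOn (pd i (pd j F)) (pd j (pd i F)) M := fun _ hx =>
  (pd_comm (h.sm hM hx) i j).eq_of_nhds

lemma pd_addOn {M : Set (Fin n → ℝ)} (hM : IsOpen M) {F G : (Fin n → ℝ) → ℝ} (hF : SmOn M F)
    (hG : SmOn M G) (i : Fin n) :
    Set.EqOn (pd i (fun x => F x + G x)) (fun x => pd i F x + pd i G x) M := fun _ hx =>
  (pd_add (hF.sm hM hx) (hG.sm hM hx) i).eq_of_nhds

lemma pd_subOn {M : Set (Fin n → ℝ)} (hM : IsOpen M) {F G : (Fin n → ℝ) → ℝ} (hF : SmOn M F)
    (hG : SmOn M G) (i : Fin n) :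
    Set.EqOn (pd i (fun x => F x - G x)) (fun x => pd i F x - pd i G x) M := fun _ hx =>
  (pd_sub (hF.sm hM hx) (hG.sm hM hx) i).eq_of_nhds

/-- Vanishing gradient on a connected open set. -/
lemma const_of_pd_zero {M : Set (Fin n → ℝ)} (hM : IsOpen M) (hMc : IsPreconnected M)
    {F : (Fin n → ℝ) → ℝ} (hF : SmOn M F) (h : ∀ x ∈ M, ∀ i, pd i F x = 0)
    {x y : Fin n → ℝ} (hx : x ∈ M) (hy : y ∈ M) : F x = F y := by
  refine hM.is_const_of_fderiv_eq_zero hMc
    (fun x hx => ((hF.sm hM hx).differentiableAt (by norm_num)).differentiableWithinAt) ?_ hx hy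
  intro z hz
  have h0 : (fderiv ℝ F z : (Fin n → ℝ) →ₗ[ℝ] ℝ) = 0 := by
    refine LinearMap.pi_ext' fun i => ?_
    ext
    have := h z hz i
    simpa [pd] using this
  ext v
  exact congrArg (fun L : (Fin n → ℝ) →ₗ[ℝ] ℝ => L v) h0

lemma pd_coord (i k : Fin n) (c : ℝ) (x : Fin n → ℝ) :
    pd i (fun x : Fin n → ℝ => x k - c) x = if k = i then 1 else 0 := by
  have h : pd i (fun x : Fin n → ℝ => MvPolynomial.eval x (MvPolynomial.X k - MvPolynomial.C c)) x =
      MvPolynomial.eval x (MvPolynomial.pderiv i (MvPolynomial.X k - MvPolynomial.C c)) := by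
    rw [pd_eval]
  simp only [map_sub, MvPolynomial.eval_X, MvPolynomial.eval_C, MvPolynomial.pderiv_C,
    sub_zero] at h
  rw [h]
  by_cases hk : k = i
  · subst hk; simp
  · rw [MvPolynomial.pderiv_X_of_ne hk]; simp [hk]

/-- The affine function `∑ c_k (x_k - y_k)` has gradient `c`. -/
lemma pd_affine (c y : Fin n → ℝ) (i : Fin n) (x : Fin n → ℝ) :
    pd i (fun x : Fin n → ℝ => ∑ k, c k * (x k - y k)) x = c i := by
  have h : (fun x : Fin n → ℝ => ∑ k, c k * (x k - y k)) =
      fun x => MvPolynomial.eval x (∑ k, MvPolynomial.C (c k) *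
        (MvPolynomial.X k - MvPolynomial.C (y k))) := by
    funext x; simp
  rw [h, pd_eval]
  simp only [map_sum, MvPolynomial.pderiv_C_mul, map_sub, MvPolynomial.pderiv_C, sub_zero]
  rw [Finset.sum_eq_single i]
  · simp
  · intro k _ hk
    rw [MvPolynomial.pderiv_X_of_ne hk]; simp
  · intro h; exact absurd (Finset.mem_univ _) h

lemma smooth_affine (c y : Fin n → ℝ) :
    ContDiff ℝ ∞ (fun x : Fin n → ℝ => ∑ k, c k * (x k - y k)) := by
  have h : (fun x : Fin n → ℝ => ∑ k, c k * (x k - y k)) =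
      fun x => MvPolynomial.eval x (∑ k, MvPolynomial.C (c k) *
        (MvPolynomial.X k - MvPolynomial.C (y k))) := by
    funext x; simp
  rw [h]; exact contDiff_eval _

lemma quad_eq (C : Fin n → Fin n → ℝ) (y : Fin n → ℝ) :
    (fun x : Fin n → ℝ => ∑ k, ∑ l, C k l * (x k - y k) * (x l - y l)) =
      fun x => MvPolynomial.eval x (∑ k, ∑ l, MvPolynomial.C (C k l) *
        ((MvPolynomial.X k - MvPolynomial.C (y k)) * (MvPolynomial.X l - MvPolynomial.C (y l)))) := by
  funext x; simp [mul_assoc]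

lemma smooth_quad (C : Fin n → Fin n → ℝ) (y : Fin n → ℝ) :
    ContDiff ℝ ∞ (fun x : Fin n → ℝ => ∑ k, ∑ l, C k l * (x k - y k) * (x l - y l)) := by
  rw [quad_eq]; exact contDiff_eval _

lemma pd_quad (C : Fin n → Fin n → ℝ) (hC : ∀ k l, C k l = C l k) (y : Fin n → ℝ) (i : Fin n)
    (x : Fin n → ℝ) :
    pd i (fun x : Fin n → ℝ => ∑ k, ∑ l, C k l * (x k - y k) * (x l - y l)) x =
      2 * ∑ k, C i k * (x k - y k) := by
  classical
  rw [quad_eq, pd_eval]
  simp only [map_sum, MvPolynomial.pderiv_C_mul, Derivation.leibniz, map_sub,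
    MvPolynomial.pderiv_C, sub_zero, smul_eq_mul, map_add, map_mul, MvPolynomial.eval_C,
    MvPolynomial.eval_X, map_zero, mul_zero, zero_add]
  have hX : ∀ k, MvPolynomial.eval x (MvPolynomial.pderiv i (MvPolynomial.X k :
      MvPolynomial (Fin n) ℝ)) = if k = i then 1 else 0 := by
    intro k
    by_cases hk : k = i
    · subst hk; simp
    · rw [MvPolynomial.pderiv_X_of_ne hk]; simp [hk]
  simp only [hX, mul_add, Finset.sum_add_distrib, mul_zero, Finset.sum_const_zero, zero_add]
  have h1 : ∑ k, ∑ l, C k l * ((x k - y k) * if l = i then 1 else 0) =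
      ∑ k, C i k * (x k - y k) := by
    refine Finset.sum_congr rfl fun k _ => ?_
    rw [Finset.sum_eq_single i]
    · rw [if_pos rfl, mul_one, hC k i]
    · intro l _ hl; rw [if_neg hl]; ring
    · intro h; exact absurd (Finset.mem_univ _) h
  have h2 : ∑ k, ∑ l, C k l * ((x l - y l) * if k = i then 1 else 0) =
      ∑ k, C i k * (x k - y k) := by
    rw [Finset.sum_eq_single i]
    · simp
    · intro k _ hk
      simp [hk]
    · intro h; exact absurd (Finset.mem_univ _) h
  rw [h1, h2]; ring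

/-- A smooth function with vanishing third derivatives on a connected open set is a quadratic
polynomial. -/
theorem quadratic_of_third_zero {M : Set (Fin n → ℝ)} (hM : IsOpen M) (hMc : IsPreconnected M)
    {F : (Fin n → ℝ) → ℝ} (hF : SmOn M F)
    (h3 : ∀ x ∈ M, ∀ i j k, pd i (pd j (pd k F)) x = 0) {y : Fin n → ℝ} (hy : y ∈ M)
    {x : Fin n → ℝ} (hx : x ∈ M) :
    F x = F y + ∑ k, pd k F y * (x k - y k) +
      1 / 2 * ∑ k, ∑ l, pd k (pd l F) y * (x k - y k) * (x l - y l) := by
  have hsym : ∀ k l, pd k (pd l F) y = pd l (pd k F) y := fun k l => pd_commOn hM hF k l hy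
  have h2 : ∀ x ∈ M, ∀ j k, pd j (pd k F) x = pd j (pd k F) y := by
    intro x hx j k
    exact const_of_pd_zero hM hMc ((hF.pdS hM k).pdS hM j) (fun z hz i => h3 z hz i j k) hx hy
  have h1 : ∀ x ∈ M, ∀ l, pd l F x = pd l F y + ∑ k, pd l (pd k F) y * (x k - y k) := by
    intro x hx l
    have hs : SmOn M (fun x => pd l F x - ∑ k, pd l (pd k F) y * (x k - y k)) :=
      (hF.pdS hM l).sub (smooth_affine _ _).contDiffOn
    have := const_of_pd_zero hM hMc hs ?_ hx hy
    · simp only [sub_self, mul_zero, Finset.sum_const_zero, sub_zero] at this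
      linarith
    · intro z hz i
      rw [pd_subOn hM (hF.pdS hM l) (smooth_affine _ _).contDiffOn i hz]
      simp only [pd_affine]
      rw [h2 z hz i l, hsym i l, sub_self]
  have hs1 : SmOn M (fun x => F x - ∑ k, pd k F y * (x k - y k)) :=
    hF.sub (smooth_affine _ _).contDiffOn
  have hs2 : SmOn M (fun x => (F x - ∑ k, pd k F y * (x k - y k)) -
      ∑ k, ∑ l, (1 / 2 * pd k (pd l F) y) * (x k - y k) * (x l - y l)) :=
    hs1.sub (smooth_quad _ _).contDiffOn
  have := const_of_pd_zero hM hMc hs2 ?_ hx hy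
  · simp only [sub_self, mul_zero, Finset.sum_const_zero, sub_zero] at this
    have e : ∑ k, ∑ l, (1 / 2 * pd k (pd l F) y) * (x k - y k) * (x l - y l) =
        1 / 2 * ∑ k, ∑ l, pd k (pd l F) y * (x k - y k) * (x l - y l) := by
      rw [Finset.mul_sum]
      refine Finset.sum_congr rfl fun k _ => ?_
      rw [Finset.mul_sum]
      refine Finset.sum_congr rfl fun l _ => ?_
      ring
    rw [e] at this
    linarith
  · intro z hz i
    rw [pd_subOn hM hs1 (smooth_quad _ _).contDiffOn i hz]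
    simp only
    rw [pd_subOn hM hF (smooth_affine _ _).contDiffOn i hz]
    simp only [pd_affine]
    rw [pd_quad _ (fun k l => by rw [hsym k l]), h1 z hz i]
    have e : 2 * ∑ k, 1 / 2 * pd i (pd k F) y * (z k - y k) =
        ∑ k, pd i (pd k F) y * (z k - y k) := by
      rw [Finset.mul_sum]
      refine Finset.sum_congr rfl fun k _ => ?_
      ring
    rw [e]; ring

/-- Third derivatives of a flat Killing tensor vanish. -/
theorem third_zero_of_killing {M : Set (Fin n → ℝ)} (hM : IsOpen M)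
    (Q : Fin n → Fin n → (Fin n → ℝ) → ℝ) (hQ : ∀ i j, SmOn M (Q i j))
    (hsym : ∀ x ∈ M, ∀ i j, Q i j x = Q j i x)
    (hK : ∀ x ∈ M, ∀ i j k, pd k (Q i j) x + pd i (Q j k) x + pd j (Q k i) x = 0) :
    ∀ x ∈ M, ∀ i j k l m, pd k (pd l (pd m (Q i j))) x = 0 := by
  intro x hx i j k l m
  -- `a i j k l m` is symmetric in `i j` and in `k l m`
  have s12 : ∀ i j k l m, pd k (pd l (pd m (Q i j))) x = pd l (pd k (pd m (Q i j))) x :=
    fun i j k l m => pd_commOn hM ((hQ i j).pdS hM m) k l hx
  have s23 : ∀ i j k l m, pd k (pd l (pd m (Q i j))) x = pd k (pd m (pd l (Q i j))) x :=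
    fun i j k l m => pd_eqOn hM (pd_commOn hM (hQ i j) l m) k hx
  have sij : ∀ i j k l m, pd k (pd l (pd m (Q i j))) x = pd k (pd l (pd m (Q j i))) x := by
    intro i j k l m
    exact pd_eqOn hM (pd_eqOn hM (pd_eqOn hM (fun x hx => hsym x hx i j) m) l) k hx
  have rel : ∀ i j k l m, pd l (pd m (pd k (Q i j))) x + pd l (pd m (pd i (Q j k))) x +
      pd l (pd m (pd j (Q k i))) x = 0 := by
    intro i j k l m
    have e0 : Set.EqOn (fun x => (pd k (Q i j) x + pd i (Q j k) x) + pd j (Q k i) x)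
        (fun _ => 0) M := fun x hx => hK x hx i j k
    have e1 := pd_eqOn hM e0 m
    have e2 := pd_eqOn hM e1 l hx
    have f1 : Set.EqOn (pd m (fun x => (pd k (Q i j) x + pd i (Q j k) x) + pd j (Q k i) x))
        (fun x => (pd m (pd k (Q i j)) x + pd m (pd i (Q j k)) x) + pd m (pd j (Q k i)) x) M := by
      intro z hz
      rw [pd_addOn hM (((hQ i j).pdS hM k).add ((hQ j k).pdS hM i)) ((hQ k i).pdS hM j) m hz]
      simp only
      rw [pd_addOn hM ((hQ i j).pdS hM k) ((hQ j k).pdS hM i) m hz]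
    have f2 := pd_eqOn hM f1 l hx
    have f3 : pd l (fun x => (pd m (pd k (Q i j)) x + pd m (pd i (Q j k)) x) +
        pd m (pd j (Q k i)) x) x = (pd l (pd m (pd k (Q i j))) x + pd l (pd m (pd i (Q j k))) x) +
          pd l (pd m (pd j (Q k i))) x := by
      rw [pd_addOn hM ((((hQ i j).pdS hM k).pdS hM m).add (((hQ j k).pdS hM i).pdS hM m))
        (((hQ k i).pdS hM j).pdS hM m) l hx]
      simp only
      rw [pd_addOn hM (((hQ i j).pdS hM k).pdS hM m) (((hQ j k).pdS hM i).pdS hM m) l hx]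
    rw [f3] at f2
    rw [← f2, e2, pd_const, pd_const]
  -- abbreviation
  set a : Fin n → Fin n → Fin n → Fin n → Fin n → ℝ :=
    fun i j k l m => pd k (pd l (pd m (Q i j))) x with ha
  have A12 : ∀ i j k l m, a i j k l m = a i j l k m := s12
  have A23 : ∀ i j k l m, a i j k l m = a i j k m l := s23
  have Aij : ∀ i j k l m, a i j k l m = a j i k l m := sij
  have R : ∀ i j k l m, a i j l m k + a j k l m i + a k i l m j = 0 := rel
  have R' : ∀ i j k l m, a i j k l m + a j k i l m + a i k j l m = 0 := by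
    intro i j k l m
    have := R i j k l m
    rw [A23 i j l m k, A12 i j l k m, A23 j k l m i, A12 j k l i m, A23 k i l m j, A12 k i l j m,
      Aij k i] at this
    exact this
  show a i j k l m = 0
  -- the ten relations
  have e1 := R' i j k l m
  have e2 := R' i j l k m
  have e3 := R' i j m k l
  have e4 := R' i k l j m
  have e5 := R' i k m j l
  have e6 := R' i l m j k
  have e7 := R' j k l i m
  have e8 := R' j k m i l
  have e9 := R' j l m i k
  have e10 := R' k l m i j
  -- normal forms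
  have n1 := A12 i j l k m
  have n2 : a i j m k l = a i j k l m := by rw [A12, A23]
  have c1 : ∀ p q r s t, a p q r s t = a p q s r t := A12
  have c2 : ∀ p q r s t, a p q r s t = a p q r t s := A23
  have c3 : ∀ p q r s t, a p q r s t = a q p r s t := Aij
  have c4 : ∀ p q r s t, a p q r s t = a p q t r s := by
    intro p q r s t; rw [A23, A12]
  have c5 : ∀ p q r s t, a p q r s t = a p q s t r := by
    intro p q r s t; rw [A12, A23]
  have c6 : ∀ p q r s t, a p q r s t = a p q t s r := by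
    intro p q r s t; rw [A12, A23, A12]
  -- unknowns: pairs among i j k l m
  have E1 : a i j k l m + a j k i l m + a i k j l m = 0 := e1
  have E2 : a i j k l m + a j l i k m + a i l j k m = 0 := by rw [c1 i j k l m]; exact e2
  have E3 : a i j k l m + a j m i k l + a i m j k l = 0 := by
    rw [c4 i j k l m]; exact e3
  have E4 : a i k j l m + a k l i j m + a i l j k m = 0 := by
    rw [c1 i k j l m, c1 i l j k m]
    have := e4
    rw [c1 i k l j m, c1 i l k j m] at this
    rw [c1 i k l j m, c1 i l k j m]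
    linarith
  have E5 : a i k j l m + a k m i j l + a i m j k l = 0 := by
    have := e5
    rw [c5 i k m j l, c1 i m k j l] at this
    linarith
  have E6 : a i l j k m + a l m i j k + a i m j k l = 0 := by
    have := e6
    rw [c5 i l m j k, c5 i m l j k] at this
    linarith
  have E7 : a j k i l m + a k l i j m + a j l i k m = 0 := by
    have := e7
    rw [c1 j k l i m, c1 k l j i m, c1 j l k i m] at this
    linarith
  have E8 : a j k i l m + a k m i j l + a j m i k l = 0 := by
    have := e8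
    rw [c5 j k m i l, c1 k m j i l, c1 j m k i l] at this
    linarith
  have E9 : a j l i k m + a l m i j k + a j m i k l = 0 := by
    have := e9
    rw [c5 j l m i k, c1 l m j i k, c5 j m l i k] at this
    linarith
  have E10 : a k l i j m + a l m i j k + a k m i j l = 0 := by
    have := e10
    rw [c5 k l m i j, c5 l m k i j, c5 k m l i j] at this
    linarith
  linarith

end Pool.Agent.H85.KT
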