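import Mathlib
import Pool.Agent.H85.KTKilling

/-!
# Classification of flat Killing tensors of valence two
-/

set_option linter.unusedSimpArgs false

namespace Pool.Agent.H85.KT

open Filter Topology
open scoped ContDiff

variable {n : ℕ}

/-- Flat Killing covectors. -/
def Xt (η : Fin n → ℝ) : KI n → (Fin n → ℝ) → Fin n → ℝ
  | Sum.inl k, _, i => if i = k then η k else 0
  | Sum.inr (k, l), x, i => η k * η l * ((if i = l then x k else 0) - (if i = k then x l else 0))

/-- Quadratic expressions in the Killing covectors. -/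
def Tq (η : Fin n → ℝ) (c : KI n → KI n → ℝ) (x : Fin n → ℝ) (i j : Fin n) : ℝ :=
  ∑ a, ∑ b, c a b * (Xt η a x i * Xt η b x j + Xt η a x j * Xt η b x i)

/-- `Tq` as a linear map. -/
def TqL (η : Fin n → ℝ) : (KI n → KI n → ℝ) →ₗ[ℝ] ((Fin n → ℝ) → Fin n → Fin n → ℝ) where
  toFun := Tq η
  map_add' c c' := by
    funext x i j
    simp only [Tq, Pi.add_apply, add_mul, Finset.sum_add_distrib]
  map_smul' r c := by
    funext x i j
    simp only [Tq, Pi.smul_apply, smul_eq_mul, RingHom.id_apply, Finset.mul_sum, mul_assoc]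

/-- Combination of Killing covectors. -/
def cov (η : Fin n → ℝ) (z : KI n → ℝ) (x : Fin n → ℝ) (i : Fin n) : ℝ := ∑ a, z a * Xt η a x i

/-- Symmetric product of two covector fields. -/
def sp (Y Z : (Fin n → ℝ) → Fin n → ℝ) (x : Fin n → ℝ) (i j : Fin n) : ℝ :=
  Y x i * Z x j + Y x j * Z x i

lemma sp_mem (η : Fin n → ℝ) (z z' : KI n → ℝ) :
    sp (cov η z) (cov η z') ∈ LinearMap.range (TqL η) := by
  refine ⟨fun a b => z a * z' b, ?_⟩
  funext x i j
  show Tq η (fun a b => z a * z' b) x i j = sp (cov η z) (cov η z') x i j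
  simp only [Tq, sp, cov, Finset.sum_mul_sum, ← Finset.sum_add_distrib]
  refine Finset.sum_congr rfl fun a _ => Finset.sum_congr rfl fun b _ => ?_
  ring

/-- The constant covector `dx_k`. -/
def dxk (k : Fin n) (_ : Fin n → ℝ) (i : Fin n) : ℝ := if i = k then 1 else 0

/-- The rotation covector centred at `y`. -/
def rot (y : Fin n → ℝ) (k l : Fin n) (x : Fin n → ℝ) (i : Fin n) : ℝ :=
  (if i = l then x k - y k else 0) - (if i = k then x l - y l else 0)

lemma dxk_eq_cov {η : Fin n → ℝ} (hη : ∀ i, η i ≠ 0) (k : Fin n) :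
    ∃ z, dxk k = cov η z := by
  classical
  refine ⟨Pi.single (Sum.inl k) (η k)⁻¹, ?_⟩
  funext x i
  simp only [dxk, cov]
  rw [Finset.sum_eq_single (Sum.inl k)]
  · rw [Pi.single_eq_same]
    simp only [Xt]
    by_cases h : i = k
    · rw [if_pos h, if_pos h, inv_mul_cancel₀ (hη k)]
    · rw [if_neg h, if_neg h, mul_zero]
  · intro a _ ha
    rw [Pi.single_eq_of_ne ha, zero_mul]
  · intro h; exact absurd (Finset.mem_univ _) h

lemma rot_eq_cov {η : Fin n → ℝ} (hη : ∀ i, η i ≠ 0) (y : Fin n → ℝ) (k l : Fin n) :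
    ∃ z, rot y k l = cov η z := by
  classical
  obtain ⟨z₁, h₁⟩ := dxk_eq_cov hη k
  obtain ⟨z₂, h₂⟩ := dxk_eq_cov hη l
  refine ⟨fun a => (Pi.single (Sum.inr (k, l)) ((η k)⁻¹ * (η l)⁻¹) : KI n → ℝ) a +
    (y l * z₁ a - y k * z₂ a), ?_⟩
  funext x i
  have e1 := congrFun (congrFun h₁ x) i
  have e2 := congrFun (congrFun h₂ x) i
  have e3 : ∑ a, (Pi.single (Sum.inr (k, l)) ((η k)⁻¹ * (η l)⁻¹) : KI n → ℝ) a * Xt η a x i =
      (if i = l then x k else 0) - (if i = k then x l else 0) := by
    rw [Finset.sum_eq_single (Sum.inr (k, l))]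
    · rw [Pi.single_eq_same]
      simp only [Xt]
      have hk := hη k
      have hl := hη l
      field_simp
    · intro a _ ha
      rw [Pi.single_eq_of_ne ha, zero_mul]
    · intro h; exact absurd (Finset.mem_univ _) h
  simp only [cov] at e1 e2 ⊢
  simp only [add_mul, sub_mul, Finset.sum_add_distrib, Finset.sum_sub_distrib, mul_assoc,
    ← Finset.mul_sum]
  rw [e3, ← e1, ← e2]
  simp only [rot, dxk]
  by_cases h1 : i = l <;> by_cases h2 : i = k <;> simp [h1, h2] <;> split_ifs <;> ring

lemma sumZ (A : Fin n → Fin n → ℝ) (x y : Fin n → ℝ) (j : Fin n) :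
    ∑ m, ∑ p, A m p * rot y m p x j = ∑ m, (A m j - A j m) * (x m - y m) := by
  classical
  have e : ∀ m p, A m p * rot y m p x j = A m p * (if j = p then x m - y m else 0) -
      A m p * (if j = m then x p - y p else 0) := by
    intro m p
    rw [rot, mul_sub]
  have e' : ∀ m, (A m j - A j m) * (x m - y m) = A m j * (x m - y m) - A j m * (x m - y m) :=
    fun m => sub_mul _ _ _
  simp only [e, e', Finset.sum_sub_distrib]
  have h1 : ∑ m, ∑ p, A m p * (if j = p then x m - y m else 0) = ∑ m, A m j * (x m - y m) := by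
    refine Finset.sum_congr rfl fun m _ => ?_
    rw [Finset.sum_eq_single j]
    · rw [if_pos rfl]
    · intro p _ hp; rw [if_neg (Ne.symm hp), mul_zero]
    · intro h; exact absurd (Finset.mem_univ _) h
  have h2 : ∑ m, ∑ p, A m p * (if j = m then x p - y p else 0) = ∑ m, A j m * (x m - y m) := by
    rw [Finset.sum_eq_single j]
    · simp only [if_true]
    · intro m _ hm
      refine Finset.sum_eq_zero fun p _ => ?_
      rw [if_neg (Ne.symm hm), mul_zero]
    · intro h; exact absurd (Finset.mem_univ _) h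
  rw [h1, h2]

/-- Classification of flat Killing tensors. -/
theorem exists_Tq {M : Set (Fin n → ℝ)} (hM : IsOpen M) (hMc : IsPreconnected M)
    {η : Fin n → ℝ} (hη : ∀ i, η i ≠ 0)
    (Q : Fin n → Fin n → (Fin n → ℝ) → ℝ) (hQ : ∀ i j, SmOn M (Q i j))
    (hsym : ∀ x ∈ M, ∀ i j, Q i j x = Q j i x)
    (hK : ∀ x ∈ M, ∀ i j k, pd k (Q i j) x + pd i (Q j k) x + pd j (Q k i) x = 0) :
    ∃ c, ∀ x ∈ M, ∀ i j, Q i j x = Tq η c x i j := by
  classical
  rcases M.eq_empty_or_nonempty with rfl | ⟨y, hy⟩
  · exact ⟨0, fun x hx => absurd hx (Set.notMem_empty x)⟩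
  have h3 := third_zero_of_killing hM Q hQ hsym hK
  have hexp : ∀ x ∈ M, ∀ i j, Q i j x = Q i j y + ∑ k, pd k (Q i j) y * (x k - y k) +
      1 / 2 * ∑ k, ∑ l, pd k (pd l (Q i j)) y * (x k - y k) * (x l - y l) := by
    intro x hx i j
    exact quadratic_of_third_zero hM hMc (hQ i j) (fun z hz a b c => h3 z hz i j a b c) hy hx
  -- coefficients
  set a : Fin n → Fin n → ℝ := fun i j => Q i j y with ha
  set b : Fin n → Fin n → Fin n → ℝ := fun i j k => pd k (Q i j) y with hb
  set C : Fin n → Fin n → Fin n → Fin n → ℝ := fun i j k l => pd k (pd l (Q i j)) y with hC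
  have asym : ∀ i j, a i j = a j i := fun i j => hsym y hy i j
  have bsym : ∀ i j k, b i j k = b j i k := fun i j k =>
    pd_eqOn hM (fun x hx => hsym x hx i j) k hy
  have bcyc : ∀ i j k, b i j k + b j k i + b k i j = 0 := fun i j k => hK y hy i j k
  have Csym : ∀ i j k l, C i j k l = C j i k l := fun i j k l =>
    pd_eqOn hM (pd_eqOn hM (fun x hx => hsym x hx i j) l) k hy
  have Csym2 : ∀ i j k l, C i j k l = C i j l k := fun i j k l => pd_commOn hM (hQ i j) k l hy
  have Ccyc' : ∀ i j k l, C i j l k + C j k l i + C k i l j = 0 := by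
    intro i j k l
    have e0 : Set.EqOn (fun x => (pd k (Q i j) x + pd i (Q j k) x) + pd j (Q k i) x)
        (fun _ => 0) M := fun x hx => hK x hx i j k
    have e1 := pd_eqOn hM e0 l hy
    rw [pd_addOn hM (((hQ i j).pdS hM k).add ((hQ j k).pdS hM i)) ((hQ k i).pdS hM j) l hy] at e1
    simp only at e1
    rw [pd_addOn hM ((hQ i j).pdS hM k) ((hQ j k).pdS hM i) l hy, pd_const] at e1
    exact e1
  have Ccyc : ∀ i j k l, C i j k l + C j k i l + C k i j l = 0 := by
    intro i j k l
    rw [Csym2 i j k l, Csym2 j k i l, Csym2 k i j l]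
    exact Ccyc' i j k l
  -- the tensor as an element of the range
  have hdx : ∀ k, ∃ z, dxk k = cov η z := dxk_eq_cov hη
  have hrt : ∀ k l, ∃ z, rot y k l = cov η z := rot_eq_cov hη y
  have mem : ∀ (Y Z : (Fin n → ℝ) → Fin n → ℝ), (∃ z, Y = cov η z) → (∃ z, Z = cov η z) →
      sp Y Z ∈ LinearMap.range (TqL η) := by
    rintro Y Z ⟨z, rfl⟩ ⟨z', rfl⟩
    exact sp_mem η z z'
  have hmem : ((∑ s, ∑ t, (1 / 2 * a s t) • sp (dxk s) (dxk t)) +
      (∑ p, ∑ k, ∑ l, (1 / 3 * b p l k) • sp (dxk p) (rot y k l)) +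
      (∑ k, ∑ l, ∑ m, ∑ p, (1 / 12 * C l p k m) • sp (rot y k l) (rot y m p))) ∈
        LinearMap.range (TqL η) := by
    refine Submodule.add_mem _ (Submodule.add_mem _ ?_ ?_) ?_
    · exact Submodule.sum_mem _ fun s _ => Submodule.sum_mem _ fun t _ =>
        Submodule.smul_mem _ _ (mem _ _ (hdx s) (hdx t))
    · exact Submodule.sum_mem _ fun p _ => Submodule.sum_mem _ fun k _ =>
        Submodule.sum_mem _ fun l _ => Submodule.smul_mem _ _ (mem _ _ (hdx p) (hrt k l))
    · exact Submodule.sum_mem _ fun k _ => Submodule.sum_mem _ fun l _ =>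
        Submodule.sum_mem _ fun m _ => Submodule.sum_mem _ fun p _ =>
          Submodule.smul_mem _ _ (mem _ _ (hrt k l) (hrt m p))
  obtain ⟨c, hc⟩ := hmem
  refine ⟨c, fun x hx i j => ?_⟩
  have hcx : Tq η c x i j = _ := congrFun (congrFun (congrFun hc x) i) j
  rw [hcx, hexp x hx i j]
  simp only [Pi.add_apply, Finset.sum_apply, Pi.smul_apply, smul_eq_mul]
  -- the three parts
  have p0 : ∑ s, ∑ t, 1 / 2 * a s t * sp (dxk s) (dxk t) x i j = a i j := by
    have h1 : ∀ s, ∑ t, 1 / 2 * a s t * sp (dxk s) (dxk t) x i j =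
        1 / 2 * (if i = s then a s j else 0) + 1 / 2 * (if j = s then a s i else 0) := by
      intro s
      simp only [sp, dxk, mul_add, Finset.sum_add_distrib]
      congr 1
      · rw [Finset.sum_eq_single j]
        · simp only [if_true]
          split_ifs <;> ring
        · intro t _ ht; rw [if_neg (Ne.symm ht)]; ring
        · intro h; exact absurd (Finset.mem_univ _) h
      · rw [Finset.sum_eq_single i]
        · simp only [if_true]
          split_ifs <;> ring
        · intro t _ ht; rw [if_neg (Ne.symm ht)]; ring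
        · intro h; exact absurd (Finset.mem_univ _) h
    rw [Finset.sum_congr rfl fun s _ => h1 s, Finset.sum_add_distrib, Finset.sum_eq_single i,
      Finset.sum_eq_single j]
    · rw [if_pos rfl, if_pos rfl, asym j i]; ring
    · intro s _ hs; rw [if_neg (Ne.symm hs)]; ring
    · intro h; exact absurd (Finset.mem_univ _) h
    · intro s _ hs; rw [if_neg (Ne.symm hs)]; ring
    · intro h; exact absurd (Finset.mem_univ _) h
  have p1 : ∑ p, ∑ k, ∑ l, 1 / 3 * b p l k * sp (dxk p) (rot y k l) x i j =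
      ∑ k, b i j k * (x k - y k) := by
    have h1 : ∀ p, ∑ k, ∑ l, 1 / 3 * b p l k * sp (dxk p) (rot y k l) x i j =
        1 / 3 * (dxk p x i * ∑ k, (b p j k - b p k j) * (x k - y k)) +
        1 / 3 * (dxk p x j * ∑ k, (b p i k - b p k i) * (x k - y k)) := by
      intro p
      rw [← sumZ (fun k l => b p l k) x y j, ← sumZ (fun k l => b p l k) x y i]
      simp only [sp, mul_add, Finset.sum_add_distrib, Finset.mul_sum]
      congr 1
      · refine Finset.sum_congr rfl fun k _ => Finset.sum_congr rfl fun l _ => ?_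
        ring
      · refine Finset.sum_congr rfl fun k _ => Finset.sum_congr rfl fun l _ => ?_
        ring
    have f1 : ∀ (i : Fin n) (f : Fin n → ℝ), ∑ p, 1 / 3 * (dxk p x i * f p) = 1 / 3 * f i := by
      intro i f
      rw [Finset.sum_eq_single i]
      · simp only [dxk, if_true, one_mul]
      · intro s _ hs; simp only [dxk]; rw [if_neg (Ne.symm hs)]; ring
      · intro h; exact absurd (Finset.mem_univ _) h
    rw [Finset.sum_congr rfl fun p _ => h1 p, Finset.sum_add_distrib,
      f1 i (fun p => ∑ k, (b p j k - b p k j) * (x k - y k)),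
      f1 j (fun p => ∑ k, (b p i k - b p k i) * (x k - y k))]
    rw [← mul_add, ← Finset.sum_add_distrib, Finset.mul_sum]
    refine Finset.sum_congr rfl fun k _ => ?_
    have e := bcyc i j k
    rw [bsym k i j] at e
    have e2 : b j i k = b i j k := bsym j i k
    rw [e2]
    linear_combination (-1 / 3 * (x k - y k)) * e
  have p2 : ∑ k, ∑ l, ∑ m, ∑ p, 1 / 12 * C l p k m * sp (rot y k l) (rot y m p) x i j =
      1 / 2 * ∑ k, ∑ l, C i j k l * (x k - y k) * (x l - y l) := by
    have h1 : ∀ i j, ∑ k, ∑ l, ∑ m, ∑ p, C l p k m * (rot y k l x i * rot y m p x j) =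
        ∑ k, ∑ m, (C i j k m - C i m k j - C k j i m + C k m i j) * (x k - y k) * (x m - y m) := by
      intro i j
      have h2 : ∀ k l, ∑ m, ∑ p, C l p k m * (rot y k l x i * rot y m p x j) =
          (∑ m, (C l j k m - C l m k j) * (x m - y m)) * rot y k l x i := by
        intro k l
        rw [← sumZ (fun m p => C l p k m) x y j, Finset.sum_mul]
        refine Finset.sum_congr rfl fun m _ => ?_
        rw [Finset.sum_mul]
        refine Finset.sum_congr rfl fun p _ => ?_
        ring
      simp only [h2]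
      rw [sumZ (fun k l => ∑ m, (C l j k m - C l m k j) * (x m - y m)) x y i]
      refine Finset.sum_congr rfl fun k _ => ?_
      rw [← Finset.sum_sub_distrib, Finset.sum_mul]
      refine Finset.sum_congr rfl fun m _ => ?_
      ring
    have h3 : ∑ k, ∑ l, ∑ m, ∑ p, 1 / 12 * C l p k m * sp (rot y k l) (rot y m p) x i j =
        1 / 12 * ((∑ k, ∑ l, ∑ m, ∑ p, C l p k m * (rot y k l x i * rot y m p x j)) +
          (∑ k, ∑ l, ∑ m, ∑ p, C l p k m * (rot y k l x j * rot y m p x i))) := by
      simp only [sp, mul_add, Finset.sum_add_distrib, Finset.mul_sum]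
      congr 1
      · refine Finset.sum_congr rfl fun k _ => Finset.sum_congr rfl fun l _ =>
          Finset.sum_congr rfl fun m _ => Finset.sum_congr rfl fun p _ => ?_
        ring
      · refine Finset.sum_congr rfl fun k _ => Finset.sum_congr rfl fun l _ =>
          Finset.sum_congr rfl fun m _ => Finset.sum_congr rfl fun p _ => ?_
        ring
    rw [h3, h1, h1, ← Finset.sum_add_distrib, Finset.mul_sum, Finset.mul_sum]
    refine Finset.sum_congr rfl fun k _ => ?_
    rw [← Finset.sum_add_distrib, Finset.mul_sum, Finset.mul_sum]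
    refine Finset.sum_congr rfl fun m _ => ?_
    -- pointwise identity
    have A := Ccyc i j k m
    have B := Ccyc i j m k
    have C' := Ccyc k m i j
    have D' := Ccyc k m j i
    have s1 : C j k i m = C k j i m := Csym j k i m
    have s2 : C k i j m = C k i j m := rfl
    have s3 : C i j m k = C i j k m := Csym2 i j m k
    have s4 : C j m i k = C j m k i := Csym2 j m i k
    have s5 : C m i j k = C i m k j := by rw [Csym m i j k, Csym2 i m j k]
    have s6 : C m i k j = C i m k j := Csym m i k j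
    have s7 : C i k m j = C k i j m := by rw [Csym i k m j, Csym2 k i m j]
    have s8 : C m j k i = C j m k i := Csym m j k i
    have s9 : C j k m i = C k j i m := by rw [Csym j k m i, Csym2 k j m i]
    have s10 : C k m j i = C k m i j := Csym2 k m j i
    have s11 : C j i k m = C i j k m := Csym j i k m
    rw [s1] at A
    rw [s3, s4, s5] at B
    rw [s6, s7] at C'
    rw [s10, s8, s9] at D'
    rw [s10, s11]
    linear_combination (1 / 12 * (x k - y k) * (x m - y m)) * (C' + D' - 2 * A - 2 * B)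
  rw [p0, p1, p2]

end Pool.Agent.H85.KT
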