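import Mathlib
import Pool.Agent.H85.KTClass
import Pool.Agent.H85.KTModel

/-!
# Poisson brackets of quadratic Hamiltonians for the Beltrami metric
-/

set_option linter.unusedSimpArgs false

namespace Pool.Agent.H85.KT

open Filter Topology
open scoped ContDiff

variable {n : ℕ}

lemma pd_sum_at {ι : Type*} (s : Finset ι) {x : Fin n → ℝ} {Fs : ι → (Fin n → ℝ) → ℝ}
    (h : ∀ a ∈ s, Sm x (Fs a)) (k : Fin n) :
    pd k (fun y => ∑ a ∈ s, Fs a y) x = ∑ a ∈ s, pd k (Fs a) x := by
  classical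
  induction s using Finset.induction_on with
  | empty => simp [pd]
  | insert a s ha ih =>
    simp only [Finset.sum_insert ha]
    rw [(pd_add (h a (Finset.mem_insert_self _ _))
      (ContDiffAt.sum fun b hb => h b (Finset.mem_insert_of_mem hb)) k).eq_of_nhds,
      ih (fun b hb => h b (Finset.mem_insert_of_mem hb))]

lemma pd_mul_at {x : Fin n → ℝ} {F G : (Fin n → ℝ) → ℝ} (hF : Sm x F) (hG : Sm x G) (k : Fin n) :
    pd k (fun y => F y * G y) x = pd k F x * G x + F x * pd k G x :=
  (pd_mul hF hG k).eq_of_nhds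

lemma pd_add_at {x : Fin n → ℝ} {F G : (Fin n → ℝ) → ℝ} (hF : Sm x F) (hG : Sm x G) (k : Fin n) :
    pd k (fun y => F y + G y) x = pd k F x + pd k G x :=
  (pd_add hF hG k).eq_of_nhds

/-- The function `w`. -/
def wf (η : Fin n → ℝ) (κ : ℝ) (x : Fin n → ℝ) : ℝ := 1 + κ * ∑ i, η i * x i ^ 2

lemma wf_eq (η : Fin n → ℝ) (κ : ℝ) (x : Fin n → ℝ) :
    wf η κ x = MvPolynomial.eval x (Wp η κ) := by
  simp [wf, Wp, map_sum]

lemma sm_wf (η : Fin n → ℝ) (κ : ℝ) (x : Fin n → ℝ) : Sm x (wf η κ) := by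
  have : wf η κ = fun x => MvPolynomial.eval x (Wp η κ) := funext (wf_eq η κ)
  rw [this]; exact (contDiff_eval _).contDiffAt

lemma pd_wf (η : Fin n → ℝ) (κ : ℝ) (x : Fin n → ℝ) (k : Fin n) :
    pd k (wf η κ) x = 2 * κ * η k * x k := by
  classical
  have : wf η κ = fun x => MvPolynomial.eval x (Wp η κ) := funext (wf_eq η κ)
  rw [this, pd_eval]
  unfold Wp
  simp only [map_add, map_one, Derivation.map_one_eq_zero, zero_add, MvPolynomial.pderiv_C_mul,
    map_sum, map_mul, MvPolynomial.eval_C, MvPolynomial.pderiv_pow, map_natCast, map_pow,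
    MvPolynomial.eval_X]
  rw [Finset.sum_eq_single k]
  · simp; ring
  · intro i _ hi
    rw [MvPolynomial.pderiv_X_of_ne hi]; simp
  · intro h; exact absurd (Finset.mem_univ _) h

/-- The pairing `∑ x_i p_i`. -/
def sf (p x : Fin n → ℝ) : ℝ := ∑ i, p i * x i

lemma sf_eq (p x : Fin n → ℝ) : sf p x = ∑ k, p k * (x k - (0 : Fin n → ℝ) k) := by
  simp [sf]

lemma sm_sf (p x : Fin n → ℝ) : Sm x (sf p) := by
  have : sf p = fun x => ∑ k, p k * (x k - (0 : Fin n → ℝ) k) := funext (sf_eq p)
  rw [this]; exact (smooth_affine _ _).contDiffAt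

lemma pd_sf (p x : Fin n → ℝ) (k : Fin n) : pd k (sf p) x = p k := by
  have : sf p = fun x => ∑ k, p k * (x k - (0 : Fin n → ℝ) k) := funext (sf_eq p)
  rw [this, pd_affine]

lemma sm_coord (i : Fin n) (x : Fin n → ℝ) : Sm x (fun y : Fin n → ℝ => y i) :=
  (contDiff_apply ℝ ℝ i).contDiffAt

lemma pd_coord' (i k : Fin n) (x : Fin n → ℝ) :
    pd k (fun y : Fin n → ℝ => y i) x = if i = k then 1 else 0 := by
  have := pd_coord k i 0 x
  simpa using this

/-- The vector `u = G p / w`. -/
def uf (η : Fin n → ℝ) (κ : ℝ) (x p : Fin n → ℝ) (i : Fin n) : ℝ := η i * p i + κ * (x i * sf p x)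

lemma sm_uf_x (η : Fin n → ℝ) (κ : ℝ) (x p : Fin n → ℝ) (i : Fin n) :
    Sm x (fun y => uf η κ y p i) := by
  unfold uf
  exact contDiffAt_const.add (contDiffAt_const.mul ((sm_coord i x).mul (sm_sf p x)))

lemma pd_uf_x (η : Fin n → ℝ) (κ : ℝ) (x p : Fin n → ℝ) (i k : Fin n) :
    pd k (fun y => uf η κ y p i) x = κ * ((if i = k then 1 else 0) * sf p x + x i * p k) := by
  unfold uf
  rw [pd_add_at contDiffAt_const (contDiffAt_const.mul ((sm_coord i x).mul (sm_sf p x))),
    pd_mul_at contDiffAt_const ((sm_coord i x).mul (sm_sf p x)),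
    pd_mul_at (sm_coord i x) (sm_sf p x), pd_sf, pd_coord', pd_const, pd_const]
  ring

lemma sf_comm (p x : Fin n → ℝ) : sf p x = sf x p := by
  unfold sf
  exact Finset.sum_congr rfl fun i _ => mul_comm _ _

lemma sm_uf_p (η : Fin n → ℝ) (κ : ℝ) (x p : Fin n → ℝ) (i : Fin n) :
    Sm p (fun q => uf η κ x q i) := by
  unfold uf
  have h : (fun q => η i * q i + κ * (x i * sf q x)) =
      fun q => η i * q i + κ * (x i * sf x q) := by
    funext q; rw [sf_comm]
  rw [h]
  exact (contDiffAt_const.mul (sm_coord i p)).add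
    (contDiffAt_const.mul (contDiffAt_const.mul (sm_sf x p)))

lemma pd_uf_p (η : Fin n → ℝ) (κ : ℝ) (x p : Fin n → ℝ) (i k : Fin n) :
    pd k (fun q => uf η κ x q i) p = η i * (if i = k then 1 else 0) + κ * (x i * x k) := by
  unfold uf
  have h : (fun q => η i * q i + κ * (x i * sf q x)) =
      fun q => η i * q i + κ * (x i * sf x q) := by
    funext q; rw [sf_comm]
  have hc : ∀ (c : ℝ) (x : Fin n → ℝ), Sm x (fun _ => c) := fun c x => contDiffAt_const
  rw [h, pd_add_at ((hc _ _).mul (sm_coord i p)) ((hc _ _).mul ((hc _ _).mul (sm_sf x p))),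
    pd_mul_at (hc _ _) (sm_coord i p), pd_mul_at (hc _ _) ((hc _ _).mul (sm_sf x p)),
    pd_mul_at (hc _ _) (sm_sf x p), pd_sf, pd_coord', pd_const, pd_const, pd_const]
  ring

/-- Derivative of a quadratic form. -/
lemma pd_quadform {x : Fin n → ℝ} {A : Fin n → Fin n → (Fin n → ℝ) → ℝ}
    {u : Fin n → (Fin n → ℝ) → ℝ} (hA : ∀ i j, Sm x (A i j)) (hu : ∀ i, Sm x (u i))
    (hs : ∀ i j, A i j x = A j i x) (k : Fin n) :
    pd k (fun y => ∑ i, ∑ j, A i j y * (u i y * u j y)) x =
      (∑ i, ∑ j, pd k (A i j) x * (u i x * u j x)) +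
        2 * ∑ j, pd k (u j) x * ∑ i, A i j x * u i x := by
  have h1 : ∀ i j, Sm x (fun y => A i j y * (u i y * u j y)) := fun i j =>
    (hA i j).mul ((hu i).mul (hu j))
  rw [pd_sum_at _ (fun i _ => ContDiffAt.sum fun j _ => h1 i j)]
  have h2 : ∀ i, pd k (fun y => ∑ j, A i j y * (u i y * u j y)) x =
      ∑ j, (pd k (A i j) x * (u i x * u j x) +
        A i j x * (pd k (u i) x * u j x + u i x * pd k (u j) x)) := by
    intro i
    rw [pd_sum_at _ (fun j _ => h1 i j)]
    refine Finset.sum_congr rfl fun j _ => ?_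
    rw [pd_mul_at (hA i j) ((hu i).mul (hu j)), pd_mul_at (hu i) (hu j)]
  simp only [h2, Finset.sum_add_distrib, mul_add]
  have h3 : ∑ i, ∑ j, A i j x * (pd k (u i) x * u j x) =
      ∑ j, pd k (u j) x * ∑ i, A i j x * u i x := by
    refine Finset.sum_congr rfl fun i _ => ?_
    rw [Finset.mul_sum]
    refine Finset.sum_congr rfl fun j _ => ?_
    rw [hs i j]; ring
  have h4 : ∑ i, ∑ j, A i j x * (u i x * pd k (u j) x) =
      ∑ j, pd k (u j) x * ∑ i, A i j x * u i x := by
    rw [Finset.sum_comm]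
    refine Finset.sum_congr rfl fun j _ => ?_
    rw [Finset.mul_sum]
    refine Finset.sum_congr rfl fun i _ => ?_
    ring
  rw [h3, h4]; ring

/-- The Poisson bracket on `T^*ℝⁿ`. -/
noncomputable def pb (A B : (Fin n → ℝ) → (Fin n → ℝ) → ℝ) (x p : Fin n → ℝ) : ℝ :=
  ∑ k, (pd k (fun q => A x q) p * pd k (fun y => B y p) x -
    pd k (fun y => A y p) x * pd k (fun q => B x q) p)

/-- The Hamiltonian of the metric. -/
def Hf (η : Fin n → ℝ) (κ : ℝ) (x p : Fin n → ℝ) : ℝ :=
  wf η κ x * ((∑ i, η i * p i ^ 2) + κ * (sf p x * sf p x))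

/-- Bracket of the metric Hamiltonian with a quadratic form in `u`. -/
theorem pb_formula {η : Fin n → ℝ} (hη : ∀ i, η i * η i = 1) (κ : ℝ) {x : Fin n → ℝ}
    (Q : Fin n → Fin n → (Fin n → ℝ) → ℝ) (hQ : ∀ i j, Sm x (Q i j))
    (hs : ∀ i j, Q i j x = Q j i x) (p : Fin n → ℝ) :
    pb (Hf η κ) (fun x p => ∑ i, ∑ j, Q i j x * (uf η κ x p i * uf η κ x p j)) x p =
      2 * wf η κ x * ∑ k, uf η κ x p k *
        ∑ i, ∑ j, pd k (Q i j) x * (uf η κ x p i * uf η κ x p j) := by
  classical
  set u : Fin n → ℝ := uf η κ x p with hu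
  set s : ℝ := sf p x with hsdef
  set N : ℝ := (∑ i, η i * p i ^ 2) + κ * (s * s) with hN
  set z : Fin n → ℝ := fun j => ∑ i, Q i j x * u i with hz
  set ζ : ℝ := ∑ j, x j * z j with hζ
  have hc : ∀ (c : ℝ) (x : Fin n → ℝ), Sm x (fun _ => c) := fun c x => contDiffAt_const
  have F1 : ∀ k, pd k (fun y => ∑ i, ∑ j, Q i j y * (uf η κ y p i * uf η κ y p j)) x =
      (∑ i, ∑ j, pd k (Q i j) x * (u i * u j)) + 2 * (κ * (s * z k + p k * ζ)) := by
    intro k
    rw [pd_quadform hQ (fun i => sm_uf_x η κ x p i) hs k]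
    congr 2
    simp only [pd_uf_x]
    have : ∀ j, κ * ((if j = k then 1 else 0) * sf p x + x j * p k) *
        ∑ i, Q i j x * uf η κ x p i =
        κ * (s * (if j = k then z j else 0)) + κ * p k * (x j * z j) := by
      intro j
      simp only [hz, hsdef, hu]
      split_ifs <;> ring
    rw [Finset.sum_congr rfl fun j _ => this j, Finset.sum_add_distrib, ← Finset.mul_sum,
      ← Finset.mul_sum, ← Finset.mul_sum, Finset.sum_ite_eq' Finset.univ k]
    simp only [Finset.mem_univ, if_true]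
    ring
  have F2 : ∀ k, pd k (fun q => ∑ i, ∑ j, Q i j x * (uf η κ x q i * uf η κ x q j)) p =
      2 * (η k * z k + κ * x k * ζ) := by
    intro k
    have := pd_quadform (x := p) (A := fun i j _ => Q i j x) (u := fun i q => uf η κ x q i)
      (fun i j => hc _ _) (fun i => sm_uf_p η κ x p i) hs k
    rw [this]
    have e0 : ∑ i, ∑ j, pd k (fun _ : Fin n → ℝ => Q i j x) p *
        (uf η κ x p i * uf η κ x p j) = 0 := by
      refine Finset.sum_eq_zero fun i _ => Finset.sum_eq_zero fun j _ => ?_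
      rw [pd_const, zero_mul]
    rw [e0, zero_add]
    congr 1
    simp only [pd_uf_p]
    have : ∀ j, (η j * (if j = k then 1 else 0) + κ * (x j * x k)) *
        ∑ i, Q i j x * uf η κ x p i =
        (if j = k then η j * z j else 0) + κ * x k * (x j * z j) := by
      intro j
      simp only [hz, hu]
      split_ifs <;> ring
    rw [Finset.sum_congr rfl fun j _ => this j, Finset.sum_add_distrib, ← Finset.mul_sum,
      Finset.sum_ite_eq' Finset.univ k]
    simp only [Finset.mem_univ, if_true]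
    rw [← hζ]
  have H1 : ∀ k, pd k (fun q => Hf η κ x q) p = 2 * wf η κ x * u k := by
    intro k
    have h : (fun q => Hf η κ x q) =
        fun q => wf η κ x * ((∑ i, η i * (q i * q i)) + κ * (sf x q * sf x q)) := by
      funext q; unfold Hf; rw [sf_comm q x]
      congr 2
      exact Finset.sum_congr rfl fun i _ => by ring
    have hsum : Sm p (fun q : Fin n → ℝ => ∑ i, η i * (q i * q i)) :=
      ContDiffAt.sum fun i _ => (hc _ _).mul ((sm_coord i p).mul (sm_coord i p))
    rw [h, pd_mul_at (hc _ _) (hsum.add ((hc _ _).mul ((sm_sf x p).mul (sm_sf x p)))),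
      pd_add_at hsum ((hc _ _).mul ((sm_sf x p).mul (sm_sf x p))),
      pd_mul_at (hc _ _) ((sm_sf x p).mul (sm_sf x p)), pd_mul_at (sm_sf x p) (sm_sf x p),
      pd_sf, pd_const, pd_const,
      pd_sum_at _ (fun i _ => (hc _ _).mul ((sm_coord i p).mul (sm_coord i p)))]
    have : ∀ i, pd k (fun q : Fin n → ℝ => η i * (q i * q i)) p =
        if i = k then 2 * η i * p i else 0 := by
      intro i
      rw [pd_mul_at (hc _ _) ((sm_coord i p).mul (sm_coord i p)),
        pd_mul_at (sm_coord i p) (sm_coord i p), pd_coord', pd_const]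
      split_ifs <;> ring
    rw [Finset.sum_congr rfl fun i _ => this i, Finset.sum_ite_eq' Finset.univ k]
    simp only [Finset.mem_univ, if_true, hu, uf]
    rw [sf_comm x p]
    ring
  have H2 : ∀ k, pd k (fun y => Hf η κ y p) x =
      2 * κ * η k * x k * N + 2 * wf η κ x * κ * s * p k := by
    intro k
    unfold Hf
    rw [pd_mul_at (sm_wf η κ x) ((hc _ _).add ((hc _ _).mul ((sm_sf p x).mul (sm_sf p x)))),
      pd_add_at (hc _ _) ((hc _ _).mul ((sm_sf p x).mul (sm_sf p x))),
      pd_mul_at (hc _ _) ((sm_sf p x).mul (sm_sf p x)), pd_mul_at (sm_sf p x) (sm_sf p x),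
      pd_sf, pd_const, pd_const, pd_wf]
    simp only [hN, hsdef]
    ring
  have e1 : ∑ k, η k * x k * (η k * z k + κ * x k * ζ) = wf η κ x * ζ := by
    have : ∀ k, η k * x k * (η k * z k + κ * x k * ζ) = x k * z k + κ * ζ * (η k * x k ^ 2) := by
      intro k
      linear_combination (x k * z k) * hη k
    rw [Finset.sum_congr rfl fun k _ => this k, Finset.sum_add_distrib, ← Finset.mul_sum]
    unfold wf
    rw [← hζ]; ring
  have e2 : ∑ k, p k * (η k * z k + κ * x k * ζ) = ∑ k, u k * z k := by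
    have h1 : ∀ k, p k * (η k * z k + κ * x k * ζ) = η k * p k * z k + κ * ζ * (p k * x k) :=
      fun k => by ring
    have h2 : ∀ k, u k * z k = η k * p k * z k + κ * s * (x k * z k) := by
      intro k; simp only [hu, uf, hsdef]; ring
    rw [Finset.sum_congr rfl fun k _ => h1 k, Finset.sum_congr rfl fun k _ => h2 k,
      Finset.sum_add_distrib, Finset.sum_add_distrib, ← Finset.mul_sum, ← Finset.mul_sum, ← hζ]
    have : ∑ k, p k * x k = s := rfl
    rw [this]; ring
  have e3 : ∑ k, u k * p k = N := by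
    have h2 : ∀ k, u k * p k = η k * p k ^ 2 + κ * s * (p k * x k) := by
      intro k; simp only [hu, uf, hsdef]; ring
    rw [Finset.sum_congr rfl fun k _ => h2 k, Finset.sum_add_distrib, ← Finset.mul_sum]
    have : ∑ k, p k * x k = s := rfl
    rw [this, hN]; ring
  unfold pb
  simp only [F1, F2, H1, H2]
  clear_value ζ N s
  have key : ∑ k, (2 * wf η κ x * u k * ((∑ i, ∑ j, pd k (Q i j) x * (u i * u j)) +
      2 * (κ * (s * z k + p k * ζ))) -
      (2 * κ * η k * x k * N + 2 * wf η κ x * κ * s * p k) *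
        (2 * (η k * z k + κ * x k * ζ))) =
      2 * wf η κ x * (∑ k, u k * ∑ i, ∑ j, pd k (Q i j) x * (u i * u j)) +
      4 * wf η κ x * κ * s * (∑ k, u k * z k) + 4 * wf η κ x * κ * ζ * (∑ k, u k * p k) -
      4 * κ * N * (∑ k, η k * x k * (η k * z k + κ * x k * ζ)) -
      4 * wf η κ x * κ * s * (∑ k, p k * (η k * z k + κ * x k * ζ)) := by
    rw [Finset.mul_sum, Finset.mul_sum, Finset.mul_sum, Finset.mul_sum, Finset.mul_sum,
      ← Finset.sum_add_distrib, ← Finset.sum_add_distrib, ← Finset.sum_sub_distrib,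
      ← Finset.sum_sub_distrib]
    refine Finset.sum_congr rfl fun k _ => ?_
    ring
  rw [key, e1, e2, e3]
  ring

/-- Surjectivity of `p ↦ u`. -/
lemma exists_p {η : Fin n → ℝ} (hη : ∀ i, η i * η i = 1) (κ : ℝ) {x : Fin n → ℝ}
    (hw : wf η κ x ≠ 0) (v : Fin n → ℝ) : ∃ p, uf η κ x p = v := by
  refine ⟨fun t => η t * v t - κ * (η t * x t) * (∑ i, η i * x i * v i) / wf η κ x, ?_⟩
  set σ := ∑ i, η i * x i * v i with hσ
  have hs : sf (fun t => η t * v t - κ * (η t * x t) * σ / wf η κ x) x = σ / wf η κ x := by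
    unfold sf
    have : ∀ i, (η i * v i - κ * (η i * x i) * σ / wf η κ x) * x i =
        η i * x i * v i - κ * σ / wf η κ x * (η i * x i ^ 2) := fun i => by ring
    rw [Finset.sum_congr rfl fun i _ => this i, Finset.sum_sub_distrib, ← Finset.mul_sum, ← hσ]
    have h2 : κ * (∑ i, η i * x i ^ 2) = wf η κ x - 1 := by unfold wf; ring
    have h3 : κ * σ / wf η κ x * (∑ i, η i * x i ^ 2) = σ / wf η κ x * (wf η κ x - 1) := by
      rw [← h2]; ring
    rw [h3]
    field_simp
    ring
  funext i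
  unfold uf
  rw [hs]
  have := hη i
  linear_combination (v i - κ * x i * σ / wf η κ x) * this

/-- Polarization of a cubic form. -/
lemma polarize (T : Fin n → Fin n → Fin n → ℝ) (hs : ∀ k i j, T k i j = T k j i)
    (h : ∀ v : Fin n → ℝ, ∑ k, v k * ∑ i, ∑ j, T k i j * (v i * v j) = 0) (k i j : Fin n) :
    T k i j + T i j k + T j k i = 0 := by
  classical
  let S : (Fin n → ℝ) → (Fin n → ℝ) → (Fin n → ℝ) → ℝ := fun a b c =>
    ∑ k, ∑ i, ∑ j, T k i j * (a k * b i * c j)
  have hS : ∀ v, S v v v = 0 := by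
    intro v
    rw [← h v]
    simp only [S, Finset.mul_sum]
    refine Finset.sum_congr rfl fun k _ => Finset.sum_congr rfl fun i _ =>
      Finset.sum_congr rfl fun j _ => ?_
    ring
  have a1 : ∀ a a' b c, S (a + a') b c = S a b c + S a' b c := by
    intro a a' b c
    simp only [S, Pi.add_apply, add_mul, mul_add, Finset.sum_add_distrib]
  have a2 : ∀ a b b' c, S a (b + b') c = S a b c + S a b' c := by
    intro a b b' c
    simp only [S, Pi.add_apply, add_mul, mul_add, Finset.sum_add_distrib]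
  have a3 : ∀ a b c c', S a b (c + c') = S a b c + S a b c' := by
    intro a b c c'
    simp only [S, Pi.add_apply, add_mul, mul_add, Finset.sum_add_distrib]
  have hd : ∀ k i j, S (Pi.single k 1) (Pi.single i 1) (Pi.single j 1) = T k i j := by
    intro k i j
    simp only [S]
    rw [Finset.sum_eq_single k]
    · rw [Finset.sum_eq_single i]
      · rw [Finset.sum_eq_single j]
        · simp
        · intro j' _ hj; simp [hj]
        · intro h; exact absurd (Finset.mem_univ _) h
      · intro i' _ hi; simp [hi]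
      · intro h; exact absurd (Finset.mem_univ _) h
    · intro k' _ hk; simp [hk]
    · intro h; exact absurd (Finset.mem_univ _) h
  set a : Fin n → ℝ := Pi.single k 1
  set b : Fin n → ℝ := Pi.single i 1
  set c : Fin n → ℝ := Pi.single j 1
  have e1 := hS (a + b + c)
  have e2 := hS (a + b)
  have e3 := hS (a + c)
  have e4 := hS (b + c)
  have e5 := hS a
  have e6 := hS b
  have e7 := hS c
  simp only [a1, a2, a3] at e1 e2 e3 e4
  have d1 : S a b c = T k i j := hd k i j
  have d2 : S a c b = T k j i := hd k j i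
  have d3 : S b a c = T i k j := hd i k j
  have d4 : S b c a = T i j k := hd i j k
  have d5 : S c a b = T j k i := hd j k i
  have d6 : S c b a = T j i k := hd j i k
  have s1 := hs k j i
  have s2 := hs i k j
  have s3 := hs j i k
  linarith

end Pool.Agent.H85.KT
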