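import Mathlib

/-!
# The two dimensional identity: the trace of a Killing tensor is a conservation law
-/

set_option linter.all false

namespace Pool.Agent.H85.KT

open MvPolynomial

lemma two_dim_identity (a b c d e h κ : ℝ) (ε₀ ε₁ : ℝ) (h0 : ε₀ = 1 ∨ ε₀ = -1)
    (h1 : ε₁ = 1 ∨ ε₁ = -1)
    (W N R00 R10 R01 R11 P0 P1 : MvPolynomial (Fin 2) ℝ)
    (hW : W = 1 + C κ * (C ε₀ * X 0 ^ 2 + C ε₁ * X 1 ^ 2))
    (hN : N = C ε₀ * (C a - 2 * C b * X 1 + C e * X 1 ^ 2) +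
      C ε₁ * (C c - 2 * C d * X 0 + C e * X 0 ^ 2) +
      C κ * (C a * X 0 ^ 2 + 2 * C h * X 0 * X 1 + C c * X 1 ^ 2))
    (hR00 : R00 = C ε₀ * (C a - 2 * C b * X 1 + C e * X 1 ^ 2) +
      C κ * X 0 * (C a * X 0 - C b * X 0 * X 1 + C h * X 1 + C d * X 1 ^ 2))
    (hR10 : R10 = C ε₁ * (C h + C b * X 0 + C d * X 1 - C e * X 0 * X 1) +
      C κ * X 1 * (C a * X 0 - C b * X 0 * X 1 + C h * X 1 + C d * X 1 ^ 2))
    (hR01 : R01 = C ε₀ * (C h + C b * X 0 + C d * X 1 - C e * X 0 * X 1) +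
      C κ * X 0 * (C h * X 0 + C b * X 0 ^ 2 + C c * X 1 - C d * X 0 * X 1))
    (hR11 : R11 = C ε₁ * (C c - 2 * C d * X 0 + C e * X 0 ^ 2) +
      C κ * X 1 * (C h * X 0 + C b * X 0 ^ 2 + C c * X 1 - C d * X 0 * X 1))
    (hP0 : P0 = R00 * (W * pderiv 0 N - N * pderiv 0 W) + R10 * (W * pderiv 1 N - N * pderiv 1 W))
    (hP1 : P1 = R01 * (W * pderiv 0 N - N * pderiv 0 W) +
      R11 * (W * pderiv 1 N - N * pderiv 1 W)) :
    W * (pderiv 0 P1 - pderiv 1 P0) = 3 * (pderiv 0 W * P1 - pderiv 1 W * P0) := by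
  have d2 : ∀ i, pderiv i (2 : MvPolynomial (Fin 2) ℝ) = 0 := by
    intro i
    have : (2 : MvPolynomial (Fin 2) ℝ) = C 2 := by rw [map_ofNat]
    rw [this, pderiv_C]
  have x00 : pderiv 0 (X 0 : MvPolynomial (Fin 2) ℝ) = 1 := pderiv_X_self 0
  have x11 : pderiv 1 (X 1 : MvPolynomial (Fin 2) ℝ) = 1 := pderiv_X_self 1
  have x01 : pderiv 0 (X 1 : MvPolynomial (Fin 2) ℝ) = 0 := pderiv_X_of_ne (by decide)
  have x10 : pderiv 1 (X 0 : MvPolynomial (Fin 2) ℝ) = 0 := pderiv_X_of_ne (by decide)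
  have W0 : pderiv 0 W = 2 * C κ * C ε₀ * X 0 := by
    rw [hW]
    simp only [map_add, map_sub, Derivation.map_one_eq_zero, pderiv_C_mul, pderiv_pow, x00, x01,
      pderiv_C, Derivation.leibniz, d2, smul_eq_mul]
    push_cast; ring
  have W1 : pderiv 1 W = 2 * C κ * C ε₁ * X 1 := by
    rw [hW]
    simp only [map_add, map_sub, Derivation.map_one_eq_zero, pderiv_C_mul, pderiv_pow, x11, x10,
      pderiv_C, Derivation.leibniz, d2, smul_eq_mul]
    push_cast; ring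
  have N0 : pderiv 0 N = C ε₁ * (- 2 * C d + 2 * C e * X 0) +
      C κ * (2 * C a * X 0 + 2 * C h * X 1) := by
    rw [hN]
    simp only [map_add, map_sub, Derivation.map_one_eq_zero, pderiv_C_mul, pderiv_pow, x00, x01,
      pderiv_C, Derivation.leibniz, d2, smul_eq_mul]
    push_cast; ring
  have N1 : pderiv 1 N = C ε₀ * (- 2 * C b + 2 * C e * X 1) +
      C κ * (2 * C h * X 0 + 2 * C c * X 1) := by
    rw [hN]
    simp only [map_add, map_sub, Derivation.map_one_eq_zero, pderiv_C_mul, pderiv_pow, x11, x10,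
      pderiv_C, Derivation.leibniz, d2, smul_eq_mul]
    push_cast; ring
  rw [N0, N1, W0, W1] at hP0 hP1
  rw [hP0, hP1, W0, W1, hW, hN, hR00, hR01, hR10, hR11]
  simp only [map_add, map_sub, map_neg, Derivation.map_one_eq_zero, pderiv_C_mul, pderiv_pow, x00,
    x01, x11, x10, pderiv_C, Derivation.leibniz, d2, smul_eq_mul]
  rcases h0 with rfl | rfl <;> rcases h1 with rfl | rfl <;> simp only [map_neg, map_one] <;>
    push_cast <;> ring

end Pool.Agent.H85.KT
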